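import Pool.Agent.H583R2.NC.Defs
import Pool.Agent.H628R3.RO.D1
import Pool.Agent.H628R3.RO.D3
import Pool.Agent.H628R3.RO.M2

/-!
# Locality of the events (task LOC, helper287)
-/

set_option autoImplicit false

namespace Pool.Agent.H583R2.NC

open MeasureTheory Pool.Agent.NPC Pool.Agent.H628R3.RO

theorem mem_slot {n s b i : ℕ} {κ : Cand} : κ ∈ slot n s b i ↔
    (b * KK s + i) * qq s ≤ κ.1 ∧ κ.1 < (b * KK s + i + 1) * qq s ∧ κ.2.length = wl n := by
  unfold slot
  rw [mem_cands, Finset.mem_Ico, and_assoc]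

theorem card_slot (n s b i : ℕ) : (slot n s b i).card = qq s * 2 ^ wl n := by
  unfold slot
  rw [card_cands, Nat.card_Ico, add_mul _ 1, one_mul, Nat.add_sub_cancel_left]

theorem slot_disjoint {n s b i b' i' : ℕ} (h : b * KK s + i ≠ b' * KK s + i') :
    Disjoint (slot n s b i) (slot n s b' i') := by
  rw [Finset.disjoint_left]
  intro κ h1 h2
  rw [mem_slot] at h1 h2
  obtain ⟨a1, a2, _⟩ := h1
  obtain ⟨b1, b2, _⟩ := h2
  rcases lt_or_gt_of_ne h with h' | h'
  · have : (b * KK s + i + 1) * qq s ≤ (b' * KK s + i') * qq s := Nat.mul_le_mul_right _ h'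
    omega
  · have : (b' * KK s + i' + 1) * qq s ≤ (b * KK s + i) * qq s := Nat.mul_le_mul_right _ h'
    omega

theorem LOC_num {K b b' i i' : ℕ} (hi : i < K) (hi' : i' < K) (h : b ≠ b' ∨ i ≠ i') :
    b * K + i ≠ b' * K + i' := by
  intro he
  have h1 : b = b' := by
    rcases lt_trichotomy b b' with h1 | h1 | h1
    · exfalso
      have : (b + 1) * K ≤ b' * K := Nat.mul_le_mul_right _ h1
      rw [add_mul, one_mul] at this
      omega
    · exact h1
    · exfalso
      have : (b' + 1) * K ≤ b * K := Nat.mul_le_mul_right _ h1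
      rw [add_mul, one_mul] at this
      omega
  subst h1
  have h2 : i = i' := by omega
  rcases h with h | h
  · exact h rfl
  · exact h h2

theorem slot_disjoint' {n s b i b' i' : ℕ} (hi : i < KK s) (hi' : i' < KK s)
    (h : b ≠ b' ∨ i ≠ i') : Disjoint (slot n s b i) (slot n s b' i') :=
  slot_disjoint (LOC_num hi hi' h)

theorem slot_subset {n s b i : ℕ} (hb : b < BB s) (hi : i < KK s) :
    slot n s b i ⊆ blk n s := by
  intro κ hκ
  rw [mem_slot] at hκ
  unfold blk
  rw [mem_cands, Finset.mem_range]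
  refine ⟨hκ.2.1.trans_le (Nat.mul_le_mul_right _ ?_), hκ.2.2⟩
  calc b * KK s + i + 1 ≤ b * KK s + KK s := by omega
    _ = (b + 1) * KK s := by ring
    _ ≤ BB s * KK s := Nat.mul_le_mul_right _ hb

theorem LOC_mem_blk {n s : ℕ} {κ : Cand} (h : κ ∈ blk n s) :
    κ.1 < BB s * KK s * qq s ∧ κ.2.length = wl n := by
  unfold blk at h
  rw [mem_cands, Finset.mem_range] at h
  exact h

theorem LOC_mem_spotsB {n s : ℕ} {x : List Bool} (hx : x ∈ spotsB n s) :
    ∃ c < BB s * KK s * qq s, ∃ i < wl n, ∃ w : List Bool, w.length = wl n ∧ x = pos c i w := by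
  unfold spotsB at hx
  rw [mem_allSpots] at hx
  obtain ⟨κ, hκ, i, hi, rfl⟩ := hx
  exact ⟨κ.1, (LOC_mem_blk hκ).1, i, hi, κ.2, (LOC_mem_blk hκ).2, rfl⟩

theorem lt_length_spotsB {n s : ℕ} : ∀ x ∈ spotsB n s, n < x.length := by
  intro x hx
  obtain ⟨c, _, i, _, w, hw, rfl⟩ := LOC_mem_spotsB hx
  rw [length_pos, hw]
  unfold wl
  omega

theorem disjoint_spotsB (n n' s s' : ℕ) (h : n ≠ n') :
    Disjoint (spotsB n s) (spotsB n' s') := by
  rw [Finset.disjoint_left]
  intro x hx hx'
  obtain ⟨c, _, i, _, w, hw, rfl⟩ := LOC_mem_spotsB hx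
  obtain ⟨c', _, i', _, w', hw', h2⟩ := LOC_mem_spotsB hx'
  obtain ⟨-, -, h3⟩ := pos_inj h2
  apply h
  rw [h3, hw'] at hw
  unfold wl at hw
  omega

theorem pos_mem_spotsB {n s : ℕ} {κ : Cand} (h : κ ∈ blk n s) {l : ℕ} (hl : l < wl n) :
    pos κ.1 l κ.2 ∈ spotsB n s := by
  unfold spotsB
  rw [mem_allSpots]
  exact ⟨κ, h, l, hl, rfl⟩

theorem loc_Zero {n s b i : ℕ} (hb : b < BB s) (hi : i < KK s) :
    Loc (spotsB n s) (Zero n s b i) := by
  unfold Zero
  apply M2.loc_noHit
  intro κ hκ l hl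
  exact Finset.mem_coe.2 (pos_mem_spotsB (slot_subset hb hi hκ) hl)

theorem loc_AllHit {n s b : ℕ} (hb : b < BB s) : Loc (spotsB n s) (AllHit n s b) := by
  intro A A' h
  unfold AllHit
  simp only [Set.mem_ofPred_eq]
  exact forall₂_congr fun i hi => not_congr (loc_Zero hb hi A A' h)

theorem loc_Others {n s b j : ℕ} (hb : b < BB s) : Loc (spotsB n s) (Others n s b j) := by
  intro A A' h
  unfold Others
  simp only [Set.mem_ofPred_eq]
  exact forall₂_congr fun i hi => forall₂_congr fun _ _ => not_congr (loc_Zero hb hi A A' h)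

theorem loc_One {n s b : ℕ} (hb : b < BB s) : Loc (spotsB n s) (One n s b) := by
  intro A A' h
  unfold One
  simp only [Set.mem_ofPred_eq]
  refine exists_congr fun i₀ => and_congr_right fun hi₀ => and_congr (loc_Zero hb hi₀ A A' h) ?_
  exact forall₂_congr fun i hi => forall_congr' fun _ => not_congr (loc_Zero hb hi A A' h)

theorem loc_Quiet (n s b : ℕ) : Loc (spotsB n s) (Quiet n s b) := by
  intro A A' h
  unfold Quiet
  simp only [Set.mem_ofPred_eq]
  exact forall₂_congr fun b' hb' => forall_congr' fun _ =>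
    and_congr (not_congr (loc_AllHit hb' A A' h)) (not_congr (loc_One hb' A A' h))

theorem loc_Bad (n s : ℕ) : Loc (spotsB n s) (Bad n s) := by
  intro A A' h
  unfold Bad
  simp only [Set.mem_ofPred_eq]
  exact exists_congr fun b => and_congr_right fun hb => loc_AllHit hb A A' h

theorem loc_Two (n s : ℕ) : Loc (spotsB n s) (Two n s) := by
  intro A A' h
  unfold Two
  simp only [Set.mem_ofPred_eq]
  refine exists_congr fun b => and_congr_right fun hb => exists_congr fun j =>
    and_congr_right fun hj => and_congr (loc_Others hb A A' h) (and_congr ?_ ?_)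
  · exact loc_Zero hb (by unfold KK; omega) A A' h
  · exact loc_Zero hb (by unfold KK; omega) A A' h

theorem loc_Inv (n s : ℕ) : Loc (spotsB n s) (Inv n s) := by
  intro A A' h
  unfold Inv
  rw [Set.mem_union, Set.mem_union]
  exact or_congr (loc_Bad n s A A' h) (loc_Two n s A A' h)

theorem length_spotsB_of (hP : ∃ P : Polynomial ℕ, ∀ s, BB s * KK s * qq s + BB s + KK s + JJ s +
    qq s + 2 ^ mm s + qq s * 2 ^ mm s ≤ P.eval s) : ∃ P : Polynomial ℕ, ∀ n s, s ≤ n →
    ∀ x ∈ spotsB n s, x.length ≤ P.eval n := by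
  obtain ⟨P, hP⟩ := hP
  refine ⟨P + Polynomial.C 4 * Polynomial.X + Polynomial.C 18, ?_⟩
  intro n s hsn x hx
  obtain ⟨c, hc, i, hi, w, hw, rfl⟩ := LOC_mem_spotsB hx
  have h1 := hP s
  have h2 : P.eval s ≤ P.eval n := eval_mono P hsn
  rw [length_pos, hw]
  have h3 : BB s * KK s * qq s ≤ P.eval s := by
    refine le_trans ?_ h1
    generalize BB s * KK s * qq s = a1
    generalize qq s * 2 ^ mm s = a2
    generalize 2 ^ mm s = a3
    omega
  clear h1
  simp only [Polynomial.eval_add, Polynomial.eval_mul, Polynomial.eval_C, Polynomial.eval_X]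
  unfold wl at hi ⊢
  omega

/-- planting hits in one slot does not change the other slots -/
theorem plant_Zero {n s b i : ℕ} {h : Finset Cand} (hd : Disjoint h (slot n s b i)) (A : Oracle) :
    plant (allSpots (wl n) h) A ∈ Zero n s b i ↔ A ∈ Zero n s b i := by
  unfold Zero NoHit
  simp only [Set.mem_ofPred_eq]
  refine forall₂_congr fun κ hκ => not_congr ?_
  exact M2.hit_plant (fun hκ' => Finset.disjoint_left.1 hd hκ' hκ) A

theorem LOC_disj {n s b b' i j : ℕ} {h : Finset Cand} (hj : j < JJ s)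
    (hh : h ⊆ slot n s b (2 * j) ∪ slot n s b (2 * j + 1)) (hi : i < KK s)
    (hne : b ≠ b' ∨ (i ≠ 2 * j ∧ i ≠ 2 * j + 1)) : Disjoint h (slot n s b' i) := by
  have hj1 : 2 * j < KK s := by unfold KK; omega
  have hj2 : 2 * j + 1 < KK s := by unfold KK; omega
  refine Finset.disjoint_of_subset_left hh ?_
  rw [Finset.disjoint_union_left]
  constructor
  · refine slot_disjoint' hj1 hi ?_
    rcases hne with hne | hne
    · exact Or.inl hne
    · exact Or.inr (Ne.symm hne.1)
  · refine slot_disjoint' hj2 hi ?_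
    rcases hne with hne | hne
    · exact Or.inl hne
    · exact Or.inr (Ne.symm hne.2)

theorem plant_Others {n s b j : ℕ} {h : Finset Cand} (hj : j < JJ s)
    (hh : h ⊆ slot n s b (2 * j) ∪ slot n s b (2 * j + 1)) (A : Oracle) :
    plant (allSpots (wl n) h) A ∈ Others n s b j ↔ A ∈ Others n s b j := by
  unfold Others
  simp only [Set.mem_ofPred_eq]
  exact forall₂_congr fun i hi => forall₂_congr fun h1 h2 => not_congr
    (plant_Zero (LOC_disj hj hh hi (Or.inr ⟨h1, h2⟩)) A)

theorem plant_Quiet {n s b j : ℕ} {h : Finset Cand} (hj : j < JJ s)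
    (hh : h ⊆ slot n s b (2 * j) ∪ slot n s b (2 * j + 1)) (A : Oracle) :
    plant (allSpots (wl n) h) A ∈ Quiet n s b ↔ A ∈ Quiet n s b := by
  unfold Quiet
  simp only [Set.mem_ofPred_eq]
  refine forall₂_congr fun b' hb' => forall_congr' fun hne => ?_
  have hz : ∀ i, i < KK s →
      (plant (allSpots (wl n) h) A ∈ Zero n s b' i ↔ A ∈ Zero n s b' i) := fun i hi =>
    plant_Zero (LOC_disj hj hh hi (Or.inl (Ne.symm hne))) A
  refine and_congr (not_congr ?_) (not_congr ?_)
  · unfold AllHit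
    simp only [Set.mem_ofPred_eq]
    exact forall₂_congr fun i hi => not_congr (hz i hi)
  · unfold One
    simp only [Set.mem_ofPred_eq]
    refine exists_congr fun i₀ => and_congr_right fun hi₀ => and_congr (hz i₀ hi₀) ?_
    exact forall₂_congr fun i hi => forall_congr' fun _ => not_congr (hz i hi)

/-- planting hits of the stage does not change events on short strings -/
theorem plant_short {n s t : ℕ} (ht : t ≤ n) {η : Set Oracle} (hη : Loc {x | x.length ≤ t} η)
    {h : Finset Cand} (hh : h ⊆ blk n s) (A : Oracle) :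
    plant (allSpots (wl n) h) A ∈ η ↔ A ∈ η := by
  apply hη
  intro x hx
  have hx' : x.length ≤ t := hx
  unfold plant
  rw [if_neg]
  intro hmem
  rw [mem_allSpots] at hmem
  obtain ⟨κ, hκ, i, hi, rfl⟩ := hmem
  have := lt_length_spotsB _ (pos_mem_spotsB (hh hκ) hi)
  omega

end Pool.Agent.H583R2.NC
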