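import Pool.Agent.H583R2.NC.Par
import Pool.Agent.H583R2.NC.Loc
import Pool.Agent.H628R3.RO.E2

/-!
The check for the hidden blocks can be carried out in time polynomial in a pad.
-/

namespace Pool.Agent.H583R2.NC

open MeasureTheory Pool.Agent.NPC Pool.Agent.H628R3.RO

theorem memAllHit_CHK {n s b : ℕ} {A : Oracle} :
    A ∈ AllHit n s b ↔ ∀ i < KK s, ∃ c, (b * KK s + i) * qq s ≤ c ∧
      c < (b * KK s + i + 1) * qq s ∧ ∃ w : List Bool, w.length = wl n ∧ Hit (wl n) (c, w) A := by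
  have h0 : ∀ i, A ∉ Zero n s b i ↔ ∃ c, (b * KK s + i) * qq s ≤ c ∧
      c < (b * KK s + i + 1) * qq s ∧ ∃ w : List Bool, w.length = wl n ∧ Hit (wl n) (c, w) A := by
    intro i
    simp only [Zero, NoHit, slot, Set.mem_ofPred_eq]
    push Not
    constructor
    · rintro ⟨⟨c, w⟩, hκ, h⟩
      obtain ⟨h1, h2⟩ := mem_cands.1 hκ
      obtain ⟨h3, h4⟩ := Finset.mem_Ico.1 h1
      exact ⟨c, h3, h4, w, h2, h⟩
    · rintro ⟨c, h3, h4, w, h2, h⟩
      exact ⟨(c, w), mem_cands.2 ⟨Finset.mem_Ico.2 ⟨h3, h4⟩, h2⟩, h⟩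
  rw [AllHit, Set.mem_ofPred_eq]
  exact forall_congr' fun i => imp_congr_right fun _ => h0 i

/-- all copies of the stage -/
def tot (s : ℕ) : ℕ := BB s * KK s * qq s

theorem le_tot {s b i c : ℕ} (hb : b < BB s) (hi : i < KK s)
    (hc : c < (b * KK s + i + 1) * qq s) : c < tot s := by
  have h1 : b * KK s + i + 1 ≤ (b + 1) * KK s := by
    rw [add_mul, one_mul]; omega
  have h2 : (b + 1) * KK s ≤ BB s * KK s := Nat.mul_le_mul_right _ hb
  exact hc.trans_le (Nat.mul_le_mul_right _ (h1.trans h2))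

theorem pBad_B (b : Polynomial ℕ) (hb8 : ∀ n, wl n ≤ b.eval (2 ^ n)) :
    ∃ f : List (List Bool) → ℕ → ℕ → Bool, (∀ S n j, f S n j = true ↔ ofL S ∈ Bad n j) ∧
    ∀ {α : Type} [TEnc α] {S : α → List (List Bool)} {n j N : α → ℕ}, Poly S → UPoly n →
      UPoly j → UPoly N → (∀ a, 2 ^ (b.eval (2 ^ (n a))) ≤ N a) →
      Poly (fun a => f (S a) (n a) (j a)) := by
  refine ⟨fun S n j => (List.range (BB j)).any (fun b => (List.range (KK j)).all (fun i =>
    (List.range (tot j)).any (fun c => (decide ((b * KK j + i) * qq j ≤ c) &&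
      decide (c < (b * KK j + i + 1) * qq j)) && (strsEq (wl n)).any
        (fun w => hitB S (wl n) (min c (tot j)) w)))), fun S n j => ?_, ?_⟩
  · rw [List.any_eq_true, Bad, Set.mem_ofPred_eq]
    refine exists_congr fun b => ?_
    rw [List.mem_range, List.all_eq_true, memAllHit_CHK]
    refine and_congr_right fun hb => ?_
    refine forall_congr' fun i => ?_
    rw [List.mem_range, List.any_eq_true]
    refine imp_congr_right fun hi => ?_
    constructor
    · rintro ⟨c, hc, h⟩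
      rw [List.mem_range] at hc
      rw [Bool.and_eq_true, Bool.and_eq_true, decide_eq_true_eq, decide_eq_true_eq,
        List.any_eq_true] at h
      obtain ⟨⟨h1, h2⟩, w, hw, h3⟩ := h
      rw [min_eq_left hc.le] at h3
      exact ⟨c, h1, h2, w, mem_strsEq.1 hw, hitB_iff.1 h3⟩
    · rintro ⟨c, h1, h2, w, hw, h3⟩
      have hc : c < tot j := le_tot hb hi h2
      refine ⟨c, List.mem_range.2 hc, ?_⟩
      rw [Bool.and_eq_true, Bool.and_eq_true, decide_eq_true_eq, decide_eq_true_eq,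
        List.any_eq_true]
      refine ⟨⟨h1, h2⟩, w, mem_strsEq.2 hw, ?_⟩
      rw [min_eq_left hc.le]
      exact hitB_iff.2 h3
  · intro α _ S n j N hS hn hj hN h
    have hwl : UPoly (fun a => wl (n a)) := ((UPoly.const 2).mul hn).add (UPoly.const 8)
    have hp1 : ∀ a, 2 ^ (wl (n a)) ≤ N a := fun a =>
      (Nat.pow_le_pow_right (by norm_num) (hb8 _)).trans (h a)
    have hB := u_BB hj
    have hK := u_KK hj
    have hq := u_qq hj
    have ht : UPoly (fun a => tot (j a)) := (hB.mul hK).mul hq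
    refine Poly.any (p := fun a b => (List.range (KK (j a))).all (fun i =>
      (List.range (tot (j a))).any (fun c => (decide ((b * KK (j a) + i) * qq (j a) ≤ c) &&
      decide (c < (b * KK (j a) + i + 1) * qq (j a))) && (strsEq (wl (n a))).any
        (fun w => hitB (S a) (wl (n a)) (min c (tot (j a))) w)))) hB.range ?_
    have h1 : Poly (fun q : α × ℕ => q.1) := Poly.fst Poly.id
    refine Poly.all (p := fun (q : α × ℕ) i => (List.range (tot (j q.1))).any (fun c =>
      (decide ((q.2 * KK (j q.1) + i) * qq (j q.1) ≤ c) &&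
      decide (c < (q.2 * KK (j q.1) + i + 1) * qq (j q.1))) && (strsEq (wl (n q.1))).any
        (fun w => hitB (S q.1) (wl (n q.1)) (min c (tot (j q.1))) w))) (hK.comp h1).range ?_
    have k1 : Poly (fun q : (α × ℕ) × ℕ => q.1.1) := Poly.fst (Poly.fst Poly.id)
    refine Poly.any (p := fun (q : (α × ℕ) × ℕ) c =>
      (decide ((q.1.2 * KK (j q.1.1) + q.2) * qq (j q.1.1) ≤ c) &&
      decide (c < (q.1.2 * KK (j q.1.1) + q.2 + 1) * qq (j q.1.1))) &&
        (strsEq (wl (n q.1.1))).any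
        (fun w => hitB (S q.1.1) (wl (n q.1.1)) (min c (tot (j q.1.1))) w)) (ht.comp k1).range ?_
    have l1 : Poly (fun q : ((α × ℕ) × ℕ) × ℕ => q.1.1.1) :=
      Poly.fst (Poly.fst (Poly.fst Poly.id))
    have l2 : Poly (fun q : ((α × ℕ) × ℕ) × ℕ => q.1.1.2) :=
      Poly.snd (Poly.fst (Poly.fst Poly.id))
    have l3 : Poly (fun q : ((α × ℕ) × ℕ) × ℕ => q.1.2) := Poly.snd (Poly.fst Poly.id)
    have l4 : Poly (fun q : ((α × ℕ) × ℕ) × ℕ => q.2) := Poly.snd Poly.id
    have hKl : Poly (fun q : ((α × ℕ) × ℕ) × ℕ => KK (j q.1.1.1)) := (hK.comp l1).toPoly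
    have hql : Poly (fun q : ((α × ℕ) × ℕ) × ℕ => qq (j q.1.1.1)) := (hq.comp l1).toPoly
    have hx : Poly (fun q : ((α × ℕ) × ℕ) × ℕ => q.1.1.2 * KK (j q.1.1.1) + q.1.2) :=
      Poly.add (Poly.mul l2 hKl) l3
    refine Poly.and (Poly.and (Poly.decide_le (Poly.mul hx hql) l4)
      (Poly.decide_lt l4 (Poly.mul (Poly.succ hx) hql))) ?_
    refine Poly.any (p := fun (q : ((α × ℕ) × ℕ) × ℕ) w =>
      hitB (S q.1.1.1) (wl (n q.1.1.1)) (min q.2 (tot (j q.1.1.1))) w)
      (p_strsEq (l := fun q : ((α × ℕ) × ℕ) × ℕ => wl (n q.1.1.1)) (hwl.comp l1) (hN.comp l1)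
        fun q => hp1 q.1.1.1) ?_
    have m1 : Poly (fun q : (((α × ℕ) × ℕ) × ℕ) × List Bool => q.1.1.1.1) :=
      Poly.fst (Poly.fst (Poly.fst (Poly.fst Poly.id)))
    have m2 : Poly (fun q : (((α × ℕ) × ℕ) × ℕ) × List Bool => q.1.2) :=
      Poly.snd (Poly.fst Poly.id)
    have m3 : Poly (fun q : (((α × ℕ) × ℕ) × ℕ) × List Bool => q.2) := Poly.snd Poly.id
    exact p_hitB (hS.comp m1) (hwl.comp m1)
      (UPoly.of_le (Poly.min m2 ((ht.comp m1).toPoly)) (ht.comp m1)
        fun p => min_le_right _ _) m3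

theorem check_B (V : Bool → Alg) (p : Bool → Polynomial ℕ) :
    ∃ b, Check Bad (fun n _ => ErrN V p n) b := by
  obtain ⟨b0, hb0⟩ := loc_ErrN V p
  obtain ⟨P, hP⟩ := length_spotsB_of size_poly
  refine ⟨(b0 + p false + p true + P) + Polynomial.C 8 * Polynomial.X + Polynomial.C 8, ?_⟩
  have hle : ∀ m, m ≤
      ((b0 + p false + p true + P) + Polynomial.C 8 * Polynomial.X + Polynomial.C 8).eval m := by
    intro m
    simp only [Polynomial.eval_add, Polynomial.eval_mul, Polynomial.eval_C, Polynomial.eval_X]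
    omega
  have hle' : ∀ i m, (p i).eval m ≤
      ((b0 + p false + p true + P) + Polynomial.C 8 * Polynomial.X + Polynomial.C 8).eval m := by
    intro i m
    simp only [Polynomial.eval_add]
    cases i <;> omega
  have hwl : ∀ n, wl n ≤ ((b0 + p false + p true + P) + Polynomial.C 8 * Polynomial.X +
      Polynomial.C 8).eval (2 ^ n) := by
    intro n
    have : n ≤ 2 ^ n := Nat.lt_two_pow_self.le
    simp only [Polynomial.eval_add, Polynomial.eval_mul, Polynomial.eval_C, Polynomial.eval_X, wl]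
    omega
  refine ⟨hle, fun n j => (hb0 n).monoE fun x hx => ?_, fun n j hj => (loc_Bad n j).monoE
    fun x hx => ?_, pErr_N V p _ hle hle', pBad_B _ hwl⟩
  · simp only [Set.mem_ofPred_eq, Polynomial.eval_add] at hx ⊢
    omega
  · have h1 := hP n j hj x hx
    have h2 : P.eval n ≤ P.eval (2 ^ n) := eval_mono _ Nat.lt_two_pow_self.le
    simp only [Set.mem_ofPred_eq, Polynomial.eval_add]
    omega

end Pool.Agent.H583R2.NC
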