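import Pool.Agent.H583R2.NC.NumP
import Pool.Agent.H628R3.RO.D1

/-!
# Hidden blocks: the instances
-/

namespace Pool.Agent.H583R2.NC

open MeasureTheory Pool.Agent.NPC Pool.Agent.H628R3.RO

namespace Inst

theorem mem_slot {n s b i : ℕ} {κ : Cand} : κ ∈ slot n s b i ↔
    (b * KK s + i) * qq s ≤ κ.1 ∧ κ.1 < (b * KK s + i + 1) * qq s ∧ κ.2.length = wl n := by
  unfold slot
  rw [mem_cands, Finset.mem_Ico, and_assoc]

theorem slot_eq_of_mem {n s b i i' : ℕ} {κ : Cand} (h : κ ∈ slot n s b i)
    (h' : κ ∈ slot n s b i') : i = i' := by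
  rw [mem_slot] at h h'
  have h1 := Nat.lt_of_mul_lt_mul_right (h.1.trans_lt h'.2.1)
  have h2 := Nat.lt_of_mul_lt_mul_right (h'.1.trans_lt h.2.1)
  omega

theorem slot_subset {n s b i : ℕ} (hb : b < BB s) (hi : i < KK s) :
    slot n s b i ⊆ blk n s := by
  intro κ hκ
  rw [mem_slot] at hκ
  unfold blk
  rw [mem_cands, Finset.mem_range]
  refine ⟨hκ.2.1.trans_le (Nat.mul_le_mul_right _ ?_), hκ.2.2⟩
  have h1 : (b + 1) * KK s ≤ BB s * KK s := Nat.mul_le_mul_right _ hb
  rw [add_mul, one_mul] at h1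
  omega

theorem pos_mem_spotsB {n s : ℕ} {κ : Cand} (h : κ ∈ blk n s) {l : ℕ} (hl : l < wl n) :
    pos κ.1 l κ.2 ∈ spotsB n s := mem_allSpots.2 ⟨κ, h, l, hl, rfl⟩

theorem sz_unit_replicate (n : ℕ) : sz (List.replicate n ()) = 2 * n + 1 := by
  induction n with
  | zero => simp
  | succ n ih =>
    rw [List.replicate_succ, sz_list_cons, ih, sz_unit]
    ring

theorem cd_mk (κ : Cand) : cd (List.replicate κ.1 (), κ.2) = κ := by
  unfold cd
  rw [List.length_replicate]

theorem mem_pickHit {n s b i : ℕ} {A : Oracle} {x : List Unit × List Bool}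
    (h : pickHit n s b i A = some x) : cd x ∈ slot n s b i ∧ Hit (wl n) (cd x) A := by
  classical
  unfold pickHit at h
  rw [Option.map_eq_some_iff] at h
  obtain ⟨κ, hκ, rfl⟩ := h
  have h1 := List.mem_of_mem_head? (Option.mem_def.2 hκ)
  rw [Finset.mem_toList, Finset.mem_filter] at h1
  rw [cd_mk]
  exact h1

theorem exists_pickHit {n s b i : ℕ} {A : Oracle} (h : A ∉ Zero n s b i) :
    ∃ x, pickHit n s b i A = some x := by
  classical
  by_contra hx
  apply h
  intro κ hκ hh
  have h0 : pickHit n s b i A = none := by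
    rcases h1 : pickHit n s b i A with _ | x
    · rfl
    · exact absurd ⟨x, h1⟩ hx
  unfold pickHit at h0
  rw [Option.map_eq_none_iff, List.head?_eq_none_iff] at h0
  have h2 : κ ∈ (((slot n s b i).filter (fun κ => Hit (wl n) κ A)).toList) := by
    rw [Finset.mem_toList, Finset.mem_filter]
    exact ⟨hκ, hh⟩
  rw [h0] at h2
  exact absurd h2 List.not_mem_nil

theorem pickHit_congr {n s b i : ℕ} {A A' : Oracle}
    (h : ∀ κ ∈ slot n s b i, (Hit (wl n) κ A ↔ Hit (wl n) κ A')) :
    pickHit n s b i A = pickHit n s b i A' := by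
  classical
  unfold pickHit
  rw [Finset.filter_congr h]

theorem certs_congr {n s b j : ℕ} {A A' : Oracle}
    (h : ∀ i < KK s, i ≠ 2 * j → i ≠ 2 * j + 1 → pickHit n s b i A = pickHit n s b i A') :
    certs n s b j A = certs n s b j A' := by
  unfold certs
  apply List.filterMap_congr
  intro i hi
  rw [List.mem_filter, List.mem_range, decide_eq_true_eq] at hi
  exact h i hi.1 hi.2.1 hi.2.2

theorem inst_of_certs {n s b j : ℕ} {A A' : Oracle} (h : certs n s b j A = certs n s b j A') :
    inst n s b j A = inst n s b j A' := by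
  unfold inst instD
  rw [h]

theorem mem_certs {n s b j : ℕ} {A : Oracle} {x : List Unit × List Bool}
    (hx : x ∈ certs n s b j A) :
    ∃ i < KK s, i ≠ 2 * j ∧ i ≠ 2 * j + 1 ∧ cd x ∈ slot n s b i ∧ Hit (wl n) (cd x) A := by
  unfold certs at hx
  rw [List.mem_filterMap] at hx
  obtain ⟨i, hi, h⟩ := hx
  rw [List.mem_filter, List.mem_range, decide_eq_true_eq] at hi
  exact ⟨i, hi.1, hi.2.1, hi.2.2, mem_pickHit h⟩

theorem exists_certs {n s b j i : ℕ} {A : Oracle} (hi : i < KK s) (h1 : i ≠ 2 * j)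
    (h2 : i ≠ 2 * j + 1) (h : A ∉ Zero n s b i) : ∃ x ∈ certs n s b j A, cd x ∈ slot n s b i := by
  obtain ⟨x, hx⟩ := exists_pickHit h
  refine ⟨x, ?_, (mem_pickHit hx).1⟩
  unfold certs
  rw [List.mem_filterMap]
  refine ⟨i, ?_, hx⟩
  rw [List.mem_filter, List.mem_range, decide_eq_true_eq]
  exact ⟨hi, h1, h2⟩

theorem length_certs (n s b j : ℕ) (A : Oracle) : (certs n s b j A).length ≤ KK s := by
  unfold certs
  refine (List.length_filterMap_le _ _).trans ?_
  refine (List.length_filter_le _ _).trans ?_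
  rw [List.length_range]

end Inst

open Inst


theorem inst_length : ∃ P : Polynomial ℕ, ∀ n s b j A, s ≤ n → b < BB s → j < JJ s →
    (inst n s b j A).length ≤ P.eval n := by
  obtain ⟨P, hP⟩ := size_poly
  refine ⟨Polynomial.C 100 * (Polynomial.X + P + 1) * (Polynomial.X + P + 1), ?_⟩
  intro n s b j A hs hb hj
  have h1 : BB s * KK s * qq s + BB s + KK s + JJ s ≤ P.eval s := by
    have h0 := hP s
    generalize 2 ^ mm s = z at h0
    omega
  have h2 : P.eval s ≤ P.eval n := eval_mono P hs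
  set N := P.eval n with hN
  have hb' : b ≤ N := by omega
  have hj' : j ≤ N := by omega
  have hK : KK s ≤ N := by omega
  have hlen := length_certs n s b j A
  have hsz : ∀ x ∈ certs n s b j A, sz x ≤ 2 * N + 4 * wl n + 3 := by
    rintro x hx
    obtain ⟨i, hi, -, -, hsl, -⟩ := mem_certs hx
    have h3 := slot_subset (n := n) hb hi hsl
    have h4 : (cd x).2.length = wl n := (mem_slot.1 hsl).2.2
    have h5 : (cd x).1 < BB s * KK s * qq s := by
      unfold blk at h3
      rw [mem_cands, Finset.mem_range] at h3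
      exact h3.1
    have h6 : x = (List.replicate x.1.length (), x.2) := by
      refine Prod.ext ?_ rfl
      exact List.eq_replicate_of_mem fun _ _ => rfl
    have h7 : sz x = sz (List.replicate x.1.length ()) + sz x.2 + 1 := by
      conv_lhs => rw [h6]
      rw [sz_pair]
    have h8 := sz_listBool_le x.2
    have h9 : x.2.length = wl n := h4
    have h10 : x.1.length < BB s * KK s * qq s := h5
    rw [h7, sz_unit_replicate]
    omega
  have hc := sz_le_length_mul (certs n s b j A) _ hsz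
  have hbz := sz_nat_le b
  have hjz := sz_nat_le j
  have hbs : b.size ≤ b := Nat.size_le.2 Nat.lt_two_pow_self
  have hjs : j.size ≤ j := Nat.size_le.2 Nat.lt_two_pow_self
  have hL : (inst n s b j A).length = sz (List.replicate n ()) +
      (sz b + (sz j + sz (certs n s b j A) + 1) + 1) + 1 := by
    unfold inst instD
    rw [bits_length, sz_pair, sz_pair, sz_pair]
  rw [hL, sz_unit_replicate]
  have hc2 : sz (certs n s b j A) ≤ N * (2 * N + 4 * wl n + 3 + 1) + 1 :=
    hc.trans (by gcongr; omega)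
  have hw : wl n = 2 * n + 8 := rfl
  rw [hw] at hc2
  simp only [Polynomial.eval_add, Polynomial.eval_mul, Polynomial.eval_C, Polynomial.eval_X,
    Polynomial.eval_one, ← hN]
  nlinarith [Nat.zero_le (N * n), Nat.zero_le (N * N), Nat.zero_le (n * n), Nat.zero_le N,
    Nat.zero_le n]

theorem inst_plant {n s b j : ℕ} (hj : j < JJ s) {h : Finset Cand}
    (hh : h ⊆ slot n s b (2 * j) ∪ slot n s b (2 * j + 1)) (A : Oracle) :
    inst n s b j (plant (allSpots (wl n) h) A) = inst n s b j A := by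
  apply inst_of_certs
  apply certs_congr
  intro i hi h1 h2
  apply pickHit_congr
  intro κ hκ
  apply M2.hit_plant
  intro hκ'
  rcases Finset.mem_union.1 (hh hκ') with h3 | h3
  · exact h1 (slot_eq_of_mem hκ h3)
  · exact h2 (slot_eq_of_mem hκ h3)

theorem inst_congr {n s b j : ℕ} (hb : b < BB s) {A A' : Oracle}
    (h : ∀ x ∈ spotsB n s, A x = A' x) : inst n s b j A = inst n s b j A' := by
  apply inst_of_certs
  apply certs_congr
  intro i hi h1 h2
  apply pickHit_congr
  intro κ hκ
  unfold Hit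
  refine forall₂_congr fun l hl => ?_
  rw [h _ (pos_mem_spotsB (slot_subset hb hi hκ) hl)]

theorem inst_cert {n s b j : ℕ} (hb : b < BB s) (hj : j < JJ s) {A : Oracle}
    (hA : A ∈ Others n s b j) : Cert A s (instD n s b j A) := by
  have hlen : (List.replicate n ()).length = n := List.length_replicate
  refine ⟨⟨hb, hj, ?_, ?_⟩, ?_⟩
  · intro κ hκ
    obtain ⟨i, -, -, -, h1, -⟩ := mem_certs hκ
    show κ.2.length = wl (List.replicate n ()).length
    rw [hlen]
    exact (mem_slot.1 h1).2.2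
  · intro i hi h1 h2
    obtain ⟨x, hx, hx'⟩ := exists_certs hi h1 h2 (hA i hi h1 h2)
    have h3 := mem_slot.1 hx'
    exact ⟨x, hx, h3.1, h3.2.1⟩
  · intro κ hκ
    obtain ⟨i, -, -, -, -, h1⟩ := mem_certs hκ
    show Hit (wl (List.replicate n ()).length) (cd κ) A
    rw [hlen]
    exact h1

/-- correct certificates for pair `j` mean that all other slots are not zero -/
theorem others_of_cert {A : Oracle} {s : ℕ} {D : Data} (h : Cert A s D) :
    A ∈ Others D.1.length s D.2.1 D.2.2.1 := by
  intro i hi h1 h2 hz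
  obtain ⟨⟨-, -, h3, h4⟩, h5⟩ := h
  obtain ⟨κ, hκ, h6, h7⟩ := h4 i hi h1 h2
  refine hz (cd κ) ?_ (h5 κ hκ)
  rw [mem_slot]
  exact ⟨h6, h7, h3 κ hκ⟩

end Pool.Agent.H583R2.NC
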