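import Pool.Agent.H583R2.NC.Defs

/-! Polynomial bounds for the parameters. -/

namespace Pool.Agent.H583R2.NC

/-! ### real estimates -/

theorem NumP_exp {x : ℝ} (h0 : 0 ≤ x) (h1 : x ≤ 1 / 2) : Real.exp (-(2 * x)) ≤ 1 - x := by
  have hx : 0 < 1 - x := by linarith
  rw [← Real.le_log_iff_exp_le hx]
  have h2 := Real.one_sub_inv_le_log_of_pos hx
  refine le_trans ?_ h2
  have h3 : (1 - x)⁻¹ ≤ 1 + 2 * x := by
    rw [inv_le_iff_one_le_mul₀ hx]
    nlinarith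
  linarith

theorem NumP_exp2 : Real.exp 2 ≤ 8 := by
  have h := Real.exp_one_lt_d9
  have h2 : Real.exp 2 = Real.exp 1 * Real.exp 1 := by rw [← Real.exp_add]; norm_num
  rw [h2]
  have h0 := Real.exp_pos 1
  nlinarith

/-- the base -/
noncomputable def NumP_a (s : ℕ) : ℝ := (uu s : ℝ) / (vv s : ℝ)

theorem NumP_pos (s : ℕ) : 2 ≤ 2 ^ mm s := by
  unfold mm
  calc 2 = 2 ^ 1 := rfl
    _ ≤ _ := Nat.pow_le_pow_right (by norm_num) (by omega)

theorem NumP_vpos (s : ℕ) : 0 < vv s := by unfold vv; positivity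

theorem NumP_upos (s : ℕ) : 0 < uu s := by
  have := NumP_pos s
  unfold uu
  exact Nat.pow_pos (by omega)

theorem NumP_uv (s : ℕ) : uu s ≤ vv s := Nat.pow_le_pow_left (Nat.sub_le _ _) _

theorem NumP_a_eq (s : ℕ) : NumP_a s = (1 - 1 / (2 ^ mm s : ℝ)) ^ (qq s * 2 ^ mm s) := by
  have := NumP_pos s
  unfold NumP_a uu vv
  have h1 : ((2 ^ mm s - 1 : ℕ) : ℝ) = 2 ^ mm s - 1 := by
    rw [Nat.cast_sub (by omega)]
    push_cast
    rfl
  rw [Nat.cast_pow, Nat.cast_pow, h1, ← div_pow]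
  congr 1
  push_cast
  field_simp

theorem NumP_inv_le (s : ℕ) : 1 / (2 ^ mm s : ℝ) ≤ 1 / 2 := by
  have h : ((2 : ℕ) : ℝ) ≤ ((2 ^ mm s : ℕ) : ℝ) := by exact_mod_cast NumP_pos s
  push_cast at h
  exact one_div_le_one_div_of_le (by norm_num) h

theorem NumP_a_ge (s : ℕ) : (1 / 8 : ℝ) ^ qq s ≤ NumP_a s := by
  rw [NumP_a_eq]
  have h1 := NumP_exp (x := 1 / (2 ^ mm s : ℝ)) (by positivity) (NumP_inv_le s)
  have h2 : (1 / 8 : ℝ) ≤ Real.exp (-2) := by
    rw [Real.exp_neg, one_div]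
    exact inv_anti₀ (Real.exp_pos _) NumP_exp2
  calc (1 / 8 : ℝ) ^ qq s ≤ Real.exp (-2) ^ qq s := pow_le_pow_left₀ (by norm_num) h2 _
    _ = Real.exp (-(2 * (1 / (2 ^ mm s : ℝ)))) ^ (qq s * 2 ^ mm s) := by
        rw [← Real.exp_nat_mul, ← Real.exp_nat_mul]
        congr 1
        push_cast
        field_simp
    _ ≤ _ := pow_le_pow_left₀ (Real.exp_pos _).le h1 _

theorem NumP_a_le {s : ℕ} (hs : 1 ≤ s) : NumP_a s ≤ 1 / 2 := by
  rw [NumP_a_eq]
  have hr : 0 < rr s := Nat.size_pos.2 hs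
  have hq : 1 ≤ qq s := Nat.size_pos.2 hr
  have h0 : 0 ≤ 1 - 1 / (2 ^ mm s : ℝ) := by
    have := NumP_inv_le s
    linarith
  have h1 : 1 - 1 / (2 ^ mm s : ℝ) ≤ Real.exp (-(1 / (2 ^ mm s : ℝ))) :=
    Real.one_sub_le_exp_neg _
  calc (1 - 1 / (2 ^ mm s : ℝ)) ^ (qq s * 2 ^ mm s)
      ≤ Real.exp (-(1 / (2 ^ mm s : ℝ))) ^ (qq s * 2 ^ mm s) := pow_le_pow_left₀ h0 h1 _
    _ = Real.exp (-(qq s : ℝ)) := by
        rw [← Real.exp_nat_mul]
        congr 1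
        push_cast
        field_simp
    _ ≤ Real.exp (-1) := by
        apply Real.exp_le_exp.2
        have : (1 : ℝ) ≤ (qq s : ℝ) := by exact_mod_cast hq
        linarith
    _ ≤ 1 / 2 := by
        rw [Real.exp_neg, one_div]
        apply inv_anti₀ (by norm_num)
        have := Real.add_one_le_exp (1 : ℝ)
        linarith

theorem NumP_a_pos (s : ℕ) : 0 < NumP_a s := by
  unfold NumP_a
  have h1 : (0 : ℝ) < (uu s : ℝ) := by exact_mod_cast NumP_upos s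
  have h2 : (0 : ℝ) < (vv s : ℝ) := by exact_mod_cast NumP_vpos s
  exact div_pos h1 h2

theorem NumP_JJ (s : ℕ) : (JJ s : ℝ) ≤ 4 * rr s / NumP_a s + 1 := by
  unfold JJ
  push_cast
  have h := Nat.cast_div_le (α := ℝ) (m := 4 * rr s * vv s) (n := uu s)
  push_cast at h
  have e : 4 * (rr s : ℝ) / NumP_a s = 4 * (rr s : ℝ) * vv s / uu s := by
    unfold NumP_a
    rw [div_div_eq_mul_div]
  rw [e]
  linarith

theorem NumP_JJ_nat (s : ℕ) : JJ s ≤ 4 * rr s * 8 ^ qq s + 1 := by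
  have h1 := NumP_JJ s
  have h2 := NumP_a_ge s
  have h3 := NumP_a_pos s
  have h4 : 4 * (rr s : ℝ) / NumP_a s ≤ 4 * rr s * 8 ^ qq s := by
    rw [div_le_iff₀ h3]
    have h5 : (1 : ℝ) ≤ 8 ^ qq s * NumP_a s := by
      calc (1 : ℝ) = 8 ^ qq s * (1 / 8) ^ qq s := by rw [← mul_pow]; norm_num
        _ ≤ _ := mul_le_mul_of_nonneg_left h2 (by positivity)
    have h6 : (0 : ℝ) ≤ 4 * rr s := by positivity
    nlinarith
  have h5 : (JJ s : ℝ) ≤ ((4 * rr s * 8 ^ qq s + 1 : ℕ) : ℝ) := by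
    push_cast
    linarith
  exact_mod_cast h5

theorem NumP_vK_aux (u v K J r : ℕ) (hK : K = 2 * J) (huv : u ≤ v) (hv : (0 : ℝ) < v) (a : ℝ)
    (ha : a = u / v) (ha1 : a ≤ 1 / 2) (ha0 : 0 < a) (hJ : (J : ℝ) ≤ 4 * r / a + 1) :
    v ^ K ≤ 4 ^ (16 * r + 2) * (v - u) ^ K := by
  have h1 : ((v - u : ℕ) : ℝ) = v * (1 - a) := by
    rw [Nat.cast_sub huv, ha]
    field_simp
  have h2 := NumP_exp ha0.le ha1
  have h3 : a * K ≤ 8 * r + 1 := by
    rw [hK]
    push_cast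
    have h4 : a * J ≤ 4 * r + a := by
      calc a * J ≤ a * (4 * r / a + 1) := mul_le_mul_of_nonneg_left hJ ha0.le
        _ = 4 * r + a := by field_simp
    linarith
  have h4 : Real.exp (-(16 * r + 2)) ≤ (1 - a) ^ K := by
    calc Real.exp (-(16 * (r : ℝ) + 2)) ≤ Real.exp (-(2 * (a * K))) :=
          Real.exp_le_exp.2 (by linarith)
      _ = Real.exp (-(2 * a)) ^ K := by
          rw [← Real.exp_nat_mul]
          congr 1
          ring
      _ ≤ _ := pow_le_pow_left₀ (Real.exp_pos _).le h2 _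
  have h5 : Real.exp (16 * r + 2) ≤ 4 ^ (16 * r + 2) := by
    have h6 : Real.exp (16 * r + 2) = Real.exp 1 ^ (16 * r + 2) := by
      rw [← Real.exp_nat_mul]
      congr 1
      push_cast
      ring
    rw [h6]
    apply pow_le_pow_left₀ (Real.exp_pos _).le
    have := Real.exp_one_lt_d9
    linarith
  have h6 : (1 : ℝ) ≤ 4 ^ (16 * r + 2) * (1 - a) ^ K := by
    calc (1 : ℝ) = Real.exp (16 * r + 2) * Real.exp (-(16 * r + 2)) := by
          rw [← Real.exp_add, add_neg_cancel, Real.exp_zero]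
      _ ≤ _ := mul_le_mul h5 h4 (Real.exp_pos _).le (by positivity)
  have h7 : ((v ^ K : ℕ) : ℝ) ≤ ((4 ^ (16 * r + 2) * (v - u) ^ K : ℕ) : ℝ) := by
    rw [Nat.cast_pow, Nat.cast_mul, Nat.cast_pow, Nat.cast_pow, h1, mul_pow]
    push_cast
    calc (v : ℝ) ^ K = v ^ K * 1 := by ring
      _ ≤ v ^ K * (4 ^ (16 * r + 2) * (1 - a) ^ K) :=
          mul_le_mul_of_nonneg_left h6 (by positivity)
      _ = _ := by ring
  exact_mod_cast h7

theorem NumP_vK {s : ℕ} (hs : 1 ≤ s) :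
    vv s ^ KK s ≤ 4 ^ (16 * rr s + 2) * (vv s - uu s) ^ KK s :=
  NumP_vK_aux (uu s) (vv s) (KK s) (JJ s) (rr s) rfl (NumP_uv s)
    (by exact_mod_cast NumP_vpos s) (NumP_a s) rfl (NumP_a_le hs) (NumP_a_pos s) (NumP_JJ s)

theorem NumP_BB {s : ℕ} (hs : 1 ≤ s) : BB s ≤ 4 ^ (16 * rr s + 2) + 1 := by
  unfold BB
  apply Nat.succ_le_succ
  apply Nat.div_le_of_le_mul
  refine (NumP_vK hs).trans ?_
  have hr : 0 < rr s := Nat.size_pos.2 hs
  have h1 : 1 ≤ 2 ^ (rr s + 6) * rr s ^ 2 := Nat.succ_le_of_lt (by positivity)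
  calc 4 ^ (16 * rr s + 2) * (vv s - uu s) ^ KK s
      = 1 * ((vv s - uu s) ^ KK s * 4 ^ (16 * rr s + 2)) := by ring
    _ ≤ (2 ^ (rr s + 6) * rr s ^ 2) * ((vv s - uu s) ^ KK s * 4 ^ (16 * rr s + 2)) :=
        Nat.mul_le_mul_right _ h1
    _ = _ := by ring

/-! ### sizes -/

theorem NumP_size_le (s : ℕ) : s.size ≤ s := Nat.size_le.2 Nat.lt_two_pow_self

theorem NumP_pow_size {s : ℕ} (hs : 1 ≤ s) : 2 ^ s.size ≤ 2 * s := by
  have h1 : 0 < s.size := Nat.size_pos.2 hs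
  obtain ⟨k, hk⟩ : ∃ k, s.size = k + 1 := ⟨s.size - 1, by omega⟩
  have h2 : 2 ^ k ≤ s := by
    by_contra h
    push Not at h
    have := Nat.size_le.2 h
    omega
  rw [hk, pow_succ]
  omega

theorem size_poly : ∃ P : Polynomial ℕ, ∀ s, BB s * KK s * qq s + BB s + KK s + JJ s + qq s
    + 2 ^ mm s + qq s * 2 ^ mm s ≤ P.eval s := by
  refine ⟨(Polynomial.C (2 ^ 36) * Polynomial.X ^ 32 + 1) * (Polynomial.C 64 *
    Polynomial.X ^ 4 + 2) * Polynomial.X + (Polynomial.C (2 ^ 36) * Polynomial.X ^ 32 + 1) +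
    (Polynomial.C 64 * Polynomial.X ^ 4 + 2) + (Polynomial.C 32 * Polynomial.X ^ 4 + 1) +
    Polynomial.X + Polynomial.C 256 * Polynomial.X ^ 2 +
    Polynomial.X * (Polynomial.C 256 * Polynomial.X ^ 2) + Polynomial.C 100, ?_⟩
  intro s
  rcases Nat.eq_zero_or_pos s with rfl | hs
  · have hr : rr 0 = 0 := by unfold rr; exact Nat.size_zero
    have hq : qq 0 = 0 := by unfold qq; rw [hr]; exact Nat.size_zero
    have hm : mm 0 = 6 := by unfold mm; rw [hq]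
    have hJ : JJ 0 = 1 := by unfold JJ; rw [hr]; simp
    have hK : KK 0 = 2 := by unfold KK; rw [hJ]
    have hB : BB 0 = 1 := by unfold BB; rw [hr]; simp
    rw [hq, hm, hJ, hK, hB]
    simp
  · have hrs : rr s ≤ s := NumP_size_le s
    have hr : 0 < rr s := Nat.size_pos.2 hs
    have hqr : qq s ≤ rr s := NumP_size_le _
    have hqs : qq s ≤ s := hqr.trans hrs
    have h2r : 2 ^ rr s ≤ 2 * s := NumP_pow_size hs
    have h2q : 2 ^ qq s ≤ 2 * rr s := NumP_pow_size hr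
    have h2q' : 2 ^ qq s ≤ 2 * s := h2q.trans (by omega)
    have hmm : 2 ^ mm s ≤ 256 * s ^ 2 := by
      unfold mm
      calc 2 ^ (2 * qq s + 6) = 64 * (2 ^ qq s) ^ 2 := by rw [pow_add, mul_comm 2, pow_mul]; ring
        _ ≤ 64 * (2 * s) ^ 2 := Nat.mul_le_mul_left _ (Nat.pow_le_pow_left h2q' 2)
        _ = _ := by ring
    have hJ : JJ s ≤ 32 * s ^ 4 + 1 := by
      refine (NumP_JJ_nat s).trans ?_
      apply Nat.succ_le_succ
      calc 4 * rr s * 8 ^ qq s = 4 * rr s * (2 ^ qq s) ^ 3 := by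
            rw [← pow_mul, mul_comm (qq s) 3, pow_mul]
            norm_num
        _ ≤ 4 * s * (2 * s) ^ 3 :=
            Nat.mul_le_mul (Nat.mul_le_mul_left _ hrs) (Nat.pow_le_pow_left h2q' 3)
        _ = _ := by ring
    have hK : KK s ≤ 64 * s ^ 4 + 2 := by unfold KK; omega
    have hB : BB s ≤ 2 ^ 36 * s ^ 32 + 1 := by
      refine (NumP_BB hs).trans ?_
      apply Nat.succ_le_succ
      calc 4 ^ (16 * rr s + 2) = 16 * (2 ^ rr s) ^ 32 := by
            rw [← pow_mul, show (4 : ℕ) = 2 ^ 2 by norm_num, ← pow_mul,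
              show 2 * (16 * rr s + 2) = rr s * 32 + 4 by ring, pow_add]
            ring
        _ ≤ 16 * (2 * s) ^ 32 := Nat.mul_le_mul_left _ (Nat.pow_le_pow_left h2r 32)
        _ = _ := by ring
    have e : Polynomial.eval s ((Polynomial.C (2 ^ 36) * Polynomial.X ^ 32 + 1) * (Polynomial.C 64 *
      Polynomial.X ^ 4 + 2) * Polynomial.X + (Polynomial.C (2 ^ 36) * Polynomial.X ^ 32 + 1) +
      (Polynomial.C 64 * Polynomial.X ^ 4 + 2) + (Polynomial.C 32 * Polynomial.X ^ 4 + 1) +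
      Polynomial.X + Polynomial.C 256 * Polynomial.X ^ 2 +
      Polynomial.X * (Polynomial.C 256 * Polynomial.X ^ 2) + Polynomial.C 100 : Polynomial ℕ) =
      (2 ^ 36 * s ^ 32 + 1) * (64 * s ^ 4 + 2) * s + (2 ^ 36 * s ^ 32 + 1) + (64 * s ^ 4 + 2) +
      (32 * s ^ 4 + 1) + s + 256 * s ^ 2 + s * (256 * s ^ 2) + 100 := by
      have h2 : Polynomial.eval s (2 : Polynomial ℕ) = 2 := by
        rw [show (2 : Polynomial ℕ) = Polynomial.C 2 by rfl, Polynomial.eval_C]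
      simp only [Polynomial.eval_add, Polynomial.eval_mul, Polynomial.eval_C, Polynomial.eval_pow,
        Polynomial.eval_X, Polynomial.eval_one, h2]
    rw [e]
    have h1 : BB s * KK s * qq s ≤ (2 ^ 36 * s ^ 32 + 1) * (64 * s ^ 4 + 2) * s :=
      Nat.mul_le_mul (Nat.mul_le_mul hB hK) hqs
    have h2 : qq s * 2 ^ mm s ≤ s * (256 * s ^ 2) := Nat.mul_le_mul hqs hmm
    generalize BB s * KK s * qq s = x1 at *
    generalize qq s * 2 ^ mm s = x2 at *
    generalize (2 ^ 36 * s ^ 32 + 1) * (64 * s ^ 4 + 2) * s = y1 at *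
    generalize s * (256 * s ^ 2) = y2 at *
    linarith

end Pool.Agent.H583R2.NC
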