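import Pool.Agent.H583R2.NC.Loc
import Pool.Agent.H583R2.NC.NumP

/-!
# Locality of the events, the length bound (task LOC, helper287)
-/

set_option autoImplicit false

namespace Pool.Agent.H583R2.NC

theorem length_spotsB : ∃ P : Polynomial ℕ, ∀ n s, s ≤ n → ∀ x ∈ spotsB n s,
    x.length ≤ P.eval n := length_spotsB_of size_poly

end Pool.Agent.H583R2.NC
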