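import Pool.Agent.H583R2.NC.KeyB
import Pool.Agent.H583R2.NC.Inst
import Pool.Agent.H583R2.NC.Loc2
import Pool.Agent.H628R3.RO.D4
import Pool.Agent.H628R3.RO.K4

/-!
# The key inequality for reductions (task KEYR)
-/

namespace Pool.Agent.H583R2.NC

open MeasureTheory Pool.Agent.NPC Pool.Agent.H628R3.RO

theorem loc_GoodR (V : Bool → Alg) (p : Bool → Polynomial ℕ) (r : Alg) : ∃ b : Polynomial ℕ,
    ∀ n s, s ≤ n → Loc {x | x.length ≤ b.eval (2 ^ n)} (GoodR V p r n s) := by
  choose bw hbw using fun i => wit_congr (V i) (p i)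
  obtain ⟨qr, hqr⟩ := r.out_congr
  obtain ⟨br, hbr⟩ := r.out_length
  obtain ⟨P, hP⟩ := inst_length
  obtain ⟨S, hS⟩ := length_spotsB
  refine ⟨S + qr.comp P + (bw false).comp (br.comp P) + (bw true).comp (br.comp P),
    fun n s hs => loc_of_imp fun A A' h => ?_⟩
  have hn2 : n ≤ 2 ^ n := Nat.lt_two_pow_self.le
  have h' : ∀ z : List Bool, z.length ≤ S.eval (2 ^ n) + qr.eval (P.eval (2 ^ n)) +
      (bw false).eval (br.eval (P.eval (2 ^ n))) + (bw true).eval (br.eval (P.eval (2 ^ n))) →
      A z = A' z := by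
    intro z hz
    apply h z
    change z.length ≤ _
    simpa only [Polynomial.eval_add, Polynomial.eval_comp] using hz
  have hspots : ∀ x ∈ spotsB n s, A x = A' x := by
    intro x hx
    apply h'
    have h1 := hS n s hs x hx
    have h2 := eval_mono S hn2
    omega
  intro hG b hb j hj hO'
  have hO : A ∈ Others n s b j := (loc_Others hb A A' hspots).mpr hO'
  have hj2 : 2 * j < KK s := by unfold KK; omega
  have hj3 : 2 * j + 1 < KK s := by unfold KK; omega
  obtain ⟨y, hy, hy0, hy1⟩ := hG b hb j hj hO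
  have hinst : inst n s b j A = inst n s b j A' := inst_congr hb hspots
  have hlen : (inst n s b j A).length ≤ P.eval (2 ^ n) :=
    (hP n s b j A hs hb hj).trans (eval_mono P hn2)
  have hylen : y.length ≤ br.eval (P.eval (2 ^ n)) :=
    (hbr A _ y hy).trans (eval_mono br hlen)
  refine ⟨y, ?_, fun h0 => ?_, fun h1 => ?_⟩
  · rw [← hinst, ← hy]
    symm
    refine hqr A A' _ (P.eval (2 ^ n)) hlen fun z hz => h' z ?_
    omega
  · have h0' : A ∉ Zero n s b (2 * j) := fun hA => h0 ((loc_Zero hb hj2 A A' hspots).mp hA)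
    refine hbw false A A' y _ hylen (fun z hz => h' z ?_) (hy0 h0')
    omega
  · have h1' : A ∉ Zero n s b (2 * j + 1) := fun hA => h1 ((loc_Zero hb hj3 A A' hspots).mp hA)
    refine hbw true A A' y _ hylen (fun z hz => h' z ?_) (hy1 h1')
    omega

theorem key_R (V : Bool → Alg) (p : Bool → Polynomial ℕ) (r : Alg) : ∃ n0, ∀ n ≥ n0, ∀ s,
    4 ≤ s → s ≤ n → ∀ t < n, ∀ η : Set Oracle, Loc {x | x.length ≤ t} η →
    ll s * (7 / 8 * prob η - prob (η ∩ (Bad n s ∩ ErrN V p n)) / prob (Bad n s)) ≤
      prob (η ∩ (GoodR V p r n s)ᶜ) := by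
  classical
  obtain ⟨bE, hbE⟩ := loc_ErrN V p
  obtain ⟨bG, hbG⟩ := loc_GoodR V p r
  obtain ⟨bl, hbl⟩ := r.out_length
  obtain ⟨qr, hqr⟩ := r.out_local
  obtain ⟨P, hP⟩ := inst_length
  choose qV hqV using fun i => (V i).out_local
  obtain ⟨n1, hn1⟩ := poly_le_two_pow (bl.comp P)
  obtain ⟨n2, hn2⟩ := mul_poly_le_two_pow
    (r.p.comp P + ∑ i : Bool, (V i).p.comp
      (Polynomial.C 2 * bl.comp P + 1 + (p i).comp (bl.comp P))) 128
  refine ⟨max n1 n2, fun n hn s hs4 hsn t ht η hη => ?_⟩
  have hn1' := hn1 n (le_trans (le_max_left _ _) hn)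
  have hn2' := hn2 n (le_trans (le_max_right _ _) hn)
  rw [Polynomial.eval_comp] at hn1'
  set t0 : ℕ := (r.p.comp P + ∑ i : Bool, (V i).p.comp
      (Polynomial.C 2 * bl.comp P + 1 + (p i).comp (bl.comp P))).eval n with ht0
  have ht0r : r.p.eval (P.eval n) ≤ t0 := by
    rw [ht0, Polynomial.eval_add, Polynomial.eval_comp]
    exact Nat.le_add_right _ _
  have ht0V : ∀ i, (V i).p.eval (2 * bl.eval (P.eval n) + 1 + (p i).eval (bl.eval (P.eval n))) ≤
      t0 := by
    intro i
    rw [ht0, Polynomial.eval_add, Polynomial.eval_finsetSum]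
    refine le_trans ?_ (Nat.le_add_left _ _)
    have h1 := Finset.single_le_sum (f := fun i : Bool =>
      ((V i).p.comp (Polynomial.C 2 * bl.comp P + 1 + (p i).comp (bl.comp P))).eval n)
      (fun _ _ => Nat.zero_le _) (Finset.mem_univ i)
    refine le_trans (le_of_eq ?_) h1
    simp only [Polynomial.eval_comp, Polynomial.eval_add, Polynomial.eval_mul, Polynomial.eval_C,
      Polynomial.eval_one]
  refine key_blocks (k := bE.eval (2 ^ n) + bG.eval (2 ^ n)) (t := t0) hs4 hsn ht hη
    (Loc.mono (fun x hx => by simp only [Set.mem_ofPred_eq] at hx ⊢; omega) (hbG n s hsn))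
    (Loc.mono (fun x hx => by simp only [Set.mem_ofPred_eq] at hx ⊢; omega) (hbE n)) hn2' ?_
  intro b hb j hj B hBO _ _
  set m := wl n with hm
  set W := slot n s b (2 * j) ∪ slot n s b (2 * j + 1) with hWdef
  have hsub : ∀ i : Bool, slot n s b (2 * j + i.toNat) ⊆ W := by
    intro i
    cases i
    · exact Finset.subset_union_left
    · exact Finset.subset_union_right
  -- the instance
  set x : List Bool := inst n s b j B with hx
  have hxlen : x.length ≤ P.eval n := hP n s b j B hsn hb hj
  have hxp : ∀ h : Finset Cand, h ⊆ W → inst n s b j (plant (allSpots m h) B) = x :=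
    fun h hh => inst_plant hj hh B
  set x0 : List Bool := (r.out B x).getD [] with hx0
  have hx0len : x0.length ≤ bl.eval (P.eval n) := by
    rw [hx0]
    cases h : r.out B x with
    | none => simp
    | some z =>
      have := (hbl B _ z h).trans (eval_mono bl hxlen)
      simpa using this
  obtain ⟨Q0, hQ0c, -, hQ0⟩ := hqr B x
  obtain ⟨T, hTc, hT⟩ := touch W m Q0
  -- the witnesses
  have hch : ∀ (i : Bool) (h : Finset Cand), ∃ y : List Bool,
      y.length ≤ (p i).eval x0.length ∧
      (Wit (V i) (p i) x0 (plant (allSpots m h) B) →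
        (V i).out (plant (allSpots m h) B) (pairBits x0 y) = some [true]) := by
    intro i h
    by_cases hw : Wit (V i) (p i) x0 (plant (allSpots m h) B)
    · obtain ⟨y, hy1, hy2⟩ := hw
      exact ⟨y, hy1, fun _ => hy2⟩
    · exact ⟨[], by simp, fun h' => absurd h' hw⟩
  choose yy hyy1 hyy2 using hch
  choose Q' hQ'c hQ'l hQ' using fun (i : Bool) (h : Finset Cand) =>
    hqV i (plant (allSpots m h) B) (pairBits x0 (yy i h))
  choose T' hT'c hT' using fun (i : Bool) (h : Finset Cand) => touch W m (Q' i h)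
  refine ⟨T, T', hTc.trans (hQ0c.trans ((eval_mono r.p hxlen).trans ht0r)), fun i h => ?_, ?_⟩
  · refine (hT'c i h).trans ((hQ'c i h).trans (le_trans ?_ (ht0V i)))
    apply eval_mono
    rw [length_pairBits]
    have h1 := hyy1 i h
    have h2 := eval_mono (p i) hx0len
    omega
  · intro h hhW hhne hdT hdT' hBiZ
    have hWit : ∀ i, Wit (V i) (p i) x0 (plant (allSpots m (h i)) B) := by
      intro i
      have hhi : h i ⊆ W := (hhW i).trans (hsub i)
      have hOi : plant (allSpots m (h i)) B ∈ Others n s b j := (plant_Others hj hhi B).mpr hBO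
      obtain ⟨y, hy, hy0, hy1⟩ := hBiZ i b hb j hj hOi
      have h1 : r.out (plant (allSpots m (h i)) B) x = r.out B x :=
        hQ0 _ fun q hq => hT (h i) hhi (hdT i) B q hq
      rw [hxp _ hhi, h1] at hy
      have hyx : y = x0 := by
        rw [hx0, hy]
        rfl
      rw [hyx] at hy0 hy1
      have hnz : plant (allSpots m (h i)) B ∉ Zero n s b (2 * j + i.toNat) := by
        obtain ⟨κ, hκ⟩ := hhne i
        intro hno
        exact hno κ (hhW i hκ) (M2.hit_plant_self hκ B)
      cases i
      · exact hy0 hnz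
      · exact hy1 hnz
    refine ⟨x0, hx0len.trans hn1', fun i => ⟨yy i (h i), hyy1 i (h i), ?_⟩⟩
    have h2 := hyy2 i (h i) (hWit i)
    rw [← h2]
    have h3 : plant (allSpots m (h false ∪ h true)) B =
        plant (allSpots m (h (!i))) (plant (allSpots m (h i)) B) := by
      cases i
      · exact plant_union m _ _ B
      · rw [Finset.union_comm]
        exact plant_union m _ _ B
    rw [h3]
    exact hQ' i (h i) _ fun q hq =>
      hT' i (h i) (h (!i)) ((hhW (!i)).trans (hsub (!i))) (hdT' i) _ q hq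

end Pool.Agent.H583R2.NC
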