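import Pool.Agent.H583R2.NC.Par
import Pool.Agent.H628R3.RO.G2

/-!
Task MEM: the language is in `NP` and in `coNP`.
-/

namespace Pool.Agent.H583R2.NC

open MeasureTheory Pool.Agent.NPC Pool.Agent.H628R3.RO Pool.Agent.H628R3.RO.G2

namespace Mem

/-! ### slots -/

theorem mem_slot {n s b i : ℕ} {κ : Cand} : κ ∈ slot n s b i ↔
    (b * KK s + i) * qq s ≤ κ.1 ∧ κ.1 < (b * KK s + i + 1) * qq s ∧ κ.2.length = wl n := by
  unfold slot
  rw [mem_cands, Finset.mem_Ico, and_assoc]

theorem notMem_zero {A : Oracle} {n s b i : ℕ} : A ∉ Zero n s b i ↔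
    ∃ (c : ℕ) (w : List Bool), (b * KK s + i) * qq s ≤ c ∧ c < (b * KK s + i + 1) * qq s ∧
      w.length = wl n ∧ Hit (wl n) (c, w) A := by
  unfold Zero NoHit
  rw [Set.mem_ofPred_eq]
  push Not
  constructor
  · rintro ⟨κ, h1, h2⟩
    rw [mem_slot] at h1
    exact ⟨κ.1, κ.2, h1.1, h1.2.1, h1.2.2, h2⟩
  · rintro ⟨c, w, h1, h2, h3, h4⟩
    exact ⟨(c, w), mem_slot.2 ⟨h1, h2, h3⟩, h4⟩

theorem others {A : Oracle} {s : ℕ} {D : Data} (h : Cert A s D) :
    A ∈ Others D.1.length s D.2.1 D.2.2.1 := by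
  intro i hi h1 h2
  obtain ⟨κ, hκ, h3, h4⟩ := h.1.2.2.2 i hi h1 h2
  rw [notMem_zero]
  exact ⟨κ.1.length, κ.2, h3, h4, h.1.2.2.1 κ hκ, h.2 κ hκ⟩

/-! ### decoding -/

/-- decoding of an instance, with its level -/
def dcd (f : ℕ → Option ℕ) (x : List Bool) : Option (Data × ℕ) :=
  (unbits Data x).bind fun D => (f D.1.length).map fun s => (D, s)

theorem dcd_eq {f : ℕ → Option ℕ} {x : List Bool} {D : Data} {s : ℕ} :
    dcd f x = some (D, s) ↔ bits D = x ∧ f D.1.length = some s := by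
  unfold dcd
  rw [Option.bind_eq_some_iff]
  constructor
  · rintro ⟨D', h1, h2⟩
    rw [Option.map_eq_some_iff] at h2
    obtain ⟨s', h3, h4⟩ := h2
    obtain ⟨rfl, rfl⟩ := Prod.mk.inj h4
    exact ⟨bits_of_unbits h1, h3⟩
  · rintro ⟨rfl, h2⟩
    exact ⟨D, unbits_bits D, by rw [h2]; rfl⟩

theorem poly_dcd {f : ℕ → Option ℕ} (hf : Poly (fun x : List Unit => f x.length)) :
    Poly (dcd f) := by
  refine Poly.optBind (f := fun _ (D : Data) => (f D.1.length).map fun s => (D, s))
    poly_unbits ?_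
  refine Poly.optMap (f := fun (p : List Bool × Data) s => (p.2, s))
    (hf.comp (Poly.fst (Poly.snd Poly.id))) ?_
  exact Poly.pair (Poly.snd (Poly.fst Poly.id)) (Poly.snd Poly.id)

/-- the level, cut off at the stage -/
def lev (p : Data × ℕ) : ℕ := min p.2 p.1.1.length

section

variable {α : Type} [TEnc α]

theorem u_lev {p : α → Data × ℕ} (hp : Poly p) : UPoly (fun a => lev (p a)) :=
  UPoly.of_le (Poly.min (Poly.snd hp) (Poly.length (Poly.fst (Poly.fst hp))))
    (UPoly.length (Poly.fst (Poly.fst hp))) fun _ => min_le_right _ _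

theorem u_wl {l : α → List Unit} (hl : Poly l) : UPoly (fun a => wl (l a).length) :=
  (UPoly.add (UPoly.mul (UPoly.const 2) (UPoly.length hl)) (UPoly.const 8)).congr fun _ => rfl

/-- the range condition -/
def rngB (p : Data × ℕ) (i c : ℕ) : Bool :=
  decide ((p.1.2.1 * KK (lev p) + i) * qq (lev p) ≤ c) &&
    decide (c < (p.1.2.1 * KK (lev p) + i + 1) * qq (lev p))

theorem poly_rngB {p : α → Data × ℕ} {i c : α → ℕ} (hp : Poly p) (hi : Poly i) (hc : Poly c) :
    Poly (fun a => rngB (p a) (i a) (c a)) := by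
  have hK := (u_KK (u_lev hp)).toPoly
  have hq := (u_qq (u_lev hp)).toPoly
  have hb : Poly (fun a => (p a).1.2.1) := Poly.fst (Poly.snd (Poly.fst hp))
  have h1 := Poly.add (Poly.mul hb hK) hi
  exact Poly.and (Poly.decide_le (Poly.mul h1 hq) hc)
    (Poly.decide_lt hc (Poly.mul (Poly.succ h1) hq))

/-- the conditions on the data -/
def synB (p : Data × ℕ) : Bool :=
  (decide (p.1.2.1 < BB (lev p)) && decide (p.1.2.2.1 < JJ (lev p))) &&
    (p.1.2.2.2.all (fun κ => decide (κ.2.length = wl p.1.1.length)) &&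
      (List.range (KK (lev p))).all (fun i => (decide (i = 2 * p.1.2.2.1) ||
        decide (i = 2 * p.1.2.2.1 + 1)) || p.1.2.2.2.any (fun κ => rngB p i κ.1.length)))

theorem synB_iff (p : Data × ℕ) : synB p = true ↔ Syn (lev p) p.1 := by
  unfold synB Syn rngB
  simp only [Bool.and_eq_true, decide_eq_true_eq, List.all_eq_true, List.mem_range,
    Bool.or_eq_true, List.any_eq_true]
  constructor
  · rintro ⟨⟨h1, h2⟩, h3, h4⟩
    refine ⟨h1, h2, h3, fun i hi h5 h6 => ?_⟩
    rcases h4 i hi with h | h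
    · omega
    · exact h
  · rintro ⟨h1, h2, h3, h4⟩
    refine ⟨⟨h1, h2⟩, h3, fun i hi => ?_⟩
    by_cases h5 : i = 2 * p.1.2.2.1
    · exact Or.inl (Or.inl h5)
    · by_cases h6 : i = 2 * p.1.2.2.1 + 1
      · exact Or.inl (Or.inr h6)
      · exact Or.inr (h4 i hi h5 h6)

/-- the slot has a certificate -/
def anyB (p : Data × ℕ) (i : ℕ) : Bool := p.1.2.2.2.any (fun κ => rngB p i κ.1.length)

theorem poly_anyB {p : α → Data × ℕ} {i : α → ℕ} (hp : Poly p) (hi : Poly i) :
    Poly (fun a => anyB (p a) (i a)) := by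
  have hl : Poly (fun a => (p a).1.2.2.2) := Poly.snd (Poly.snd (Poly.snd (Poly.fst hp)))
  have h1 : Poly (fun q : α × (List Unit × List Bool) => rngB (p q.1) (i q.1) q.2.1.length) :=
    poly_rngB (hp.comp (Poly.fst Poly.id)) (hi.comp (Poly.fst Poly.id))
      (Poly.length (Poly.fst (Poly.snd Poly.id)))
  exact Poly.any (p := fun a (κ : List Unit × List Bool) => rngB (p a) (i a) κ.1.length) hl h1

theorem poly_synB {p : α → Data × ℕ} (hp : Poly p) : Poly (fun a => synB (p a)) := by
  have hj : Poly (fun a => (p a).1.2.2.1) := Poly.fst (Poly.snd (Poly.snd (Poly.fst hp)))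
  have hl : Poly (fun a => (p a).1.2.2.2) := Poly.snd (Poly.snd (Poly.snd (Poly.fst hp)))
  have k1 : Poly (fun q : α × (List Unit × List Bool) =>
      decide (q.2.2.length = wl (p q.1).1.1.length)) := by
    have hw : Poly (fun q : α × (List Unit × List Bool) => wl (p q.1).1.1.length) :=
      (u_wl ((Poly.fst (Poly.fst hp)).comp (Poly.fst Poly.id))).toPoly
    exact Poly.decide_eq (Poly.length (Poly.snd (Poly.snd Poly.id))) hw
  have k2 : Poly (fun q : α × ℕ => (decide (q.2 = 2 * (p q.1).1.2.2.1) ||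
        decide (q.2 = 2 * (p q.1).1.2.2.1 + 1)) || anyB (p q.1) q.2) := by
    have hp' : Poly (fun q : α × ℕ => p q.1) := hp.comp (Poly.fst Poly.id)
    have hi' : Poly (fun q : α × ℕ => q.2) := Poly.snd Poly.id
    have hj' : Poly (fun q : α × ℕ => 2 * (p q.1).1.2.2.1) :=
      Poly.mul (NPC.Poly.const 2) (hj.comp (Poly.fst Poly.id))
    have hj'' : Poly (fun q : α × ℕ => 2 * (p q.1).1.2.2.1 + 1) := Poly.succ hj'
    exact Poly.or (Poly.or (Poly.decide_eq hi' hj') (Poly.decide_eq hi' hj''))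
      (poly_anyB hp' hi')
  have k3 : Poly (fun a => (p a).1.2.2.2.all
      (fun κ => decide (κ.2.length = wl (p a).1.1.length))) :=
    Poly.all (p := fun a (κ : List Unit × List Bool) =>
      decide (κ.2.length = wl (p a).1.1.length)) hl k1
  have k4 : Poly (fun a => (List.range (KK (lev (p a)))).all
      (fun i => (decide (i = 2 * (p a).1.2.2.1) ||
        decide (i = 2 * (p a).1.2.2.1 + 1)) || anyB (p a) i)) :=
    Poly.all (p := fun a i => (decide (i = 2 * (p a).1.2.2.1) ||
        decide (i = 2 * (p a).1.2.2.1 + 1)) || anyB (p a) i) (u_KK (u_lev hp)).range k2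
  exact Poly.and (Poly.and (Poly.decide_lt (Poly.fst (Poly.snd (Poly.fst hp)))
    (u_BB (u_lev hp)).toPoly) (Poly.decide_lt hj (u_JJ (u_lev hp)).toPoly))
    (Poly.and k3 k4)

/-- the strings of a candidate -/
def sps (n : ℕ) (c : ℕ) (w : List Bool) : List (List Bool) :=
  (List.range (wl n)).map (fun l => pos c (min l (wl n)) w)

theorem poly_sps {l : α → List Unit} {c : α → ℕ} {w : α → List Bool} (hl : Poly l)
    (hc : UPoly c) (hw : Poly w) : Poly (fun a => sps (l a).length (c a) (w a)) :=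
  p_spots hc (u_wl hl) hw

end

/-- the strings of the list -/
def lstQ (D : Data) : List (List Bool) :=
  D.2.2.2.flatMap (fun κ => sps D.1.length κ.1.length κ.2)

theorem poly_lstQ : Poly lstQ := by
  refine Poly.flatMap (F := fun (D : Data) κ => sps D.1.length κ.1.length κ.2)
    (Poly.snd (Poly.snd (Poly.snd Poly.id))) ?_
  exact poly_sps (Poly.fst (Poly.fst Poly.id)) (UPoly.length (Poly.fst (Poly.snd Poly.id)))
    (Poly.snd (Poly.snd Poly.id))

theorem forall_lstQ {A : Oracle} {D : Data} :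
    (∀ z ∈ lstQ D, A z = true) ↔ ∀ κ ∈ D.2.2.2, Hit (wl D.1.length) (cd κ) A := by
  unfold lstQ
  constructor
  · intro h κ hκ
    exact forall_spots.1 fun z hz => h z (List.mem_flatMap.2 ⟨κ, hκ, hz⟩)
  · intro h z hz
    obtain ⟨κ, hκ, hz⟩ := List.mem_flatMap.1 hz
    exact forall_spots.2 (h κ hκ) z hz

/-! ### the two verifiers -/

/-- the test of the certificates -/
def g1 (f : ℕ → Option ℕ) (p : List Bool × List Bool) : Bool :=
  match dcd f p.1 with
  | none => false
  | some q => synB q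

/-- the questions for the certificates -/
def q1 (f : ℕ → Option ℕ) (p : List Bool × List Bool) : List (List Bool) :=
  match dcd f p.1 with
  | none => []
  | some q => lstQ q.1

/-- the test of the witness, for slot `2 j` or `2 j + 1` -/
def g2 (f : ℕ → Option ℕ) (e : Bool) (p : List Bool × List Bool) : Bool :=
  match dcd f p.1 with
  | none => false
  | some q => rngB q (2 * q.1.2.2.1 + e.toNat) (unpair p.2).1.length &&
      decide ((unpair p.2).2.length = wl q.1.1.length)

/-- the questions for the witness -/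
def q2 (f : ℕ → Option ℕ) (p : List Bool × List Bool) : List (List Bool) :=
  match dcd f p.1 with
  | none => []
  | some q => sps q.1.1.length (unpair p.2).1.length (unpair p.2).2

section

variable {f : ℕ → Option ℕ} (hf : Poly (fun x : List Unit => f x.length))
include hf

theorem poly_g1 : Poly (g1 f) := by
  refine (Poly.optCases (o := fun p : List Bool × List Bool => dcd f p.1) (g := fun _ => false)
    (h := fun _ q => synB q) ((poly_dcd hf).comp (Poly.fst Poly.id)) (NPC.Poly.const _)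
    (poly_synB (Poly.snd Poly.id))).congr fun p => ?_
  unfold g1
  cases dcd f p.1 <;> rfl

theorem poly_q1 : Poly (q1 f) := by
  refine (Poly.optCases (o := fun p : List Bool × List Bool => dcd f p.1) (g := fun _ => [])
    (h := fun _ q => lstQ q.1) ((poly_dcd hf).comp (Poly.fst Poly.id)) (NPC.Poly.const _)
    (poly_lstQ.comp (Poly.fst (Poly.snd Poly.id)))).congr fun p => ?_
  unfold q1
  cases dcd f p.1 <;> rfl

theorem poly_g2 (e : Bool) : Poly (g2 f e) := by
  refine (Poly.optCases (o := fun p : List Bool × List Bool => dcd f p.1) (g := fun _ => false)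
    (h := fun p q => rngB q (2 * q.1.2.2.1 + e.toNat) (unpair p.2).1.length &&
      decide ((unpair p.2).2.length = wl q.1.1.length)) ((poly_dcd hf).comp (Poly.fst Poly.id))
    (NPC.Poly.const _) ?_).congr fun p => ?_
  · have h4 : Poly (fun p : (List Bool × List Bool) × (Data × ℕ) => (unpair p.1.2)) :=
      poly_unpair.comp (Poly.snd (Poly.fst Poly.id))
    have h5 : Poly (fun p : (List Bool × List Bool) × (Data × ℕ) => p.2) := Poly.snd Poly.id
    refine Poly.and (poly_rngB h5 (Poly.add (Poly.mul (NPC.Poly.const 2)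
      (Poly.fst (Poly.snd (Poly.snd (Poly.fst h5))))) (NPC.Poly.const _)) (Poly.length (Poly.fst h4)))
      (Poly.decide_eq (Poly.length (Poly.snd h4)) (u_wl (Poly.fst (Poly.fst h5))).toPoly)
  · unfold g2
    cases dcd f p.1 <;> rfl

theorem poly_q2 : Poly (q2 f) := by
  refine (Poly.optCases (o := fun p : List Bool × List Bool => dcd f p.1) (g := fun _ => [])
    (h := fun p q => sps q.1.1.length (unpair p.2).1.length (unpair p.2).2)
    ((poly_dcd hf).comp (Poly.fst Poly.id)) (NPC.Poly.const _) ?_).congr fun p => ?_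
  · have h4 : Poly (fun p : (List Bool × List Bool) × (Data × ℕ) => (unpair p.1.2)) :=
      poly_unpair.comp (Poly.snd (Poly.fst Poly.id))
    exact poly_sps (Poly.fst (Poly.fst (Poly.snd Poly.id))) (UPoly.length (Poly.fst h4))
      (Poly.snd h4)
  · unfold q2
    cases dcd f p.1 <;> rfl

end

section

variable {f : ℕ → Option ℕ} (hfn : ∀ n s, f n = some s → s ≤ n)
include hfn

theorem lev_eq {x : List Bool} {D : Data} {s : ℕ} (h : dcd f x = some (D, s)) :
    lev (D, s) = s :=
  min_eq_left (hfn _ _ (dcd_eq.1 h).2)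

theorem cert_iff {A : Oracle} {x w : List Bool} :
    (g1 f (x, w) = true ∧ ∀ z ∈ q1 f (x, w), A z = true) ↔
      ∃ D s, dcd f x = some (D, s) ∧ Cert A s D := by
  unfold g1 q1
  simp only
  cases h : dcd f x with
  | none => simp
  | some q =>
    obtain ⟨D, s⟩ := q
    simp only
    rw [synB_iff, lev_eq hfn h, forall_lstQ]
    constructor
    · rintro ⟨h1, h2⟩
      exact ⟨D, s, rfl, h1, h2⟩
    · rintro ⟨D', s', h1, h2⟩
      obtain ⟨rfl, rfl⟩ := Prod.mk.inj (Option.some.inj h1)
      exact h2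

theorem wit_iff {A : Oracle} {x w : List Bool} {D : Data} {s : ℕ} {e : Bool}
    (h : dcd f x = some (D, s)) :
    (g2 f e (x, w) = true ∧ ∀ z ∈ q2 f (x, w), A z = true) ↔
      ((D.2.1 * KK s + (2 * D.2.2.1 + e.toNat)) * qq s ≤ (unpair w).1.length ∧
        (unpair w).1.length < (D.2.1 * KK s + (2 * D.2.2.1 + e.toNat) + 1) * qq s ∧
        (unpair w).2.length = wl D.1.length ∧
        Hit (wl D.1.length) ((unpair w).1.length, (unpair w).2) A) := by
  unfold g2 q2 rngB
  simp only [h, lev_eq hfn h, Bool.and_eq_true, decide_eq_true_eq]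
  rw [show (∀ z ∈ sps D.1.length (unpair w).1.length (unpair w).2, A z = true) ↔
    Hit (wl D.1.length) ((unpair w).1.length, (unpair w).2) A from forall_spots]
  tauto

/-- existence of short witnesses -/
theorem exists_wit {P : Polynomial ℕ} (hP : ∀ s, BB s * KK s * qq s + BB s + KK s + JJ s + qq s
    + 2 ^ mm s + qq s * 2 ^ mm s ≤ P.eval s) {A : Oracle} {x : List Bool} {D : Data} {s : ℕ}
    {e : Bool} (h : dcd f x = some (D, s)) (hS : Syn s D)
    (hA : A ∉ Zero D.1.length s D.2.1 (2 * D.2.2.1 + e.toNat)) :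
    ∃ w : List Bool, w.length ≤ (Polynomial.C 2 * P + Polynomial.C 2 * Polynomial.X +
      Polynomial.C 9).eval x.length ∧
      (g2 f e (x, w) = true ∧ ∀ z ∈ q2 f (x, w), A z = true) := by
  obtain ⟨c, w, h1, h2, h3, h4⟩ := notMem_zero.1 hA
  obtain ⟨hx, hs⟩ := dcd_eq.1 h
  refine ⟨pairBits (List.replicate c true) w, ?_, ?_⟩
  · rw [A2.length_pairBits, List.length_replicate, h3]
    have hn : D.1.length ≤ x.length := by
      rw [← hx, bits_length]
      have e1 := length_lt_sz D.1
      have e2 : sz D.1 ≤ sz D := by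
        obtain ⟨l, b, j, L⟩ := D
        simp only [sz_pair]
        omega
      omega
    have e3 : c < P.eval s := by
      have e4 : D.2.1 * KK s + (2 * D.2.2.1 + e.toNat) + 1 ≤ BB s * KK s := by
        have e5 := hS.1
        have e6 := hS.2.1
        have e7 : KK s = 2 * JJ s := rfl
        have e8 : e.toNat ≤ 1 := Bool.toNat_le e
        calc D.2.1 * KK s + (2 * D.2.2.1 + e.toNat) + 1 ≤ D.2.1 * KK s + KK s := by omega
          _ = (D.2.1 + 1) * KK s := by ring
          _ ≤ BB s * KK s := Nat.mul_le_mul_right _ e5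
      have e9 := Nat.mul_le_mul_right (qq s) e4
      have e10 := hP s
      have e11 := Nat.zero_le (2 ^ mm s)
      have e12 := Nat.zero_le (qq s * 2 ^ mm s)
      have e13 : BB s * KK s * qq s + (BB s + KK s + JJ s + qq s + 2 ^ mm s + qq s * 2 ^ mm s) ≤
        P.eval s := by
        linarith
      have e14 : BB s * KK s * qq s ≤ P.eval s := (Nat.le_add_right _ _).trans e13
      omega
    have e4 : P.eval s ≤ P.eval x.length :=
      eval_mono P ((hfn _ _ hs).trans hn)
    simp only [Polynomial.eval_add, Polynomial.eval_mul, Polynomial.eval_C, Polynomial.eval_X]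
    unfold wl
    omega
  · rw [wit_iff hfn h]
    simp only [unpair_pairBits, List.length_replicate]
    exact ⟨h1, h2, h3, h4⟩

end

end Mem

open Mem

theorem isNP_LL (A : Oracle) (f : ℕ → Option ℕ) (hf : Poly (fun x : List Unit => f x.length))
    (hfn : ∀ n s, f n = some s → s ≤ n) : IsNP A (LL f A) := by
  obtain ⟨P, hP⟩ := size_poly
  refine ⟨ver A (fun p => g1 f p && g2 f false p) (fun p => q1 f p ++ q2 f p),
    Polynomial.C 2 * P + Polynomial.C 2 * Polynomial.X + Polynomial.C 9,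
    ver_isFP A (Poly.and (poly_g1 hf) (poly_g2 hf false)) (Poly.append (poly_q1 hf) (poly_q2 hf)),
    fun x => ?_⟩
  have key : ∀ w, ver A (fun p => g1 f p && g2 f false p) (fun p => q1 f p ++ q2 f p)
      (pairBits x w) = [true] ↔ (g1 f (x, w) = true ∧ ∀ z ∈ q1 f (x, w), A z = true) ∧
        (g2 f false (x, w) = true ∧ ∀ z ∈ q2 f (x, w), A z = true) := by
    intro w
    rw [ver_iff]
    simp only [Bool.and_eq_true, List.mem_append]
    constructor
    · rintro ⟨⟨h1, h2⟩, h3⟩
      exact ⟨⟨h1, fun z hz => h3 z (Or.inl hz)⟩, h2, fun z hz => h3 z (Or.inr hz)⟩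
    · rintro ⟨⟨h1, h2⟩, h3, h4⟩
      exact ⟨⟨h1, h3⟩, fun z hz => hz.elim (h2 z) (h4 z)⟩
  constructor
  · rintro ⟨D, s, h1, h2, h3, h4⟩
    have hd : dcd f x = some (D, s) := dcd_eq.2 ⟨h1, h2⟩
    obtain ⟨w, h5, h6⟩ := exists_wit hfn hP (e := false) hd h3.1 h4
    exact ⟨w, h5, (key w).2 ⟨(cert_iff hfn).2 ⟨D, s, hd, h3⟩, h6⟩⟩
  · rintro ⟨w, -, h⟩
    obtain ⟨h1, h2⟩ := (key w).1 h
    obtain ⟨D, s, hd, hc⟩ := (cert_iff hfn).1 h1
    rw [wit_iff hfn hd] at h2
    exact ⟨D, s, (dcd_eq.1 hd).1, (dcd_eq.1 hd).2, hc,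
      notMem_zero.2 ⟨_, _, h2.1, h2.2.1, h2.2.2.1, h2.2.2.2⟩⟩

theorem isCoNP_LL (A : Oracle) (f : ℕ → Option ℕ) (hf : Poly (fun x : List Unit => f x.length))
    (hfn : ∀ n s, f n = some s → s ≤ n) (hA : ∀ n s, f n = some s → A ∉ Inv n s) :
    IsCoNP A (LL f A) := by
  obtain ⟨P, hP⟩ := size_poly
  -- for correct certificates exactly one of the two slots is zero
  have hex : ∀ x D s, dcd f x = some (D, s) → Cert A s D →
      (A ∈ Zero D.1.length s D.2.1 (2 * D.2.2.1) ↔
        A ∉ Zero D.1.length s D.2.1 (2 * D.2.2.1 + 1)) := by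
    intro x D s hd hc
    have hI := hA _ _ (dcd_eq.1 hd).2
    have hO := others hc
    constructor
    · intro h1 h2
      exact hI (Or.inr ⟨D.2.1, hc.1.1, D.2.2.1, hc.1.2.1, hO, h1, h2⟩)
    · intro h1
      by_contra h2
      refine hI (Or.inl ⟨D.2.1, hc.1.1, fun i hi => ?_⟩)
      by_cases h3 : i = 2 * D.2.2.1
      · rw [h3]; exact h2
      · by_cases h4 : i = 2 * D.2.2.1 + 1
        · rw [h4]; exact h1
        · exact hO i hi h3 h4
  have hF : Poly (fun z : List Bool =>
      if (unpair z).1 = [true] then (unpair z).2 else [true]) :=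
    Poly.ite (Poly.decide_eq (Poly.fst poly_unpair) (NPC.Poly.const _)) (Poly.snd poly_unpair)
      (NPC.Poly.const _)
  have hV := IsFP.comp (IsFP.of_poly (A := A) hF)
    (IsFP.pair (ver_isFP A (poly_g1 hf) (poly_q1 hf)) (ver_isFP A (poly_g2 hf true) (poly_q2 hf)))
  refine ⟨_, Polynomial.C 2 * P + Polynomial.C 2 * Polynomial.X + Polynomial.C 9, hV,
    fun x => ?_⟩
  simp only [unpair_pairBits]
  constructor
  · intro hx
    by_cases hc : ∃ D s, dcd f x = some (D, s) ∧ Cert A s D
    · obtain ⟨D, s, hd, hc⟩ := hc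
      have h1 : A ∈ Zero D.1.length s D.2.1 (2 * D.2.2.1) := by
        by_contra h2
        exact hx ⟨D, s, (dcd_eq.1 hd).1, (dcd_eq.1 hd).2, hc, h2⟩
      obtain ⟨w, h5, h6⟩ := exists_wit hfn hP (e := true) hd hc.1 ((hex x D s hd hc).1 h1)
      refine ⟨w, h5, ?_⟩
      rw [if_pos (ver_iff.2 ((cert_iff hfn).2 ⟨D, s, hd, hc⟩))]
      exact ver_iff.2 h6
    · refine ⟨[], by simp, ?_⟩
      rw [if_neg fun h => hc ((cert_iff hfn).1 (ver_iff.1 h))]
  · rintro ⟨w, -, h⟩ ⟨D, s, h1, h2, h3, h4⟩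
    have hd : dcd f x = some (D, s) := dcd_eq.2 ⟨h1, h2⟩
    rw [if_pos (ver_iff.2 ((cert_iff hfn).2 ⟨D, s, hd, h3⟩))] at h
    have h5 := ver_iff.1 h
    rw [wit_iff hfn hd] at h5
    exact h4 ((hex x D s hd h3).2 (notMem_zero.2 ⟨_, _, h5.1, h5.2.1, h5.2.2.1, h5.2.2.2⟩))

end Pool.Agent.H583R2.NC
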