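import Pool.Agent.H583R2.NC.Core
import Pool.Agent.H583R2.NC.NumS
import Pool.Agent.H583R2.NC.Loc2
import Pool.Agent.H583R2.NC.Mem
import Pool.Agent.H583R2.NC.Chk
import Pool.Agent.H583R2.NC.KeyR
import Pool.Agent.H628R3.RO.F4

/-!
# `NP ∩ coNP` relative to a random oracle
-/

namespace Pool.Agent.H583R2.NC

open MeasureTheory Pool.Agent.NPC Pool.Agent.H628R3.RO

theorem KK_pos (s : ℕ) : 2 ≤ KK s := by
  have h : 0 < JJ s := Nat.succ_pos _
  unfold KK
  omega

theorem prob_Bad_pos {n s : ℕ} (hs : 4 ≤ s) (hn : s ≤ n) :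
    (1 / 2 : ℝ) * ((1 / 2 : ℝ) ^ (rr s + 7) / (rr s : ℝ) ^ 2) ≤ prob (Bad n s) := by
  refine le_trans ?_ (prob_Bad_ge n s ?_)
  · exact mul_le_mul_of_nonneg_left (bad_lo hs hn) (by norm_num)
  · exact (bad_hi hs hn).trans ((ee_le hs).trans (by norm_num))

theorem prob_Bad_le_ee {n s : ℕ} (hs : 4 ≤ s) (hn : s ≤ n) : prob (Bad n s) ≤ ee s :=
  (prob_Bad_le n s).trans (bad_hi hs hn)

theorem prob_Inv_le {n s : ℕ} (hs : 4 ≤ s) (hn : s ≤ n) :
    prob (Inv n s) ≤ 81 * prob (Bad n s) := by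
  have h1 : prob (Two n s) ≤ 80 * prob (Bad n s) := by
    have h0 := zp_le_half hs n
    have h00 := zp_pos n s
    have h2 := prob_Bad_ge n s ((bad_hi hs hn).trans ((ee_le hs).trans (by norm_num)))
    refine (prob_Two_le n s).trans ?_
    have h3 := two_num hs hn
    set x := zp n s with hx
    have h4 : (1 - x) ^ KK s = (1 - x) ^ 2 * (1 - x) ^ (KK s - 2) := by
      rw [← pow_add]; congr 1; have := KK_pos s; omega
    have h5 : (0 : ℝ) ≤ (1 - x) ^ (KK s - 2) := pow_nonneg (by linarith) _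
    have h6 : (1 / 4 : ℝ) ≤ (1 - x) ^ 2 := by nlinarith
    have h7 : (BB s : ℝ) * JJ s * (x ^ 2 * (1 - x) ^ (KK s - 2)) =
        (JJ s * x ^ 2) * (BB s * (1 - x) ^ (KK s - 2)) := by ring
    have h8 : (0 : ℝ) ≤ BB s * (1 - x) ^ (KK s - 2) := by positivity
    have h9 : (BB s : ℝ) * (1 - x) ^ (KK s - 2) ≤ 4 * (BB s * (1 - x) ^ KK s) := by
      rw [h4]
      nlinarith
    rw [h7]
    calc (JJ s * x ^ 2) * (BB s * (1 - x) ^ (KK s - 2)) ≤
          10 * (4 * (BB s * (1 - x) ^ KK s)) := mul_le_mul h3 h9 h8 (by norm_num)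
      _ ≤ 80 * prob (Bad n s) := by linarith
  calc prob (Inv n s) ≤ prob (Bad n s) + prob (Two n s) := M2.prob_union_le _ _
    _ ≤ 81 * prob (Bad n s) := by linarith

theorem rr_pos {s : ℕ} (hs : 4 ≤ s) : (0 : ℝ) < rr s := by
  have := three_le_rr hs
  positivity

/-- the core, for `NP ∩ coNP` -/
theorem ae_B (V : Bool → Alg) (p : Bool → Polynomial ℕ) : ∃ b : Polynomial ℕ,
    Check Bad (fun n _ => ErrN V p n) b ∧
    ∀ᵐ A ∂randomOracle, (∀ n s, A ∉ Bad n s ∩ ErrN V p n) →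
      ∃ (t : ℕ) (L : List (List Bool)),
      (∃ i0, ∀ i ≥ i0, A ∉ Inv (Tt b t i) (lev Bad (fun n _ => ErrN V p n) t L (Tt b t) i)) ∧
      ∀ (r : Alg) (i0 : ℕ), ∃ i ≥ i0,
        A ∉ GoodR V p r (Tt b t i) (lev Bad (fun n _ => ErrN V p n) t L (Tt b t) i) := by
  obtain ⟨b, hc⟩ := check_B V p
  refine ⟨b, hc, ?_⟩
  exact core_gen (R := Alg) Bad Inv (fun n _ => ErrN V p n) (GoodR V p) spotsB
    (fun n s => lt_length_spotsB) (fun n n' s s' h => disjoint_spotsB n n' s s' h)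
    loc_Bad (fun n s => measurableSet_of_loc (spotsB n s).finite_toSet (loc_Inv n s))
    b hc.locErr hc.locBad (fun r => loc_GoodR V p r)
    ee ll ee_nonneg summable_ee (fun s hs => ee_le hs)
    (fun n s hs hn => prob_Bad_le_ee hs hn) 81 (fun n s hs hn => prob_Inv_le hs hn)
    (fun s hs => ⟨(1 / 2 : ℝ) * ((1 / 2 : ℝ) ^ (rr s + 7) / (rr s : ℝ) ^ 2), by
      have := rr_pos hs
      positivity, fun n hn => prob_Bad_pos hs hn⟩)
    ll_nonneg not_summable_ll (fun r => key_R V p r) hc.le_eval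

/-- the schedule in unary -/
theorem p_schK' {Bad Err : ℕ → ℕ → Set Oracle} {b : Polynomial ℕ} (hc : Check Bad Err b) (t : ℕ)
    (L : List (List Bool)) (n0 : ℕ) :
    Poly (fun x : List Unit => schK Bad Err b t L n0 x.length) := by
  refine Poly.ite (Poly.decide_le (NPC.Poly.const n0) (Poly.length Poly.id)) ?_
    (NPC.Poly.const none)
  exact p_sch t L hc (UPoly.length Poly.id)

theorem mem_LL_inst {f : ℕ → Option ℕ} {n s b j : ℕ} {A : Oracle} (hf : f n = some s)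
    (hb : b < BB s) (hj : j < JJ s) (hA : A ∈ Others n s b j) :
    inst n s b j A ∈ LL f A ↔ A ∉ Zero n s b (2 * j) := by
  constructor
  · rintro ⟨D, s', h1, h2, -, h4⟩
    have h5 : D = instD n s b j A := bits_injective h1
    subst h5
    simp only [instD, List.length_replicate] at h2 h4
    rw [hf, Option.some.injEq] at h2
    subst h2
    exact h4
  · intro h
    refine ⟨instD n s b j A, s, rfl, ?_, inst_cert hb hj hA, ?_⟩
    · simp only [instD, List.length_replicate]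
      exact hf
    · simp only [instD, List.length_replicate]
      exact h

/-- With probability one, `NP ∩ coNP` has no complete set. -/
theorem npconp_main : ∀ᵐ A ∂randomOracle, ∀ K : Set (List Bool), IsNP A K → IsCoNP A K →
    ∃ L : Set (List Bool), IsNP A L ∧ IsCoNP A L ∧ ¬ Red A L K := by
  have := countable_poly2
  choose b hc hcore using fun q : (Bool → Alg) × (Bool → Polynomial ℕ) => ae_B q.1 q.2
  have hall : ∀ᵐ A ∂randomOracle, ∀ q : (Bool → Alg) × (Bool → Polynomial ℕ),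
      (∀ n s, A ∉ Bad n s ∩ ErrN q.1 q.2 n) → ∃ (t : ℕ) (L : List (List Bool)),
      (∃ i0, ∀ i ≥ i0, A ∉ Inv (Tt (b q) t i)
        (lev Bad (fun n _ => ErrN q.1 q.2 n) t L (Tt (b q) t) i)) ∧
      ∀ (r : Alg) (i0 : ℕ), ∃ i ≥ i0, A ∉ GoodR q.1 q.2 r (Tt (b q) t i)
        (lev Bad (fun n _ => ErrN q.1 q.2 n) t L (Tt (b q) t) i) := ae_all_iff.2 hcore
  filter_upwards [hall] with A hA K hK0 hK1
  obtain ⟨V0, p0, ⟨M0, hM0⟩, hV0⟩ := hK0
  obtain ⟨V1, p1, ⟨M1, hM1⟩, hV1⟩ := hK1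
  set V : Bool → Alg := fun i => bif i then M1 else M0 with hV
  set p : Bool → Polynomial ℕ := fun i => bif i then p1 else p0 with hp
  have hw0 : ∀ x, Wit (V false) (p false) x A ↔ x ∈ K := by
    intro x
    rw [hV0 x, Wit]
    refine exists_congr fun y => and_congr_right fun _ => ?_
    change M0.out A (pairBits x y) = some [true] ↔ _
    rw [hM0, Option.some.injEq]
  have hw1 : ∀ x, Wit (V true) (p true) x A ↔ x ∉ K := by
    intro x
    rw [← Set.mem_compl_iff, hV1 x, Wit]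
    refine exists_congr fun y => and_congr_right fun _ => ?_
    change M1.out A (pairBits x y) = some [true] ↔ _
    rw [hM1, Option.some.injEq]
  obtain ⟨t, S, ⟨i1, h1⟩, h2⟩ := hA (V, p) (by
    rintro n s ⟨_, x, _, h4⟩
    exact (hw1 x).1 (h4 true) ((hw0 x).1 (h4 false)))
  set f := schK Bad (fun n _ => ErrN V p n) (b (V, p)) t S (Tt (b (V, p)) t i1) with hf
  have hfn : ∀ n s, f n = some s → s ≤ n := fun n s h => schK_le h
  have hfA : ∀ n s, f n = some s → A ∉ Inv n s := by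
    intro n s h
    obtain ⟨h3, i, rfl, rfl⟩ := eq_of_schK h
    exact h1 i ((strictMono_Tt (b (V, p)) t).le_iff_le.1 h3)
  have hpf : Poly (fun x : List Unit => f x.length) := p_schK' (hc (V, p)) t S _
  refine ⟨_, isNP_LL A f hpf hfn, isCoNP_LL A f hpf hfn hfA, ?_⟩
  rintro ⟨F, ⟨r, hr⟩, hF⟩
  obtain ⟨i, hi, h3⟩ := h2 r i1
  set n := Tt (b (V, p)) t i with hn
  set s := lev Bad (fun n _ => ErrN V p n) t S (Tt (b (V, p)) t) i with hs
  have hfi : f n = some s := schK_Tt ((strictMono_Tt (b (V, p)) t).monotone hi)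
  have hIA : A ∉ Inv n s := hfA n s hfi
  refine h3 fun bb hbb j hj ho => ⟨_, hr _, ?_, ?_⟩
  · intro h
    rw [hw0, ← hF]
    exact (mem_LL_inst hfi hbb hj ho).2 h
  · intro h
    rw [hw1, ← hF]
    intro h4
    have h5 := (mem_LL_inst hfi hbb hj ho).1 h4
    apply hIA
    left
    refine ⟨bb, hbb, fun i hi => ?_⟩
    by_cases h6 : i = 2 * j
    · rw [h6]; exact h5
    · by_cases h7 : i = 2 * j + 1
      · rw [h7]; exact h
      · exact ho i hi h6 h7

end Pool.Agent.H583R2.NC
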