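import Pool.Agent.H583R2.NC.Defs
import Pool.Agent.H628R3.RO.D5

/-!
# Task NUMA: the probability that a slot is zero
-/

namespace Pool.Agent.H583R2.NC

open MeasureTheory Pool.Agent.NPC Pool.Agent.H628R3.RO

theorem three_le_rr {s : ℕ} (hs : 4 ≤ s) : 3 ≤ rr s := by
  have h : 2 < Nat.size s := Nat.lt_size.2 (by omega)
  exact h

theorem two_le_qq {s : ℕ} (hs : 4 ≤ s) : 2 ≤ qq s := by
  have h3 := three_le_rr hs
  have h : 1 < Nat.size (rr s) := Nat.lt_size.2 (by omega)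
  exact h

theorem rr_lt (s : ℕ) : rr s < 2 ^ qq s := Nat.lt_size_self (rr s)

theorem NumA_pow_le {t : ℕ} (ht : 1 ≤ t) : 2 ^ Nat.size t ≤ 2 * t := by
  have h0 : 0 < Nat.size t := Nat.lt_size.2 (by omega)
  have h1 : 2 ^ (Nat.size t - 1) ≤ t := Nat.lt_size.1 (by omega)
  have h2 : 2 ^ Nat.size t = 2 * 2 ^ (Nat.size t - 1) := by
    rw [← pow_succ']
    congr 1
    omega
  omega

theorem pow_qq_le {s : ℕ} (hs : 1 ≤ s) : 2 ^ qq s ≤ 2 * rr s := by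
  have h0 : 0 < Nat.size s := Nat.lt_size.2 (by omega)
  exact NumA_pow_le h0

theorem lt_pow_rr (s : ℕ) : s < 2 ^ rr s := Nat.lt_size_self s

theorem pow_rr_le {s : ℕ} (hs : 1 ≤ s) : 2 ^ rr s ≤ 2 * s := NumA_pow_le hs

theorem NumA_size_le (t : ℕ) : Nat.size t ≤ t := Nat.size_le.2 Nat.lt_two_pow_self

theorem mm_le_wl {n s : ℕ} (h : s ≤ n) : mm s ≤ wl n := by
  have h1 : qq s ≤ rr s := NumA_size_le (rr s)
  have h2 : rr s ≤ s := NumA_size_le s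
  unfold mm wl
  omega

/-- the rational approximation -/
noncomputable def ap (s : ℕ) : ℝ := (1 - (1 / 2 : ℝ) ^ mm s) ^ (qq s * 2 ^ mm s)

theorem ap_eq (s : ℕ) : ap s = (uu s : ℝ) / (vv s : ℝ) := by
  unfold ap uu vv
  have h1 : 1 ≤ 2 ^ mm s := Nat.one_le_two_pow
  rw [Nat.cast_pow, Nat.cast_pow, ← div_pow, Nat.cast_sub h1]
  congr 1
  push_cast
  rw [sub_div, div_self (by positivity), one_div, one_div, inv_pow]

theorem NumA_half_lt {m : ℕ} (hm : 1 ≤ m) : (1 / 2 : ℝ) ^ m ≤ 1 / 2 := by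
  calc (1 / 2 : ℝ) ^ m ≤ (1 / 2) ^ 1 := pow_le_pow_of_le_one (by norm_num) (by norm_num) hm
    _ = 1 / 2 := pow_one _

theorem NumA_ap_le (m d q : ℕ) : (1 - (1 / 2 : ℝ) ^ m) ^ (q * 2 ^ m) ≤
    (1 - (1 / 2 : ℝ) ^ (m + d)) ^ (q * 2 ^ (m + d)) := by
  have h2 : q * 2 ^ (m + d) = 2 ^ d * (q * 2 ^ m) := by
    rw [pow_add]
    ring
  rw [h2, pow_mul (1 - (1 / 2 : ℝ) ^ (m + d)) (2 ^ d) (q * 2 ^ m)]
  have hle : (1 / 2 : ℝ) ^ m ≤ 1 := pow_le_one₀ (by norm_num) (by norm_num)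
  refine pow_le_pow_left₀ (by linarith) ?_ _
  have hle2 : (1 / 2 : ℝ) ^ (m + d) ≤ 1 := pow_le_one₀ (by norm_num) (by norm_num)
  have h3 := one_add_mul_le_pow (a := -(1 / 2 : ℝ) ^ (m + d)) (by linarith) (2 ^ d)
  have h4 : (1 : ℝ) + ((2 ^ d : ℕ) : ℝ) * -(1 / 2 : ℝ) ^ (m + d) = 1 - (1 / 2) ^ m := by
    push_cast
    rw [pow_add]
    have h5 : (2 : ℝ) ^ d * (1 / 2) ^ d = 1 := by
      rw [← mul_pow]
      norm_num
    linear_combination -(1 / 2 : ℝ) ^ m * h5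
  rw [h4] at h3
  rw [← sub_eq_add_neg] at h3
  exact h3

theorem ap_le {n s : ℕ} (h : s ≤ n) : ap s ≤ zp n s := by
  obtain ⟨d, hd⟩ := Nat.exists_eq_add_of_le (mm_le_wl h)
  have h1 := NumA_ap_le (mm s) d (qq s)
  rw [← hd] at h1
  exact h1

/-- `(1 - 1/M) ^ (M - 1) ≥ exp (-1)` -/
theorem NumA_exp {m : ℕ} (hm : 1 ≤ m) :
    Real.exp (-1) ≤ (1 - (1 / 2 : ℝ) ^ m) ^ (2 ^ m - 1) := by
  have hx := NumA_half_lt hm
  have hpos : (0 : ℝ) < 1 - (1 / 2 : ℝ) ^ m := by linarith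
  have h1 := Real.one_sub_inv_le_log_of_pos hpos
  have h2 : 1 ≤ 2 ^ m := Nat.one_le_two_pow
  rw [← Real.exp_log (pow_pos hpos (2 ^ m - 1)), Real.log_pow]
  refine Real.exp_le_exp.2 ?_
  have h3 : ((2 ^ m - 1 : ℕ) : ℝ) * (1 - (1 - (1 / 2 : ℝ) ^ m)⁻¹) = -1 := by
    rw [Nat.cast_sub h2]
    push_cast
    have h4 : (2 : ℝ) ^ m * (1 / 2) ^ m = 1 := by
      rw [← mul_pow]
      norm_num
    field_simp
    linear_combination -h4
  rw [← h3]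
  exact mul_le_mul_of_nonneg_left h1 (Nat.cast_nonneg _)

theorem zp_le_exp (n s : ℕ) : zp n s ≤ Real.exp (-(qq s : ℝ)) := by
  unfold zp
  rw [mul_comm, pow_mul]
  have h1 : (1 - (1 / 2 : ℝ) ^ wl n) ^ (2 ^ wl n) ≤ Real.exp (-1) := by
    have hle : (1 / 2 : ℝ) ^ wl n ≤ 1 := pow_le_one₀ (by norm_num) (by norm_num)
    have h2 := Real.one_sub_le_exp_neg ((1 / 2 : ℝ) ^ wl n)
    calc (1 - (1 / 2 : ℝ) ^ wl n) ^ (2 ^ wl n) ≤ (Real.exp (-(1 / 2 : ℝ) ^ wl n)) ^ (2 ^ wl n) :=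
          pow_le_pow_left₀ (by linarith) h2 _
      _ = Real.exp (-1) := by
          rw [← Real.exp_nat_mul]
          congr 1
          push_cast
          have h4 : (2 : ℝ) ^ wl n * (1 / 2) ^ wl n = 1 := by
            rw [← mul_pow]
            norm_num
          linear_combination -h4
  have hle : (1 / 2 : ℝ) ^ wl n ≤ 1 := pow_le_one₀ (by norm_num) (by norm_num)
  calc ((1 - (1 / 2 : ℝ) ^ wl n) ^ (2 ^ wl n)) ^ qq s ≤ (Real.exp (-1)) ^ qq s :=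
        pow_le_pow_left₀ (pow_nonneg (by linarith) _) h1 _
    _ = Real.exp (-(qq s : ℝ)) := by
        rw [← Real.exp_nat_mul]
        congr 1
        ring

theorem NumA_core (m q : ℕ) (hm : 1 ≤ m) (hqm : 2 * q ≤ 2 ^ m) :
    Real.exp (-(q : ℝ)) ≤ (1 - (1 / 2 : ℝ) ^ m) ^ (q * 2 ^ m) * (1 + 4 * q / 2 ^ m) := by
  obtain ⟨M, hM⟩ : ∃ M : ℕ, M = 2 ^ m := ⟨_, rfl⟩
  have hM1 : 1 ≤ M := by rw [hM]; exact Nat.one_le_two_pow
  have hMr : (2 : ℝ) ^ m = M := by rw [hM]; push_cast; rfl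
  have hMpos : (0 : ℝ) < M := by exact_mod_cast hM1
  have hx := NumA_half_lt hm
  have hE := NumA_exp hm
  rw [← hM] at hE hqm ⊢
  have hx1 : (1 / 2 : ℝ) ^ m = 1 / M := by
    rw [← hMr, one_div, one_div, inv_pow]
  rw [hx1] at hx hE ⊢
  rw [hMr]
  have hxp : (0 : ℝ) ≤ 1 - 1 / (M : ℝ) := by linarith
  have hqM : (q : ℝ) / M ≤ 1 / 2 := by
    rw [div_le_iff₀ hMpos]
    have h4 : (2 : ℝ) * q ≤ M := by exact_mod_cast hqm
    linarith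
  have hap : (1 - 1 / (M : ℝ)) ^ (q * M) =
      ((1 - 1 / (M : ℝ)) ^ (M - 1)) ^ q * (1 - 1 / (M : ℝ)) ^ q := by
    rw [← pow_mul, ← pow_add]
    congr 1
    obtain ⟨M', rfl⟩ : ∃ M', M = M' + 1 := ⟨M - 1, by omega⟩
    rw [Nat.add_sub_cancel]
    ring
  have h5 : Real.exp (-(q : ℝ)) ≤ ((1 - 1 / (M : ℝ)) ^ (M - 1)) ^ q := by
    calc Real.exp (-(q : ℝ)) = (Real.exp (-1)) ^ q := by
          rw [← Real.exp_nat_mul]
          congr 1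
          ring
      _ ≤ _ := pow_le_pow_left₀ (Real.exp_pos _).le hE q
  have h6 : 1 - (q : ℝ) / M ≤ (1 - 1 / (M : ℝ)) ^ q := by
    have h7 := one_add_mul_le_pow (a := -(1 / (M : ℝ))) (by linarith) q
    calc 1 - (q : ℝ) / M = 1 + (q : ℝ) * -(1 / M) := by ring
      _ ≤ (1 + -(1 / (M : ℝ))) ^ q := h7
      _ = (1 - 1 / (M : ℝ)) ^ q := by rw [← sub_eq_add_neg]
  have hq0 : (0 : ℝ) ≤ q / M := by positivity
  have h8 : 1 ≤ (1 - (q : ℝ) / M) * (1 + 4 * (q / M)) := by nlinarith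
  have h9 : (1 : ℝ) + 4 * q / M = 1 + 4 * (q / M) := by ring
  rw [h9, hap, mul_assoc]
  have h10 : 1 ≤ (1 - 1 / (M : ℝ)) ^ q * (1 + 4 * ((q : ℝ) / M)) :=
    h8.trans (mul_le_mul_of_nonneg_right h6 (by linarith))
  calc Real.exp (-(q : ℝ)) = Real.exp (-(q : ℝ)) * 1 := (mul_one _).symm
    _ ≤ _ := mul_le_mul h5 h10 zero_le_one (pow_nonneg (pow_nonneg hxp _) _)

theorem NumA_two_qq (s : ℕ) : 2 * qq s ≤ 2 ^ mm s := by
  have h1 : qq s < 2 ^ qq s := Nat.lt_two_pow_self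
  have h2 : 2 ^ (qq s + 1) ≤ 2 ^ mm s := by
    refine Nat.pow_le_pow_right (by norm_num) ?_
    unfold mm
    omega
  rw [pow_succ] at h2
  omega

theorem zp_le_ap (n s : ℕ) : zp n s ≤ ap s * (1 + 4 * qq s / 2 ^ mm s) :=
  (zp_le_exp n s).trans (NumA_core (mm s) (qq s) (by unfold mm; omega) (NumA_two_qq s))

theorem ap_ge (s : ℕ) : (1 / 4 : ℝ) ^ qq s ≤ ap s := sat_ge (by unfold mm; omega) (qq s)

theorem zp_hi (n s : ℕ) : zp n s ≤ (2 / 5) ^ qq s := satC_le (wl n) (qq s)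

theorem zp_pos (n s : ℕ) : 0 < zp n s := by
  unfold zp
  have h := NumA_half_lt (m := wl n) (by unfold wl; omega)
  exact pow_pos (by linarith) _

theorem zp_le_half {s : ℕ} (hs : 4 ≤ s) (n : ℕ) : zp n s ≤ 1 / 2 := by
  refine (zp_hi n s).trans ?_
  calc (2 / 5 : ℝ) ^ qq s ≤ (2 / 5) ^ 2 :=
        pow_le_pow_of_le_one (by norm_num) (by norm_num) (two_le_qq hs)
    _ ≤ 1 / 2 := by norm_num

end Pool.Agent.H583R2.NC
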