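import Pool.Agent.H583R2.NC.Defs

/-!
# Few witnesses
-/

namespace Pool.Agent.H583R2.NC

open Pool.Agent.NPC Pool.Agent.H628R3.RO

/-- `L` is in `FewP` relative to `A`: there are a verifier computable in polynomial time relative
to `A` and a polynomial `p` such that each `x` has at most `p |x|` witnesses of length at most
`p |x|`, and `x` has a witness if and only if `x` is in `L`. -/
def IsFewP (A : Oracle) (L : Set (List Bool)) : Prop :=
  ∃ (F : List Bool → List Bool) (p : Polynomial ℕ), IsFP A F ∧ ∀ x,
    (x ∈ L ↔ ∃ w : List Bool, w.length ≤ p.eval x.length ∧ F (pairBits x w) = [true]) ∧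
    {w : List Bool | w.length ≤ p.eval x.length ∧ F (pairBits x w) = [true]}.ncard ≤
      p.eval x.length

open Classical in
/-- the number of hits in a slot -/
noncomputable def nhits (n s b i : ℕ) (A : Oracle) : ℕ :=
  ((slot n s b i).filter (fun κ => Hit (wl n) κ A)).card

end Pool.Agent.H583R2.NC
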