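import Pool.Agent.H583R2.NC.Mem
import Pool.Agent.H583R2.NC.FewDefs

/-!
Task F1: the language is in `FewP` and its complement as well.
-/

namespace Pool.Agent.H583R2.NC

open MeasureTheory Pool.Agent.NPC Pool.Agent.H628R3.RO Pool.Agent.H628R3.RO.G2

namespace Few

open Mem

/-- canonical form of a witness -/
def canW (w : List Bool) : List Bool :=
  pairBits ((unpair w).1.map (fun _ => true)) (unpair w).2

theorem canW_eq (w : List Bool) :
    canW w = pairBits (List.replicate (unpair w).1.length true) (unpair w).2 := by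
  unfold canW
  rw [List.map_const']

theorem canW_pair (c : ℕ) (v : List Bool) :
    canW (pairBits (List.replicate c true) v) = pairBits (List.replicate c true) v := by
  rw [canW_eq, unpair_pairBits, List.length_replicate]

/-- the test that a witness is canonical -/
def can (p : List Bool × List Bool) : Bool := decide (p.2 = canW p.2)

theorem poly_can : Poly can := by
  have h1 : Poly (fun p : List Bool × List Bool => p.2) := Poly.snd Poly.id
  have h2 : Poly (fun p : List Bool × List Bool => unpair p.2) := poly_unpair.comp h1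
  exact Poly.decide_eq h1 (Pool.Agent.H622R2.poly_pairBits
    (NPC.Poly.map (F := fun (_ : List Bool × List Bool) (_ : Bool) => true) (Poly.fst h2)
      (NPC.Poly.const true)) (Poly.snd h2))

/-- the witnesses inject into the hits -/
theorem ncard_le {A : Oracle} {n s b i : ℕ} (S : Set (List Bool))
    (h : ∀ w ∈ S, w = canW w ∧ ((b * KK s + i) * qq s ≤ (unpair w).1.length ∧
      (unpair w).1.length < (b * KK s + i + 1) * qq s ∧ (unpair w).2.length = wl n ∧
      Hit (wl n) ((unpair w).1.length, (unpair w).2) A)) : S.ncard ≤ nhits n s b i A := by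
  classical
  unfold nhits
  have hsub : S ⊆ ↑(((slot n s b i).filter (fun κ => Hit (wl n) κ A)).image
      (fun κ => pairBits (List.replicate κ.1 true) κ.2)) := by
    intro w hw
    obtain ⟨h0, h1, h2, h3, h4⟩ := h w hw
    rw [Finset.mem_coe, Finset.mem_image]
    refine ⟨((unpair w).1.length, (unpair w).2), ?_, ?_⟩
    · rw [Finset.mem_filter]
      exact ⟨mem_slot.2 ⟨h1, h2, h3⟩, h4⟩
    · simp only
      rw [← canW_eq]
      exact h0.symm
  refine (Set.ncard_le_ncard hsub (Finset.finite_toSet _)).trans ?_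
  rw [Set.ncard_coe_finset]
  exact (Finset.card_image_le).trans (le_of_eq (by congr))

section

variable {f : ℕ → Option ℕ} (hfn : ∀ n s, f n = some s → s ≤ n)

theorem n_le {x : List Bool} {D : Data} {s : ℕ} (h : dcd f x = some (D, s)) :
    D.1.length ≤ x.length := by
  obtain ⟨hx, -⟩ := dcd_eq.1 h
  rw [← hx, bits_length]
  have e1 := length_lt_sz D.1
  have e2 : sz D.1 ≤ sz D := by
    obtain ⟨l, b, j, L⟩ := D
    simp only [sz_pair]
    omega
  omega

theorem idx_lt {s : ℕ} {D : Data} (hS : Syn s D) (e : Bool) :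
    2 * D.2.2.1 + e.toNat < KK s := by
  have e6 := hS.2.1
  have e7 : KK s = 2 * JJ s := rfl
  have e8 : e.toNat ≤ 1 := Bool.toNat_le e
  omega

include hfn

/-- existence of short canonical witnesses -/
theorem exists_wit {P : Polynomial ℕ} (hP : ∀ s, BB s * KK s * qq s + BB s + KK s + JJ s + qq s
    + 2 ^ mm s + qq s * 2 ^ mm s ≤ P.eval s) {A : Oracle} {x : List Bool} {D : Data} {s : ℕ}
    {e : Bool} (h : dcd f x = some (D, s)) (hS : Syn s D)
    (hA : A ∉ Zero D.1.length s D.2.1 (2 * D.2.2.1 + e.toNat)) :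
    ∃ w : List Bool, w.length ≤ (Polynomial.C 2 * P + Polynomial.C 2 * Polynomial.X +
      Polynomial.C 9).eval x.length ∧
      (g2 f e (x, w) = true ∧ ∀ z ∈ q2 f (x, w), A z = true) ∧ can (x, w) = true := by
  obtain ⟨c, w, h1, h2, h3, h4⟩ := notMem_zero.1 hA
  obtain ⟨hx, hs⟩ := dcd_eq.1 h
  refine ⟨pairBits (List.replicate c true) w, ?_, ?_, ?_⟩
  · rw [A2.length_pairBits, List.length_replicate, h3]
    have hn : D.1.length ≤ x.length := n_le h
    have e3 : c < P.eval s := by
      have e4 : D.2.1 * KK s + (2 * D.2.2.1 + e.toNat) + 1 ≤ BB s * KK s := by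
        have e5 := hS.1
        have e6 := hS.2.1
        have e7 : KK s = 2 * JJ s := rfl
        have e8 : e.toNat ≤ 1 := Bool.toNat_le e
        calc D.2.1 * KK s + (2 * D.2.2.1 + e.toNat) + 1 ≤ D.2.1 * KK s + KK s := by omega
          _ = (D.2.1 + 1) * KK s := by ring
          _ ≤ BB s * KK s := Nat.mul_le_mul_right _ e5
      have e9 := Nat.mul_le_mul_right (qq s) e4
      have e10 := hP s
      have e11 := Nat.zero_le (2 ^ mm s)
      have e12 := Nat.zero_le (qq s * 2 ^ mm s)
      have e13 : BB s * KK s * qq s + (BB s + KK s + JJ s + qq s + 2 ^ mm s + qq s * 2 ^ mm s) ≤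
        P.eval s := by
        linarith
      have e14 : BB s * KK s * qq s ≤ P.eval s := (Nat.le_add_right _ _).trans e13
      omega
    have e4 : P.eval s ≤ P.eval x.length :=
      eval_mono P ((hfn _ _ hs).trans hn)
    simp only [Polynomial.eval_add, Polynomial.eval_mul, Polynomial.eval_C, Polynomial.eval_X]
    unfold wl
    omega
  · rw [wit_iff hfn h]
    simp only [unpair_pairBits, List.length_replicate]
    exact ⟨h1, h2, h3, h4⟩
  · unfold can
    simp only [decide_eq_true_eq]
    exact (canW_pair c w).symm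

end

end Few

open Mem

theorem isFewP_LL (A : Oracle) (f : ℕ → Option ℕ) (hf : Poly (fun x : List Unit => f x.length))
    (hfn : ∀ n s, f n = some s → s ≤ n) (k : ℕ) (hk : ∀ n s, f n = some s → ∀ b < BB s,
      ∀ i < KK s, nhits n s b i A ≤ n + k) : IsFewP A (LL f A) := by
  obtain ⟨P, hP⟩ := size_poly
  have key : ∀ x w, ver A (fun p => g1 f p && (g2 f false p && Few.can p))
      (fun p => q1 f p ++ q2 f p)
      (pairBits x w) = [true] ↔ (g1 f (x, w) = true ∧ ∀ z ∈ q1 f (x, w), A z = true) ∧
        (g2 f false (x, w) = true ∧ ∀ z ∈ q2 f (x, w), A z = true) ∧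
          Few.can (x, w) = true := by
    intro x w
    rw [ver_iff]
    simp only [Bool.and_eq_true, List.mem_append]
    constructor
    · rintro ⟨⟨h1, h2, h2'⟩, h3⟩
      exact ⟨⟨h1, fun z hz => h3 z (Or.inl hz)⟩, ⟨h2, fun z hz => h3 z (Or.inr hz)⟩, h2'⟩
    · rintro ⟨⟨h1, h2⟩, ⟨h3, h4⟩, h5⟩
      exact ⟨⟨h1, h3, h5⟩, fun z hz => hz.elim (h2 z) (h4 z)⟩
  refine ⟨ver A (fun p => g1 f p && (g2 f false p && Few.can p)) (fun p => q1 f p ++ q2 f p),
    (Polynomial.C 2 * P + Polynomial.C 2 * Polynomial.X + Polynomial.C 9) +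
      (Polynomial.X + Polynomial.C k),
    ver_isFP A (Poly.and (poly_g1 hf) (Poly.and (poly_g2 hf false) Few.poly_can))
      (Poly.append (poly_q1 hf) (poly_q2 hf)),
    fun x => ⟨?_, ?_⟩⟩
  · constructor
    · rintro ⟨D, s, h1, h2, h3, h4⟩
      have hd : dcd f x = some (D, s) := dcd_eq.2 ⟨h1, h2⟩
      obtain ⟨w, h5, h6, h7⟩ := Few.exists_wit hfn hP (e := false) hd h3.1 h4
      refine ⟨w, ?_, (key x w).2 ⟨(cert_iff hfn).2 ⟨D, s, hd, h3⟩, h6, h7⟩⟩
      rw [Polynomial.eval_add]
      exact h5.trans (Nat.le_add_right _ _)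
    · rintro ⟨w, -, h⟩
      obtain ⟨h1, h2, -⟩ := (key x w).1 h
      obtain ⟨D, s, hd, hc⟩ := (cert_iff hfn).1 h1
      rw [wit_iff hfn hd] at h2
      exact ⟨D, s, (dcd_eq.1 hd).1, (dcd_eq.1 hd).2, hc,
        notMem_zero.2 ⟨_, _, h2.1, h2.2.1, h2.2.2.1, h2.2.2.2⟩⟩
  · by_cases hex : ∃ D s, dcd f x = some (D, s) ∧ Cert A s D
    · obtain ⟨D, s, hd, hc⟩ := hex
      have h1 := Few.ncard_le (A := A) (n := D.1.length) (s := s) (b := D.2.1)
        (i := 2 * D.2.2.1 + false.toNat)
        {w : List Bool | w.length ≤ ((Polynomial.C 2 * P + Polynomial.C 2 * Polynomial.X +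
          Polynomial.C 9) + (Polynomial.X + Polynomial.C k)).eval x.length ∧
          ver A (fun p => g1 f p && (g2 f false p && Few.can p)) (fun p => q1 f p ++ q2 f p)
            (pairBits x w) = [true]} (fun w hw => by
          obtain ⟨-, h2, h3⟩ := (key x w).1 hw.2
          rw [wit_iff hfn hd] at h2
          refine ⟨?_, h2⟩
          unfold Few.can at h3
          simpa using h3)
      have h2 := hk _ _ (dcd_eq.1 hd).2 D.2.1 hc.1.1 _ (Few.idx_lt hc.1 false)
      have h3 := Few.n_le hd
      refine h1.trans (h2.trans ?_)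
      simp only [Polynomial.eval_add, Polynomial.eval_mul, Polynomial.eval_C, Polynomial.eval_X]
      omega
    · have h1 : {w : List Bool | w.length ≤ ((Polynomial.C 2 * P +
          Polynomial.C 2 * Polynomial.X +
          Polynomial.C 9) + (Polynomial.X + Polynomial.C k)).eval x.length ∧
          ver A (fun p => g1 f p && (g2 f false p && Few.can p)) (fun p => q1 f p ++ q2 f p)
            (pairBits x w) = [true]} = ∅ := by
        rw [Set.eq_empty_iff_forall_notMem]
        intro w hw
        obtain ⟨h1, -, -⟩ := (key x w).1 hw.2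
        exact hex ((cert_iff hfn).1 h1)
      rw [h1, Set.ncard_empty]
      exact Nat.zero_le _

theorem isFewP_LLc (A : Oracle) (f : ℕ → Option ℕ) (hf : Poly (fun x : List Unit => f x.length))
    (hfn : ∀ n s, f n = some s → s ≤ n) (hA : ∀ n s, f n = some s → A ∉ Inv n s)
    (k : ℕ) (hk : ∀ n s, f n = some s → ∀ b < BB s, ∀ i < KK s, nhits n s b i A ≤ n + k) :
    IsFewP A (LL f A)ᶜ := by
  obtain ⟨P, hP⟩ := size_poly
  -- for correct certificates exactly one of the two slots is zero
  have hex : ∀ x D s, dcd f x = some (D, s) → Cert A s D →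
      (A ∈ Zero D.1.length s D.2.1 (2 * D.2.2.1) ↔
        A ∉ Zero D.1.length s D.2.1 (2 * D.2.2.1 + 1)) := by
    intro x D s hd hc
    have hI := hA _ _ (dcd_eq.1 hd).2
    have hO := others hc
    constructor
    · intro h1 h2
      exact hI (Or.inr ⟨D.2.1, hc.1.1, D.2.2.1, hc.1.2.1, hO, h1, h2⟩)
    · intro h1
      by_contra h2
      refine hI (Or.inl ⟨D.2.1, hc.1.1, fun i hi => ?_⟩)
      by_cases h3 : i = 2 * D.2.2.1
      · rw [h3]; exact h2
      · by_cases h4 : i = 2 * D.2.2.1 + 1
        · rw [h4]; exact h1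
        · exact hO i hi h3 h4
  have hF : Poly (fun z : List Bool =>
      if (unpair z).1 = [true] then (unpair (unpair z).2).1 else (unpair (unpair z).2).2) :=
    Poly.ite (Poly.decide_eq (Poly.fst poly_unpair) (NPC.Poly.const _))
      (Poly.fst (poly_unpair.comp (Poly.snd poly_unpair)))
      (Poly.snd (poly_unpair.comp (Poly.snd poly_unpair)))
  have h3p : Poly (fun p : List Bool × List Bool => decide (p.2 = [])) :=
    Poly.decide_eq (Poly.snd Poly.id) (NPC.Poly.const _)
  have h4p : Poly (fun _ : List Bool × List Bool => ([] : List (List Bool))) :=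
    NPC.Poly.const _
  have hV := IsFP.comp (IsFP.of_poly (A := A) hF)
    (IsFP.pair (ver_isFP A (poly_g1 hf) (poly_q1 hf))
      (IsFP.pair (ver_isFP A (Poly.and (poly_g2 hf true) Few.poly_can) (poly_q2 hf))
        (ver_isFP A h3p h4p)))
  simp only [unpair_pairBits] at hV
  set F : List Bool → List Bool := fun y => if ver A (g1 f) (q1 f) y = [true] then
    ver A (fun p => g2 f true p && Few.can p) (q2 f) y else
      ver A (fun p => decide (p.2 = [])) (fun _ => []) y with hFdef
  have hV' : IsFP A F := hV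
  -- the accepted witnesses
  have acc1 : ∀ x D s, dcd f x = some (D, s) → Cert A s D → ∀ w,
      (F (pairBits x w) = [true] ↔ (g2 f true (x, w) = true ∧ ∀ z ∈ q2 f (x, w), A z = true) ∧
        Few.can (x, w) = true) := by
    intro x D s hd hc w
    rw [hFdef]
    simp only
    rw [if_pos (ver_iff.2 ((cert_iff hfn).2 ⟨D, s, hd, hc⟩)), ver_iff]
    simp only [Bool.and_eq_true]
    tauto
  have acc2 : ∀ x, ¬ (∃ D s, dcd f x = some (D, s) ∧ Cert A s D) → ∀ w,
      (F (pairBits x w) = [true] ↔ w = []) := by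
    intro x hx w
    rw [hFdef]
    simp only
    rw [if_neg fun h => hx ((cert_iff hfn).1 (ver_iff.1 h)), ver_iff]
    simp
  refine ⟨F, (Polynomial.C 2 * P + Polynomial.C 2 * Polynomial.X + Polynomial.C 9) +
      (Polynomial.X + Polynomial.C k), hV', fun x => ⟨?_, ?_⟩⟩
  · constructor
    · intro hx
      by_cases hc : ∃ D s, dcd f x = some (D, s) ∧ Cert A s D
      · obtain ⟨D, s, hd, hc⟩ := hc
        have h1 : A ∈ Zero D.1.length s D.2.1 (2 * D.2.2.1) := by
          by_contra h2
          exact hx ⟨D, s, (dcd_eq.1 hd).1, (dcd_eq.1 hd).2, hc, h2⟩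
        obtain ⟨w, h5, h6, h7⟩ := Few.exists_wit hfn hP (e := true) hd hc.1
          ((hex x D s hd hc).1 h1)
        refine ⟨w, ?_, (acc1 x D s hd hc w).2 ⟨h6, h7⟩⟩
        rw [Polynomial.eval_add]
        exact h5.trans (Nat.le_add_right _ _)
      · exact ⟨[], by simp, (acc2 x hc []).2 rfl⟩
    · rintro ⟨w, -, h⟩ ⟨D, s, h1, h2, h3, h4⟩
      have hd : dcd f x = some (D, s) := dcd_eq.2 ⟨h1, h2⟩
      obtain ⟨h5, -⟩ := (acc1 x D s hd h3 w).1 h
      rw [wit_iff hfn hd] at h5
      exact h4 ((hex x D s hd h3).2 (notMem_zero.2 ⟨_, _, h5.1, h5.2.1, h5.2.2.1, h5.2.2.2⟩))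
  · by_cases hc : ∃ D s, dcd f x = some (D, s) ∧ Cert A s D
    · obtain ⟨D, s, hd, hc⟩ := hc
      have h1 := Few.ncard_le (A := A) (n := D.1.length) (s := s) (b := D.2.1)
        (i := 2 * D.2.2.1 + true.toNat)
        {w : List Bool | w.length ≤ ((Polynomial.C 2 * P + Polynomial.C 2 * Polynomial.X +
          Polynomial.C 9) + (Polynomial.X + Polynomial.C k)).eval x.length ∧
          F (pairBits x w) = [true]} (fun w hw => by
          obtain ⟨h2, h3⟩ := (acc1 x D s hd hc w).1 hw.2
          rw [wit_iff hfn hd] at h2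
          refine ⟨?_, h2⟩
          unfold Few.can at h3
          simpa using h3)
      have h2 := hk _ _ (dcd_eq.1 hd).2 D.2.1 hc.1.1 _ (Few.idx_lt hc.1 true)
      have h3 := Few.n_le hd
      refine h1.trans (h2.trans ?_)
      simp only [Polynomial.eval_add, Polynomial.eval_mul, Polynomial.eval_C, Polynomial.eval_X]
      omega
    · have h1 : {w : List Bool | w.length ≤ ((Polynomial.C 2 * P +
          Polynomial.C 2 * Polynomial.X +
          Polynomial.C 9) + (Polynomial.X + Polynomial.C k)).eval x.length ∧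
          F (pairBits x w) = [true]} ⊆ {[]} := by
        intro w hw
        exact (acc2 x hc w).1 hw.2
      refine (Set.ncard_le_ncard h1 (Set.finite_singleton _)).trans ?_
      rw [Set.ncard_singleton]
      simp only [Polynomial.eval_add, Polynomial.eval_mul, Polynomial.eval_C, Polynomial.eval_X]
      omega

end Pool.Agent.H583R2.NC
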