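import Pool.Agent.H583R2.NC.FewDefs
import Pool.Agent.H583R2.NC.Loc
import Pool.Agent.H583R2.NC.NumP
import Pool.Agent.H628R3.RO.C1

/-!
# The number of hits in a slot (task F2, helper287)
-/

set_option autoImplicit false

namespace Pool.Agent.H583R2.NC

open MeasureTheory Pool.Agent.NPC Pool.Agent.H628R3.RO

theorem FewProb_prob_all (m : ℕ) (T : Finset Cand) :
    prob {A | ∀ κ ∈ T, Hit m κ A} = (1 / 2) ^ (m * T.card) := by
  have h1 := prob_plant (S := Set.univ) MeasurableSet.univ (allSpots m T)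
  rw [Set.inter_univ, Set.preimage_univ, prob_univ', M2.card_allSpots, mul_one] at h1
  rw [← h1]
  congr 1
  ext A
  simp only [Set.mem_ofPred_eq]
  constructor
  · intro h x hx
    rw [mem_allSpots] at hx
    obtain ⟨κ, hκ, i, hi, rfl⟩ := hx
    exact h κ hκ i hi
  · intro h κ hκ i hi
    exact h _ (mem_allSpots.2 ⟨κ, hκ, i, hi, rfl⟩)

/-- many hits in a slot are improbable -/
theorem FewProb_slot (n s b i h : ℕ) :
    prob {A | h ≤ nhits n s b i A} ≤ (qq s : ℝ) ^ h / (h.factorial : ℝ) := by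
  classical
  have h1 : {A | h ≤ nhits n s b i A} ⊆
      ⋃ T ∈ (slot n s b i).powersetCard h, {A | ∀ κ ∈ T, Hit (wl n) κ A} := by
    intro A hA
    simp only [Set.mem_ofPred_eq] at hA
    unfold nhits at hA
    obtain ⟨T, hT, hc⟩ := Finset.exists_subset_card_eq hA
    simp only [Set.mem_iUnion, Set.mem_ofPred_eq]
    refine ⟨T, Finset.mem_powersetCard.2 ⟨fun κ hκ => ?_, hc⟩, fun κ hκ => ?_⟩
    · exact (Finset.mem_filter.1 (hT hκ)).1
    · exact (Finset.mem_filter.1 (hT hκ)).2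
  calc prob {A | h ≤ nhits n s b i A}
      ≤ prob (⋃ T ∈ (slot n s b i).powersetCard h, {A | ∀ κ ∈ T, Hit (wl n) κ A}) :=
        M2.prob_mono h1
    _ ≤ ∑ T ∈ (slot n s b i).powersetCard h, prob {A | ∀ κ ∈ T, Hit (wl n) κ A} :=
        measureReal_biUnion_finset_le _ _
    _ = ∑ T ∈ (slot n s b i).powersetCard h, (1 / 2 : ℝ) ^ (wl n * h) := by
        refine Finset.sum_congr rfl fun T hT => ?_
        rw [FewProb_prob_all, (Finset.mem_powersetCard.1 hT).2]
    _ = ((qq s * 2 ^ wl n).choose h : ℝ) * (1 / 2 : ℝ) ^ (wl n * h) := by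
        rw [Finset.sum_const, Finset.card_powersetCard, card_slot, nsmul_eq_mul]
    _ ≤ (((qq s * 2 ^ wl n : ℕ) : ℝ) ^ h / (h.factorial : ℝ)) * (1 / 2 : ℝ) ^ (wl n * h) := by
        refine mul_le_mul_of_nonneg_right ?_ (by positivity)
        exact_mod_cast Nat.choose_le_pow_div (α := ℝ) h (qq s * 2 ^ wl n)
    _ = (qq s : ℝ) ^ h / (h.factorial : ℝ) := by
        push_cast
        rw [mul_pow, ← pow_mul, div_mul_eq_mul_div, mul_assoc, ← mul_pow]
        norm_num

/-- numerical bound -/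
theorem FewProb_num (q h : ℕ) : (q : ℝ) ^ h / (h.factorial : ℝ) ≤
    ((2 : ℝ) ^ q) ^ 6 * (1 / 4) ^ h := by
  have h1 : (4 * (q : ℝ)) ^ h / (h.factorial : ℝ) ≤ Real.exp (4 * q) := by
    have h2 := Real.sum_le_exp_of_nonneg (x := 4 * (q : ℝ)) (by positivity) (h + 1)
    refine le_trans ?_ h2
    exact Finset.single_le_sum (f := fun i => (4 * (q : ℝ)) ^ i / (i.factorial : ℝ))
      (fun i _ => by positivity) (Finset.mem_range.2 (Nat.lt_succ_self h))
  have h3 : Real.exp (4 * q) ≤ ((2 : ℝ) ^ q) ^ 6 := by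
    have h4 : Real.exp 4 ≤ 2 ^ 6 := by
      have h5 := Real.exp_one_lt_d9
      have h6 : Real.exp 4 = Real.exp 1 ^ 4 := by
        rw [← Real.exp_nat_mul]
        norm_num
      rw [h6]
      calc Real.exp 1 ^ 4 ≤ (2.7182818286 : ℝ) ^ 4 :=
            pow_le_pow_left₀ (Real.exp_pos _).le h5.le 4
        _ ≤ 2 ^ 6 := by norm_num
    calc Real.exp (4 * q) = Real.exp 4 ^ q := by
          rw [← Real.exp_nat_mul]
          congr 1
          ring
      _ ≤ ((2 : ℝ) ^ 6) ^ q := pow_le_pow_left₀ (Real.exp_pos _).le h4 q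
      _ = ((2 : ℝ) ^ q) ^ 6 := by rw [← pow_mul, ← pow_mul, mul_comm]
  calc (q : ℝ) ^ h / (h.factorial : ℝ)
      = ((4 * (q : ℝ)) ^ h / (h.factorial : ℝ)) * (1 / 4) ^ h := by
        rw [mul_pow, div_mul_eq_mul_div, mul_right_comm, ← mul_pow]
        norm_num
    _ ≤ ((2 : ℝ) ^ q) ^ 6 * (1 / 4) ^ h := by
        refine mul_le_mul_of_nonneg_right (h1.trans h3) (by positivity)

theorem FewProb_qq {n s : ℕ} (h : s ≤ n) : 2 ^ qq s ≤ 2 * n + 1 := by
  rcases Nat.eq_zero_or_pos s with rfl | hs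
  · have : qq 0 = 0 := by
      unfold qq rr
      rw [Nat.size_zero, Nat.size_zero]
    rw [this]
    omega
  · have hr : 0 < rr s := Nat.size_pos.2 hs
    have h1 : 2 ^ qq s ≤ 2 * rr s := NumP_pow_size hr
    have h2 : rr s ≤ s := NumP_size_le s
    omega

theorem FewProb_summable (Q : Polynomial ℕ) :
    Summable fun n : ℕ => ((Q.eval n : ℕ) : ℝ) * (1 / 4) ^ n := by
  induction Q using Polynomial.induction_on' with
  | add P Q hP hQ =>
    have h := hP.add hQ
    refine h.congr fun n => ?_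
    rw [Polynomial.eval_add]
    push_cast
    ring
  | monomial k c =>
    have h : Summable fun n : ℕ => (n : ℝ) ^ k * (1 / 4 : ℝ) ^ n :=
      summable_pow_mul_geometric_of_norm_lt_one k (by norm_num)
    refine (h.mul_left (c : ℝ)).congr fun n => ?_
    rw [Polynomial.eval_monomial]
    push_cast
    ring

/-- some slot of the stage has too many hits -/
def Many (n : ℕ) : Set Oracle :=
  {A | ∃ s ≤ n, ∃ b < BB s, ∃ i < KK s, n + 1 ≤ nhits n s b i A}

theorem FewProb_many (P : Polynomial ℕ) (hP : ∀ s, BB s * KK s * qq s + BB s + KK s + JJ s + qq s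
    + 2 ^ mm s + qq s * 2 ^ mm s ≤ P.eval s) (n : ℕ) :
    prob (Many n) ≤ ((((Polynomial.X + 1) * P * (2 * Polynomial.X + 1) ^ 6 :
      Polynomial ℕ).eval n : ℕ) : ℝ) * (1 / 4) ^ n := by
  have h1 : Many n ⊆ ⋃ s ∈ Finset.range (n + 1), ⋃ b ∈ Finset.range (BB s),
      ⋃ i ∈ Finset.range (KK s), {A | n + 1 ≤ nhits n s b i A} := by
    rintro A ⟨s, hs, b, hb, i, hi, hA⟩
    simp only [Set.mem_iUnion, Finset.mem_range, Set.mem_ofPred_eq]
    exact ⟨s, by omega, b, hb, i, hi, hA⟩
  have h2 : ∀ s ∈ Finset.range (n + 1), prob (⋃ b ∈ Finset.range (BB s),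
      ⋃ i ∈ Finset.range (KK s), {A | n + 1 ≤ nhits n s b i A}) ≤
      ((P.eval n : ℕ) : ℝ) * ((2 * (n : ℝ) + 1) ^ 6 * (1 / 4) ^ n) := by
    intro s hs
    have hsn : s ≤ n := by
      have := Finset.mem_range.1 hs
      omega
    have h3 : prob (⋃ b ∈ Finset.range (BB s),
        ⋃ i ∈ Finset.range (KK s), {A | n + 1 ≤ nhits n s b i A}) ≤
        (BB s * KK s : ℝ) * ((qq s : ℝ) ^ (n + 1) / ((n + 1).factorial : ℝ)) := by
      calc prob (⋃ b ∈ Finset.range (BB s),
            ⋃ i ∈ Finset.range (KK s), {A | n + 1 ≤ nhits n s b i A})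
          ≤ ∑ b ∈ Finset.range (BB s), prob (⋃ i ∈ Finset.range (KK s),
            {A | n + 1 ≤ nhits n s b i A}) := measureReal_biUnion_finset_le _ _
        _ ≤ ∑ b ∈ Finset.range (BB s), ∑ i ∈ Finset.range (KK s),
            prob {A | n + 1 ≤ nhits n s b i A} :=
            Finset.sum_le_sum fun b _ => measureReal_biUnion_finset_le _ _
        _ ≤ ∑ b ∈ Finset.range (BB s), ∑ i ∈ Finset.range (KK s),
            ((qq s : ℝ) ^ (n + 1) / ((n + 1).factorial : ℝ)) :=
            Finset.sum_le_sum fun b _ => Finset.sum_le_sum fun i _ => FewProb_slot n s b i (n + 1)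
        _ = (BB s * KK s : ℝ) * ((qq s : ℝ) ^ (n + 1) / ((n + 1).factorial : ℝ)) := by
            rw [Finset.sum_const, Finset.sum_const, Finset.card_range, Finset.card_range,
              nsmul_eq_mul, nsmul_eq_mul]
            ring
    refine h3.trans ?_
    rcases Nat.eq_zero_or_pos (qq s) with h0 | h0
    · rw [h0]
      simp only [Nat.cast_zero, ne_eq, Nat.add_eq_zero_iff, one_ne_zero, and_false,
        not_false_eq_true, zero_pow, zero_div, mul_zero]
      positivity
    · have h4 : BB s * KK s ≤ P.eval n := by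
        have h5 := hP s
        have h6 : P.eval s ≤ P.eval n := eval_mono P hsn
        have h7 : BB s * KK s * 1 ≤ BB s * KK s * qq s := Nat.mul_le_mul_left _ h0
        rw [mul_one] at h7
        refine le_trans (h7.trans ?_) h6
        refine le_trans ?_ h5
        generalize BB s * KK s * qq s = a1
        generalize qq s * 2 ^ mm s = a2
        generalize 2 ^ mm s = a3
        omega
      have h5 : (BB s * KK s : ℝ) ≤ ((P.eval n : ℕ) : ℝ) := by exact_mod_cast h4
      have h6 := FewProb_num (qq s) (n + 1)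
      have h7 : ((2 : ℝ) ^ qq s) ≤ 2 * (n : ℝ) + 1 := by
        exact_mod_cast FewProb_qq hsn
      have h8 : ((2 : ℝ) ^ qq s) ^ 6 * (1 / 4) ^ (n + 1) ≤
          (2 * (n : ℝ) + 1) ^ 6 * (1 / 4) ^ n := by
        refine mul_le_mul (pow_le_pow_left₀ (by positivity) h7 6) ?_ (by positivity)
          (by positivity)
        exact pow_le_pow_of_le_one (by norm_num) (by norm_num) (Nat.le_succ n)
      exact mul_le_mul h5 (h6.trans h8) (by positivity) (by positivity)
  calc prob (Many n)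
      ≤ prob (⋃ s ∈ Finset.range (n + 1), ⋃ b ∈ Finset.range (BB s),
      ⋃ i ∈ Finset.range (KK s), {A | n + 1 ≤ nhits n s b i A}) := M2.prob_mono h1
    _ ≤ ∑ s ∈ Finset.range (n + 1), prob (⋃ b ∈ Finset.range (BB s),
      ⋃ i ∈ Finset.range (KK s), {A | n + 1 ≤ nhits n s b i A}) :=
        measureReal_biUnion_finset_le _ _
    _ ≤ ∑ s ∈ Finset.range (n + 1), ((P.eval n : ℕ) : ℝ) * ((2 * (n : ℝ) + 1) ^ 6 * (1 / 4) ^ n) :=
        Finset.sum_le_sum h2
    _ = _ := by
        rw [Finset.sum_const, Finset.card_range, nsmul_eq_mul]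
        simp only [Polynomial.eval_mul, Polynomial.eval_add, Polynomial.eval_X,
          Polynomial.eval_one, Polynomial.eval_pow, Polynomial.eval_ofNat]
        push_cast
        ring

theorem ae_nhits : ∀ᵐ A ∂randomOracle, ∃ k, ∀ n s, s ≤ n → ∀ b < BB s, ∀ i < KK s,
    nhits n s b i A ≤ n + k := by
  classical
  obtain ⟨P, hP⟩ := size_poly
  obtain ⟨Q, hQ⟩ : ∃ Q : Polynomial ℕ, Q = (Polynomial.X + 1) * P * (2 * Polynomial.X + 1) ^ 6 :=
    ⟨_, rfl⟩
  have hsum := FewProb_summable Q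
  have hbc := C1.borel_cantelli Many (C := ∑' n : ℕ, ((Q.eval n : ℕ) : ℝ) * (1 / 4) ^ n) (fun n => by
    calc ∑ i ∈ Finset.range n, prob (Many i)
        ≤ ∑ i ∈ Finset.range n, ((Q.eval i : ℕ) : ℝ) * (1 / 4) ^ i := by
          refine Finset.sum_le_sum fun i _ => ?_
          rw [hQ]
          exact FewProb_many P hP i
      _ ≤ _ := hsum.sum_le_tsum _ fun i _ => by positivity)
  have hae : ∀ᵐ A ∂randomOracle, ¬ ∃ᶠ i in Filter.atTop, A ∈ Many i := by
    rw [ae_iff]
    simpa only [not_not] using hbc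
  filter_upwards [hae] with A hA
  rw [Filter.not_frequently, Filter.eventually_atTop] at hA
  obtain ⟨N, hN⟩ := hA
  refine ⟨N * 2 ^ wl N, fun n s hs b hb i hi => ?_⟩
  rcases le_or_gt N n with hn | hn
  · have h1 := hN n hn
    by_contra h2
    apply h1
    exact ⟨s, hs, b, hb, i, hi, by omega⟩
  · have h1 : nhits n s b i A ≤ qq s * 2 ^ wl n := by
      unfold nhits
      rw [← card_slot n s b i]
      exact Finset.card_filter_le _ _
    have h2 : qq s ≤ N := by
      have h3 : qq s ≤ rr s := NumP_size_le _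
      have h4 : rr s ≤ s := NumP_size_le _
      omega
    have h3 : 2 ^ wl n ≤ 2 ^ wl N := by
      apply Nat.pow_le_pow_right (by norm_num)
      unfold wl
      omega
    have h4 : qq s * 2 ^ wl n ≤ N * 2 ^ wl N := Nat.mul_le_mul h2 h3
    omega

end Pool.Agent.H583R2.NC
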