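import Pool.Agent.H583R2.NC.Main
import Pool.Agent.H583R2.NC.Few
import Pool.Agent.H583R2.NC.FewProb

/-!
# `FewP ∩ coFewP` relative to a random oracle
-/

namespace Pool.Agent.H583R2.NC

open MeasureTheory Pool.Agent.NPC Pool.Agent.H628R3.RO

/-- The languages that are not reducible to a given set in `NP ∩ coNP` are of the form `LL f A`. -/
theorem npconp_main_f : ∀ᵐ A ∂randomOracle, ∀ K : Set (List Bool), IsNP A K → IsCoNP A K →
    ∃ f : ℕ → Option ℕ, Poly (fun x : List Unit => f x.length) ∧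
      (∀ n s, f n = some s → s ≤ n) ∧ (∀ n s, f n = some s → A ∉ Inv n s) ∧
      ¬ Red A (LL f A) K := by
  have := countable_poly2
  choose b hc hcore using fun q : (Bool → Alg) × (Bool → Polynomial ℕ) => ae_B q.1 q.2
  have hall : ∀ᵐ A ∂randomOracle, ∀ q : (Bool → Alg) × (Bool → Polynomial ℕ),
      (∀ n s, A ∉ Bad n s ∩ ErrN q.1 q.2 n) → ∃ (t : ℕ) (L : List (List Bool)),
      (∃ i0, ∀ i ≥ i0, A ∉ Inv (Tt (b q) t i)
        (lev Bad (fun n _ => ErrN q.1 q.2 n) t L (Tt (b q) t) i)) ∧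
      ∀ (r : Alg) (i0 : ℕ), ∃ i ≥ i0, A ∉ GoodR q.1 q.2 r (Tt (b q) t i)
        (lev Bad (fun n _ => ErrN q.1 q.2 n) t L (Tt (b q) t) i) := ae_all_iff.2 hcore
  filter_upwards [hall] with A hA K hK0 hK1
  obtain ⟨V0, p0, ⟨M0, hM0⟩, hV0⟩ := hK0
  obtain ⟨V1, p1, ⟨M1, hM1⟩, hV1⟩ := hK1
  set V : Bool → Alg := fun i => bif i then M1 else M0 with hV
  set p : Bool → Polynomial ℕ := fun i => bif i then p1 else p0 with hp
  have hw0 : ∀ x, Wit (V false) (p false) x A ↔ x ∈ K := by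
    intro x
    rw [hV0 x, Wit]
    refine exists_congr fun y => and_congr_right fun _ => ?_
    change M0.out A (pairBits x y) = some [true] ↔ _
    rw [hM0, Option.some.injEq]
  have hw1 : ∀ x, Wit (V true) (p true) x A ↔ x ∉ K := by
    intro x
    rw [← Set.mem_compl_iff, hV1 x, Wit]
    refine exists_congr fun y => and_congr_right fun _ => ?_
    change M1.out A (pairBits x y) = some [true] ↔ _
    rw [hM1, Option.some.injEq]
  obtain ⟨t, S, ⟨i1, h1⟩, h2⟩ := hA (V, p) (by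
    rintro n s ⟨_, x, _, h4⟩
    exact (hw1 x).1 (h4 true) ((hw0 x).1 (h4 false)))
  set f := schK Bad (fun n _ => ErrN V p n) (b (V, p)) t S (Tt (b (V, p)) t i1) with hf
  have hfn : ∀ n s, f n = some s → s ≤ n := fun n s h => schK_le h
  have hfA : ∀ n s, f n = some s → A ∉ Inv n s := by
    intro n s h
    obtain ⟨h3, i, rfl, rfl⟩ := eq_of_schK h
    exact h1 i ((strictMono_Tt (b (V, p)) t).le_iff_le.1 h3)
  have hpf : Poly (fun x : List Unit => f x.length) := p_schK' (hc (V, p)) t S _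
  refine ⟨f, hpf, hfn, hfA, ?_⟩
  rintro ⟨F, ⟨r, hr⟩, hF⟩
  obtain ⟨i, hi, h3⟩ := h2 r i1
  set n := Tt (b (V, p)) t i with hn
  set s := lev Bad (fun n _ => ErrN V p n) t S (Tt (b (V, p)) t) i with hs
  have hfi : f n = some s := schK_Tt ((strictMono_Tt (b (V, p)) t).monotone hi)
  have hIA : A ∉ Inv n s := hfA n s hfi
  refine h3 fun bb hbb j hj ho => ⟨_, hr _, ?_, ?_⟩
  · intro h
    rw [hw0, ← hF]
    exact (mem_LL_inst hfi hbb hj ho).2 h
  · intro h
    rw [hw1, ← hF]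
    intro h4
    have h5 := (mem_LL_inst hfi hbb hj ho).1 h4
    apply hIA
    left
    refine ⟨bb, hbb, fun i hi => ?_⟩
    by_cases h6 : i = 2 * j
    · rw [h6]; exact h5
    · by_cases h7 : i = 2 * j + 1
      · rw [h7]; exact h
      · exact ho i hi h6 h7

/-- With probability one, for every set `K` in `NP ∩ coNP` there is a set in `FewP ∩ coFewP` that is
not reducible to `K`. -/
theorem few_main : ∀ᵐ A ∂randomOracle, ∀ K : Set (List Bool), IsNP A K → IsCoNP A K →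
    ∃ L : Set (List Bool), IsFewP A L ∧ IsFewP A Lᶜ ∧ ¬ Red A L K := by
  filter_upwards [npconp_main_f, ae_nhits] with A hA hk K h0 h1
  obtain ⟨f, hf, hfn, hfA, hr⟩ := hA K h0 h1
  obtain ⟨k, hk⟩ := hk
  have hk' : ∀ n s, f n = some s → ∀ b < BB s, ∀ i < KK s, nhits n s b i A ≤ n + k :=
    fun n s h b hb i hi => hk n s (hfn n s h) b hb i hi
  exact ⟨LL f A, isFewP_LL A f hf hfn k hk', isFewP_LLc A f hf hfn hfA k hk', hr⟩

end Pool.Agent.H583R2.NC
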