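import Pool.Agent.H583R2.NC.NumB

/-! Task NUMC: numerical consequences. -/

namespace Pool.Agent.H583R2.NC

theorem ee_nonneg (s : ℕ) : 0 ≤ ee s := by
  unfold ee
  positivity

theorem ll_nonneg (s : ℕ) : 0 ≤ ll s := by
  unfold ll
  positivity

/-- `(1/2)^(r+5) ≤ 1/256` -/
theorem nc_half {s : ℕ} (hs : 4 ≤ s) : (1 / 2 : ℝ) ^ (rr s + 5) ≤ 1 / 256 := by
  have hr := three_le_rr hs
  calc (1 / 2 : ℝ) ^ (rr s + 5) ≤ (1 / 2 : ℝ) ^ 8 :=
        pow_le_pow_of_le_one (by norm_num) (by norm_num) (by omega)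
    _ = 1 / 256 := by norm_num

theorem nc_ee {s : ℕ} (hs : 4 ≤ s) : ee s * (32 * rr s + 5) ≤ 1 / 16 := by
  have hr : (3:ℝ) ≤ rr s := by exact_mod_cast three_le_rr hs
  have h := nc_half hs
  unfold ee
  rw [div_mul_eq_mul_div, div_le_iff₀ (by positivity)]
  calc (1 / 2 : ℝ) ^ (rr s + 5) * (32 * rr s + 5) ≤ 1 / 256 * (32 * rr s + 5) :=
        mul_le_mul_of_nonneg_right h (by positivity)
    _ ≤ 1 / 16 * (rr s : ℝ) ^ 2 := by nlinarith

theorem ee_le {s : ℕ} (hs : 4 ≤ s) : ee s ≤ 1 / 16 := by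
  have h := nc_ee hs
  have hr : (3:ℝ) ≤ rr s := by exact_mod_cast three_le_rr hs
  have h0 := ee_nonneg s
  nlinarith

theorem quiet_num {n s : ℕ} (hs : 4 ≤ s) (hn : s ≤ n) :
    (BB s : ℝ) * ((1 - zp n s) ^ KK s + KK s * zp n s * (1 - zp n s) ^ (KK s - 1)) ≤ 1 / 16 := by
  have hz := zp_le_half hs n
  have hzp := zp_pos n s
  have hJ := J_hi hs hn
  have hb := bad_hi hs hn
  have hK1 : 1 ≤ KK s := by
    have : 1 ≤ JJ s := by unfold JJ; exact Nat.le_add_left _ _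
    unfold KK
    omega
  have h1 : (1 - zp n s) ^ (KK s - 1) ≤ 2 * (1 - zp n s) ^ KK s := by
    obtain ⟨k, hk⟩ : ∃ k, KK s = k + 1 := ⟨KK s - 1, by omega⟩
    rw [hk, Nat.add_sub_cancel, pow_succ]
    have : 0 ≤ (1 - zp n s) ^ k := by
      apply pow_nonneg
      linarith
    nlinarith
  have h2 : (KK s : ℝ) * zp n s ≤ 16 * rr s + 2 := by
    unfold KK
    push_cast
    linarith
  have h3 : 0 ≤ (KK s : ℝ) * zp n s := by positivity
  have h4 : 0 ≤ (1 - zp n s) ^ KK s := by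
    apply pow_nonneg
    linarith
  have hr : (0:ℝ) ≤ rr s := Nat.cast_nonneg _
  have hB : (0:ℝ) ≤ BB s := Nat.cast_nonneg _
  calc (BB s : ℝ) * ((1 - zp n s) ^ KK s + KK s * zp n s * (1 - zp n s) ^ (KK s - 1))
      ≤ BB s * ((1 - zp n s) ^ KK s + (16 * rr s + 2) * (2 * (1 - zp n s) ^ KK s)) := by
        apply mul_le_mul_of_nonneg_left _ hB
        apply add_le_add le_rfl
        apply mul_le_mul h2 h1 _ (by positivity)
        apply pow_nonneg
        linarith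
    _ = (BB s * (1 - zp n s) ^ KK s) * (32 * rr s + 5) := by ring
    _ ≤ ee s * (32 * rr s + 5) := mul_le_mul_of_nonneg_right hb (by positivity)
    _ ≤ 1 / 16 := nc_ee hs

theorem two_num {n s : ℕ} (hs : 4 ≤ s) (hn : s ≤ n) : (JJ s : ℝ) * zp n s ^ 2 ≤ 10 := by
  have hJ := J_hi hs hn
  have hz := zp_le_half hs n
  have hzp := zp_pos n s
  have h1 : (rr s : ℝ) * zp n s ≤ 1 := by
    have e1 : (rr s : ℝ) ≤ 2 ^ qq s := by exact_mod_cast (rr_lt s).le
    calc (rr s : ℝ) * zp n s ≤ 2 ^ qq s * (2 / 5) ^ qq s :=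
          mul_le_mul e1 (zp_hi n s) hzp.le (by positivity)
      _ = (4 / 5) ^ qq s := by rw [← mul_pow]; norm_num
      _ ≤ 1 := pow_le_one₀ (by norm_num) (by norm_num)
  calc (JJ s : ℝ) * zp n s ^ 2 = (JJ s * zp n s) * zp n s := by ring
    _ ≤ (8 * rr s + 1) * zp n s := mul_le_mul_of_nonneg_right hJ hzp.le
    _ ≤ 10 := by nlinarith

theorem ll_num {n s : ℕ} (hs : 4 ≤ s) (hn : s ≤ n) :
    ll s ≤ JJ s * zp n s / (1 - zp n s) * (1 / 2 * (BB s * (1 - zp n s) ^ KK s)) := by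
  have hz := zp_le_half hs n
  have hzp := zp_pos n s
  have h1 := J_lo hs hn
  have h2 := bad_lo hs hn
  have hr : (3:ℝ) ≤ rr s := by exact_mod_cast three_le_rr hs
  have h3 : 4 * (rr s : ℝ) ≤ JJ s * zp n s / (1 - zp n s) := by
    rw [le_div_iff₀ (by linarith)]
    nlinarith
  calc ll s = 4 * rr s * (1 / 2 * ((1 / 2 : ℝ) ^ (rr s + 7) / (rr s : ℝ) ^ 2)) := by
        unfold ll
        rw [pow_succ (1 / 2 : ℝ) (rr s + 6)]
        field_simp
        norm_num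
    _ ≤ JJ s * zp n s / (1 - zp n s) * (1 / 2 * (BB s * (1 - zp n s) ^ KK s)) := by
        apply mul_le_mul h3 (by linarith) (by positivity)
        linarith [h3, hr]

end Pool.Agent.H583R2.NC
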