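import Pool.Agent.H583R2.NC.Defs
import Pool.Agent.H628R3.RO.D1

/-! Task PRB: probabilities. -/

namespace Pool.Agent.H583R2.NC

open MeasureTheory Pool.Agent.NPC Pool.Agent.H628R3.RO

namespace PRB

theorem mem_slot {n s b i : ℕ} {κ : Cand} : κ ∈ slot n s b i ↔
    (b * KK s + i) * qq s ≤ κ.1 ∧ κ.1 < (b * KK s + i + 1) * qq s ∧ κ.2.length = wl n := by
  unfold slot
  rw [mem_cands, Finset.mem_Ico, and_assoc]

theorem card_slot (n s b i : ℕ) : (slot n s b i).card = qq s * 2 ^ wl n := by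
  unfold slot
  rw [card_cands, Nat.card_Ico]
  congr 1
  rw [Nat.succ_mul, Nat.add_sub_cancel_left]

theorem slot_index {n s b i b' i' : ℕ} {κ : Cand} (h : κ ∈ slot n s b i)
    (h' : κ ∈ slot n s b' i') : b * KK s + i = b' * KK s + i' := by
  rw [mem_slot] at h h'
  by_contra hne
  rcases Nat.lt_or_gt_of_ne hne with h1 | h1
  · have h2 : (b * KK s + i + 1) * qq s ≤ (b' * KK s + i') * qq s := Nat.mul_le_mul_right _ h1
    omega
  · have h2 : (b' * KK s + i' + 1) * qq s ≤ (b * KK s + i) * qq s := Nat.mul_le_mul_right _ h1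
    omega

theorem slot_index' {n s b i b' i' : ℕ} {κ : Cand} (hi : i < KK s) (hi' : i' < KK s)
    (h : κ ∈ slot n s b i) (h' : κ ∈ slot n s b' i') : b = b' ∧ i = i' := by
  have h1 := slot_index h h'
  have h0 : 0 < KK s := by omega
  have h2 : (b * KK s + i) / KK s = b := by
    rw [mul_comm, Nat.mul_add_div h0, Nat.div_eq_of_lt hi, add_zero]
  have h3 : (b' * KK s + i') / KK s = b' := by
    rw [mul_comm, Nat.mul_add_div h0, Nat.div_eq_of_lt hi', add_zero]
  have h4 : b = b' := by rw [← h2, ← h3, h1]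
  subst h4
  exact ⟨rfl, by omega⟩

/-- the strings of block `b` -/
def sp (n s b : ℕ) : Set (List Bool) :=
  {x | ∃ i < KK s, ∃ κ ∈ slot n s b i, ∃ l < wl n, x = pos κ.1 l κ.2}

theorem finite_sp (n s b : ℕ) : (sp n s b).Finite := by
  have : sp n s b ⊆ ((allSpots (wl n) ((Finset.range (KK s)).biUnion (slot n s b)) :
      Finset (List Bool)) : Set (List Bool)) := by
    rintro x ⟨i, hi, κ, hκ, l, hl, rfl⟩
    rw [Finset.mem_coe, mem_allSpots]
    exact ⟨κ, Finset.mem_biUnion.2 ⟨i, Finset.mem_range.2 hi, hκ⟩, l, hl, rfl⟩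
  exact (Finset.finite_toSet _).subset this

theorem disjoint_sp {n s b b' : ℕ} (h : b ≠ b') : Disjoint (sp n s b) (sp n s b') := by
  rw [Set.disjoint_left]
  rintro x ⟨i, hi, κ, hκ, l, hl, rfl⟩ ⟨i', hi', κ', hκ', l', hl', h'⟩
  obtain ⟨h1, -, h3⟩ := pos_inj h'
  have h4 : κ = κ' := Prod.ext h1 h3
  subst h4
  exact h (slot_index' hi hi' hκ hκ').1

theorem length_sp {n s b : ℕ} {x : List Bool} (h : x ∈ sp n s b) : n < x.length := by
  obtain ⟨i, hi, κ, hκ, l, hl, rfl⟩ := h
  rw [length_pos, (mem_slot.1 hκ).2.2]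
  unfold wl
  omega

theorem loc_Zero {n s b i : ℕ} (hi : i < KK s) : Loc (sp n s b) (Zero n s b i) := by
  unfold Zero
  apply M2.loc_noHit
  intro κ hκ l hl
  exact ⟨i, hi, κ, hκ, l, hl, rfl⟩

theorem loc_AllHit (n s b : ℕ) : Loc (sp n s b) (AllHit n s b) := by
  intro A A' h
  unfold AllHit
  simp only [Set.mem_ofPred_eq]
  exact forall₂_congr fun i hi => not_congr (loc_Zero hi A A' h)

theorem loc_One (n s b : ℕ) : Loc (sp n s b) (One n s b) := by
  intro A A' h
  unfold One
  simp only [Set.mem_ofPred_eq]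
  exact exists_congr fun i₀ => and_congr_right fun hi₀ => and_congr (loc_Zero hi₀ A A' h)
    (forall₂_congr fun i hi => forall_congr' fun _ => not_congr (loc_Zero hi A A' h))

/-- the strings of the blocks other than `b` -/
def spo (n s b : ℕ) : Set (List Bool) := {x | ∃ b' < BB s, b' ≠ b ∧ x ∈ sp n s b'}

theorem finite_spo (n s b : ℕ) : (spo n s b).Finite := by
  have : spo n s b ⊆ ⋃ b' ∈ Finset.range (BB s), sp n s b' := by
    rintro x ⟨b', hb', -, hx⟩
    simp only [Set.mem_iUnion]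
    exact ⟨b', Finset.mem_range.2 hb', hx⟩
  exact (Set.Finite.biUnion (Finset.finite_toSet _) fun b' _ => finite_sp n s b').subset this

theorem loc_Quiet (n s b : ℕ) : Loc (spo n s b) (Quiet n s b) := by
  intro A A' h
  unfold Quiet
  simp only [Set.mem_ofPred_eq]
  refine forall₂_congr fun b' hb' => forall_congr' fun hne => ?_
  have h' : ∀ x ∈ sp n s b', A x = A' x := fun x hx => h x ⟨b', hb', hne, hx⟩
  exact and_congr (not_congr (loc_AllHit n s b' A A' h')) (not_congr (loc_One n s b' A A' h'))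

theorem loc_noHit' (m : ℕ) (W : Finset Cand) :
    Loc ((allSpots m W : Finset (List Bool)) : Set (List Bool)) (NoHit m W) := by
  apply M2.loc_noHit
  intro κ hκ i hi
  exact Finset.mem_coe.2 (mem_allSpots.2 ⟨κ, hκ, i, hi, rfl⟩)

theorem card_biUnion_slot (n s b : ℕ) (F : Finset ℕ) :
    (F.biUnion (slot n s b)).card = qq s * 2 ^ wl n * F.card := by
  rw [Finset.card_biUnion]
  · simp only [card_slot, Finset.sum_const, smul_eq_mul]
    rw [mul_comm]
  · intro i _ i' _ hne
    rw [Function.onFun, Finset.disjoint_left]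
    intro κ hκ hκ'
    have := slot_index hκ hκ'
    exact hne (by omega)

theorem base {K : Set (List Bool)} (hK : K.Finite) {η : Set Oracle} (hη : Loc K η)
    (n s b : ℕ) (F : Finset ℕ)
    (hd : ∀ i ∈ F, ∀ κ ∈ slot n s b i, ∀ l < wl n, pos κ.1 l κ.2 ∉ K) :
    prob (η ∩ {A | ∀ i ∈ F, A ∈ Zero n s b i}) = prob η * zp n s ^ F.card := by
  have h1 : {A : Oracle | ∀ i ∈ F, A ∈ Zero n s b i} =
      NoHit (wl n) (F.biUnion (slot n s b)) := by
    ext A
    simp only [Set.mem_ofPred_eq, Zero, NoHit, Finset.mem_biUnion]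
    constructor
    · rintro h κ ⟨i, hi, hκ⟩
      exact h i hi κ hκ
    · intro h i hi κ hκ
      exact h κ ⟨i, hi, hκ⟩
  rw [h1, prob_noHit_inter hK hη, card_biUnion_slot, pow_mul]
  · rfl
  · intro κ hκ l hl
    obtain ⟨i, hi, hκ'⟩ := Finset.mem_biUnion.1 hκ
    exact hd i hi κ hκ' l hl

theorem main {K : Set (List Bool)} (hK : K.Finite) {η : Set Oracle} (hη : Loc K η)
    (n s b : ℕ) (G : Finset ℕ) : ∀ (F : Finset ℕ), Disjoint F G →
    (∀ i ∈ F ∪ G, ∀ κ ∈ slot n s b i, ∀ l < wl n, pos κ.1 l κ.2 ∉ K) →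
    prob (η ∩ {A | (∀ i ∈ F, A ∈ Zero n s b i) ∧ ∀ i ∈ G, A ∉ Zero n s b i}) =
      prob η * (zp n s ^ F.card * (1 - zp n s) ^ G.card) := by
  classical
  induction G using Finset.induction_on with
  | empty =>
    intro F _ hd
    rw [Finset.union_empty] at hd
    have h := base hK hη n s b F hd
    simp only [Finset.notMem_empty, false_imp_iff, implies_true, and_true, Finset.card_empty,
      pow_zero, mul_one]
    exact h
  | insert i₀ G hi₀ ih =>
    intro F hFG hd
    rw [Finset.disjoint_insert_right] at hFG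
    obtain ⟨h1, h2⟩ := hFG
    have h3 := ih F h2 (fun i hi => hd i (by
      rw [Finset.mem_union, Finset.mem_insert]
      rcases Finset.mem_union.1 hi with h | h
      · exact Or.inl h
      · exact Or.inr (Or.inr h)))
    have h4 := ih (insert i₀ F) (by
      rw [Finset.disjoint_insert_left]
      exact ⟨hi₀, h2⟩) (fun i hi => hd i (by
      rw [Finset.mem_union, Finset.mem_insert]
      rw [Finset.mem_union, Finset.mem_insert] at hi
      tauto))
    have hm : MeasurableSet (Zero n s b i₀) := M2.measurableSet_noHit _ _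
    have h5 := M2.prob_inter_add_compl
      (η ∩ {A | (∀ i ∈ F, A ∈ Zero n s b i) ∧ ∀ i ∈ G, A ∉ Zero n s b i}) hm
    have h6 : η ∩ {A | (∀ i ∈ F, A ∈ Zero n s b i) ∧ ∀ i ∈ G, A ∉ Zero n s b i} ∩
        Zero n s b i₀ =
        η ∩ {A | (∀ i ∈ insert i₀ F, A ∈ Zero n s b i) ∧ ∀ i ∈ G, A ∉ Zero n s b i} := by
      ext A
      simp only [Set.mem_inter_iff, Set.mem_ofPred_eq, Finset.mem_insert, forall_eq_or_imp]
      tauto
    have h7 : η ∩ {A | (∀ i ∈ F, A ∈ Zero n s b i) ∧ ∀ i ∈ G, A ∉ Zero n s b i} ∩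
        (Zero n s b i₀)ᶜ =
        η ∩ {A | (∀ i ∈ F, A ∈ Zero n s b i) ∧ ∀ i ∈ insert i₀ G, A ∉ Zero n s b i} := by
      ext A
      simp only [Set.mem_inter_iff, Set.mem_ofPred_eq, Finset.mem_insert, forall_eq_or_imp,
        Set.mem_compl_iff]
      tauto
    rw [h6, h7, h4, h3, Finset.card_insert_of_notMem h1] at h5
    rw [Finset.card_insert_of_notMem hi₀, pow_succ (1 - zp n s)]
    have h8 : prob (η ∩ {A | (∀ i ∈ F, A ∈ Zero n s b i) ∧
        ∀ i ∈ insert i₀ G, A ∉ Zero n s b i}) =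
        prob η * (zp n s ^ F.card * (1 - zp n s) ^ G.card) -
        prob η * (zp n s ^ (F.card + 1) * (1 - zp n s) ^ G.card) := by linarith
    rw [h8, pow_succ]
    ring

theorem zp_nonneg (n s : ℕ) : 0 ≤ zp n s := by
  unfold zp
  apply pow_nonneg
  have : ((1 : ℝ) / 2) ^ wl n ≤ 1 := pow_le_one₀ (by norm_num) (by norm_num)
  linarith

theorem zp_le_one (n s : ℕ) : zp n s ≤ 1 := by
  unfold zp
  apply pow_le_one₀
  · have : ((1 : ℝ) / 2) ^ wl n ≤ 1 := pow_le_one₀ (by norm_num) (by norm_num)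
    linarith
  · have : 0 ≤ ((1 : ℝ) / 2) ^ wl n := by positivity
    linarith

theorem univ_slots (n s b : ℕ) (F G : Finset ℕ) (hFG : Disjoint F G) :
    prob {A | (∀ i ∈ F, A ∈ Zero n s b i) ∧ ∀ i ∈ G, A ∉ Zero n s b i} =
      zp n s ^ F.card * (1 - zp n s) ^ G.card := by
  have h := main (K := ∅) Set.finite_empty (η := Set.univ) (fun A A' _ => by simp) n s b G F hFG
    (fun i _ κ _ l _ => by simp)
  rw [Set.univ_inter, prob_univ', one_mul] at h
  exact h

theorem sum_le {N : ℕ} {f : ℕ → ℝ} {c : ℝ} (h : ∀ i < N, f i ≤ c) :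
    ∑ i ∈ Finset.range N, f i ≤ N * c := by
  have := Finset.sum_le_card_nsmul (Finset.range N) f c (fun i hi => h i (Finset.mem_range.1 hi))
  rwa [Finset.card_range, nsmul_eq_mul] at this

end PRB

/-- independence of the slots of one block, and of what happens elsewhere -/
theorem prob_slots {K : Set (List Bool)} (hK : K.Finite) {η : Set Oracle} (hη : Loc K η)
    (n s b : ℕ) (F G : Finset ℕ) (hFG : Disjoint F G)
    (hd : ∀ i ∈ F ∪ G, ∀ κ ∈ slot n s b i, ∀ l < wl n, pos κ.1 l κ.2 ∉ K) :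
    prob (η ∩ {A | (∀ i ∈ F, A ∈ Zero n s b i) ∧ ∀ i ∈ G, A ∉ Zero n s b i}) =
      prob η * (zp n s ^ F.card * (1 - zp n s) ^ G.card) :=
  PRB.main hK hη n s b G F hFG hd

theorem prob_AllHit (n s b : ℕ) : prob (AllHit n s b) = (1 - zp n s) ^ KK s := by
  have h := PRB.univ_slots n s b ∅ (Finset.range (KK s)) (Finset.disjoint_empty_left _)
  rw [Finset.card_empty, pow_zero, one_mul, Finset.card_range] at h
  rw [← h]
  congr 1
  ext A
  simp [AllHit]

theorem prob_One_le (n s b : ℕ) :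
    prob (One n s b) ≤ KK s * zp n s * (1 - zp n s) ^ (KK s - 1) := by
  have h1 : One n s b ⊆ ⋃ i₀ ∈ Finset.range (KK s), {A | (∀ i ∈ ({i₀} : Finset ℕ),
      A ∈ Zero n s b i) ∧ ∀ i ∈ (Finset.range (KK s)).erase i₀, A ∉ Zero n s b i} := by
    rintro A ⟨i₀, hi₀, h2, h3⟩
    simp only [Set.mem_iUnion]
    refine ⟨i₀, Finset.mem_range.2 hi₀, ?_, ?_⟩
    · intro i hi
      rw [Finset.mem_singleton.1 hi]
      exact h2
    · intro i hi
      rw [Finset.mem_erase, Finset.mem_range] at hi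
      exact h3 i hi.2 hi.1
  refine (M2.prob_mono h1).trans ?_
  refine (measureReal_biUnion_finset_le _ _).trans ?_
  rw [mul_assoc]
  apply PRB.sum_le
  intro i₀ hi₀
  have h4 := PRB.univ_slots n s b {i₀} ((Finset.range (KK s)).erase i₀) (by simp)
  rw [Finset.card_singleton, pow_one, Finset.card_erase_of_mem (Finset.mem_range.2 hi₀),
    Finset.card_range] at h4
  exact h4.le

theorem prob_Two_le (n s : ℕ) :
    prob (Two n s) ≤ BB s * JJ s * (zp n s ^ 2 * (1 - zp n s) ^ (KK s - 2)) := by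
  have h1 : Two n s ⊆ ⋃ b ∈ Finset.range (BB s), ⋃ j ∈ Finset.range (JJ s),
      {A | (∀ i ∈ ({2 * j, 2 * j + 1} : Finset ℕ), A ∈ Zero n s b i) ∧
        ∀ i ∈ Finset.range (KK s) \ {2 * j, 2 * j + 1}, A ∉ Zero n s b i} := by
    rintro A ⟨b, hb, j, hj, h2, h3, h4⟩
    simp only [Set.mem_iUnion]
    refine ⟨b, Finset.mem_range.2 hb, j, Finset.mem_range.2 hj, ?_, ?_⟩
    · intro i hi
      rw [Finset.mem_insert, Finset.mem_singleton] at hi
      rcases hi with rfl | rfl
      · exact h3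
      · exact h4
    · intro i hi
      simp only [Finset.mem_sdiff, Finset.mem_range, Finset.mem_insert, Finset.mem_singleton,
        not_or] at hi
      exact h2 i hi.1 hi.2.1 hi.2.2
  refine (M2.prob_mono h1).trans ?_
  refine (measureReal_biUnion_finset_le _ _).trans ?_
  rw [mul_assoc]
  apply PRB.sum_le
  intro b hb
  refine (measureReal_biUnion_finset_le _ _).trans ?_
  apply PRB.sum_le
  intro j hj
  have h4 := PRB.univ_slots n s b {2 * j, 2 * j + 1} (Finset.range (KK s) \ {2 * j, 2 * j + 1})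
    Finset.disjoint_sdiff
  have h5 : ({2 * j, 2 * j + 1} : Finset ℕ).card = 2 := Finset.card_pair (by omega)
  have h6 : ({2 * j, 2 * j + 1} : Finset ℕ) ⊆ Finset.range (KK s) := by
    intro i hi
    rw [Finset.mem_insert, Finset.mem_singleton] at hi
    rw [Finset.mem_range]
    unfold KK
    omega
  rw [Finset.card_sdiff_of_subset h6, h5, Finset.card_range] at h4
  exact h4.le

theorem prob_Bad_le (n s : ℕ) : prob (Bad n s) ≤ BB s * (1 - zp n s) ^ KK s := by
  have h1 : Bad n s ⊆ ⋃ b ∈ Finset.range (BB s), AllHit n s b := by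
    rintro A ⟨b, hb, h⟩
    simp only [Set.mem_iUnion]
    exact ⟨b, Finset.mem_range.2 hb, h⟩
  refine (M2.prob_mono h1).trans ?_
  refine (measureReal_biUnion_finset_le _ _).trans ?_
  apply PRB.sum_le
  intro b hb
  exact (prob_AllHit n s b).le

theorem PRB.indep (n s B : ℕ) : prob {A | ∀ b < B, A ∉ AllHit n s b} =
    (1 - (1 - zp n s) ^ KK s) ^ B := by
  induction B with
  | zero =>
    have : {A : Oracle | ∀ b < 0, A ∉ AllHit n s b} = Set.univ := by ext A; simp
    rw [this, prob_univ', pow_zero]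
  | succ B ih =>
    have h1 : {A : Oracle | ∀ b < B + 1, A ∉ AllHit n s b} =
        {A | ∀ b < B, A ∉ AllHit n s b} ∩ (AllHit n s B)ᶜ := by
      ext A
      simp only [Set.mem_ofPred_eq, Set.mem_inter_iff, Set.mem_compl_iff]
      constructor
      · intro h
        exact ⟨fun b hb => h b (by omega), h B (by omega)⟩
      · rintro ⟨h, h'⟩ b hb
        rcases Nat.lt_or_ge b B with h2 | h2
        · exact h b h2
        · have : b = B := by omega
          rw [this]
          exact h'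
    have h2 : Loc (⋃ b ∈ Finset.range B, PRB.sp n s b) {A : Oracle | ∀ b < B, A ∉ AllHit n s b} := by
      intro A A' h
      simp only [Set.mem_ofPred_eq]
      refine forall₂_congr fun b hb => not_congr (PRB.loc_AllHit n s b A A' fun x hx => h x ?_)
      simp only [Set.mem_iUnion]
      exact ⟨b, Finset.mem_range.2 hb, hx⟩
    have h3 : Disjoint (⋃ b ∈ Finset.range B, PRB.sp n s b) (PRB.sp n s B) := by
      rw [Set.disjoint_left]
      intro x hx hx'
      simp only [Set.mem_iUnion] at hx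
      obtain ⟨b, hb, hx⟩ := hx
      rw [Finset.mem_range] at hb
      exact Set.disjoint_left.1 (PRB.disjoint_sp (by omega)) hx hx'
    have h4 : (⋃ b ∈ Finset.range B, PRB.sp n s b).Finite :=
      Set.Finite.biUnion (Finset.finite_toSet _) fun b' _ => PRB.finite_sp n s b'
    rw [h1, prob_inter_of_disjoint h4 (PRB.finite_sp n s B) h3 h2 (M2.Loc.compl (PRB.loc_AllHit n s B)), ih]
    have h5 := M2.prob_inter_add_compl Set.univ
      (measurableSet_of_loc (PRB.finite_sp n s B) (PRB.loc_AllHit n s B))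
    rw [Set.univ_inter, Set.univ_inter, prob_univ', prob_AllHit] at h5
    rw [pow_succ]
    congr 1
    linarith

theorem prob_Bad_ge (n s : ℕ) (h : (BB s : ℝ) * (1 - zp n s) ^ KK s ≤ 1) :
    1 / 2 * (BB s * (1 - zp n s) ^ KK s) ≤ prob (Bad n s) := by
  have h1 : Set.univ ⊆ Bad n s ∪ {A : Oracle | ∀ b < BB s, A ∉ AllHit n s b} := by
    intro A _
    by_cases hA : A ∈ Bad n s
    · exact Or.inl hA
    · refine Or.inr ?_
      intro b hb h'
      exact hA ⟨b, hb, h'⟩
  have h2 := (M2.prob_mono h1).trans (M2.prob_union_le _ _)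
  rw [prob_univ', PRB.indep] at h2
  set a : ℝ := (1 - zp n s) ^ KK s with ha
  have ha0 : 0 ≤ a := pow_nonneg (by linarith [PRB.zp_le_one n s]) _
  have ha1 : a ≤ 1 := pow_le_one₀ (by linarith [PRB.zp_le_one n s])
    (by linarith [PRB.zp_nonneg n s])
  have h3 : 1 + BB s * a ≤ (1 + a) ^ BB s := one_add_mul_le_pow (by linarith) _
  have h4 : (1 - a) ^ BB s * (1 + a) ^ BB s ≤ 1 := by
    rw [← mul_pow]
    apply pow_le_one₀
    · nlinarith
    · nlinarith
  have h5 : 0 ≤ (1 - a) ^ BB s := pow_nonneg (by linarith) _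
  have h6 : (1 - a) ^ BB s * (1 + BB s * a) ≤ 1 :=
    (mul_le_mul_of_nonneg_left h3 h5).trans h4
  have h7 : (0 : ℝ) ≤ BB s * a := by positivity
  -- let `x = BB s * a ∈ [0, 1]`, `y = (1 - a) ^ BB s`; `y (1 + x) ≤ 1` gives `y ≤ 1 - x / 2`
  set x : ℝ := BB s * a with hx
  set y : ℝ := (1 - a) ^ BB s with hy
  have h8 : y ≤ 1 - x / 2 := by
    by_contra hc
    push Not at hc
    nlinarith [mul_nonneg h7 (sub_nonneg.2 h)]
  linarith

theorem prob_Quiet_ge (n s b : ℕ) : 1 - BB s * ((1 - zp n s) ^ KK s +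
    KK s * zp n s * (1 - zp n s) ^ (KK s - 1)) ≤ prob (Quiet n s b) := by
  have h1 : Set.univ ⊆ Quiet n s b ∪ ⋃ b' ∈ Finset.range (BB s), (AllHit n s b' ∪ One n s b') := by
    intro A _
    by_cases hA : A ∈ Quiet n s b
    · exact Or.inl hA
    · refine Or.inr ?_
      unfold Quiet at hA
      simp only [Set.mem_ofPred_eq] at hA
      push Not at hA
      obtain ⟨b', hb', -, h⟩ := hA
      simp only [Set.mem_iUnion]
      refine ⟨b', Finset.mem_range.2 hb', ?_⟩
      by_cases h' : A ∈ AllHit n s b'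
      · exact Or.inl h'
      · exact Or.inr (h h')
  have h2 := (M2.prob_mono h1).trans (M2.prob_union_le _ _)
  rw [prob_univ'] at h2
  have h3 : prob (⋃ b' ∈ Finset.range (BB s), (AllHit n s b' ∪ One n s b')) ≤
      BB s * ((1 - zp n s) ^ KK s + KK s * zp n s * (1 - zp n s) ^ (KK s - 1)) := by
    refine (measureReal_biUnion_finset_le _ _).trans ?_
    apply PRB.sum_le
    intro b' _
    refine (M2.prob_union_le _ _).trans ?_
    exact add_le_add (prob_AllHit n s b').le (prob_One_le n s b')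
  linarith

theorem prob_eta {n s t b j : ℕ} (ht : t ≤ n) {η : Set Oracle} (hη : Loc {x | x.length ≤ t} η)
    (hb : b < BB s) (hj : j < JJ s) :
    prob (η ∩ (Quiet n s b ∩ Others n s b j)) =
      prob η * prob (Quiet n s b) * (1 - zp n s) ^ (KK s - 2) := by
  have hKt : ({x | x.length ≤ t} : Set (List Bool)).Finite := List.finite_length_le Bool t
  have hdis : Disjoint ({x | x.length ≤ t} : Set (List Bool)) (PRB.spo n s b) := by
    rw [Set.disjoint_left]
    rintro x hx ⟨b', -, -, hx'⟩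
    have h1 := PRB.length_sp hx'
    have h2 : x.length ≤ t := hx
    omega
  have h1 : prob (η ∩ Quiet n s b) = prob η * prob (Quiet n s b) :=
    prob_inter_of_disjoint hKt (PRB.finite_spo n s b) hdis hη (PRB.loc_Quiet n s b)
  have h2 : Loc ({x | x.length ≤ t} ∪ PRB.spo n s b) (η ∩ Quiet n s b) :=
    M2.Loc.inter (M2.Loc.mono hη Set.subset_union_left)
      (M2.Loc.mono (PRB.loc_Quiet n s b) Set.subset_union_right)
  have h6 : ({2 * j, 2 * j + 1} : Finset ℕ) ⊆ Finset.range (KK s) := by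
    intro i hi
    rw [Finset.mem_insert, Finset.mem_singleton] at hi
    rw [Finset.mem_range]
    unfold KK
    omega
  have h3 := prob_slots (hKt.union (PRB.finite_spo n s b)) h2 n s b ∅
    (Finset.range (KK s) \ {2 * j, 2 * j + 1}) (Finset.disjoint_empty_left _) (by
      intro i hi κ hκ l hl hx
      rw [Finset.empty_union, Finset.mem_sdiff, Finset.mem_range] at hi
      have h4 : pos κ.1 l κ.2 ∈ PRB.sp n s b := ⟨i, hi.1, κ, hκ, l, hl, rfl⟩
      rcases hx with hx | ⟨b', -, hne, hx⟩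
      · have h5 := PRB.length_sp h4
        have h6 : (pos κ.1 l κ.2).length ≤ t := hx
        omega
      · exact Set.disjoint_left.1 (PRB.disjoint_sp hne) hx h4)
  rw [Finset.card_sdiff_of_subset h6, Finset.card_pair (by omega : 2 * j ≠ 2 * j + 1),
    Finset.card_range, Finset.card_empty, pow_zero, one_mul, h1] at h3
  rw [← h3]
  congr 1
  ext A
  simp only [Others, Set.mem_inter_iff, Set.mem_ofPred_eq, Finset.notMem_empty, false_imp_iff,
    implies_true, true_and, Finset.mem_sdiff, Finset.mem_range, Finset.mem_insert,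
    Finset.mem_singleton, not_or, and_imp]
  tauto

end Pool.Agent.H583R2.NC
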