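import Pool.Agent.H583R2.NC.Defs
import Pool.Agent.H628R3.RO.C2

/-!
# The core of the construction, with weakened hypotheses

The version of `core_two` whose hypotheses are only asked for levels `4 ≤ s ≤ n`.
-/

namespace Pool.Agent.H583R2.NC

open MeasureTheory Filter Pool.Agent.NPC Pool.Agent.H628R3.RO Pool.Agent.H628R3.RO.C1
  Pool.Agent.H628R3.RO.C2

/-- the core for one cylinder, two-sided version -/
theorem core_gen_cyl {R : Type} [Countable R] (Bad Inv Err : ℕ → ℕ → Set Oracle)
    (Good : R → ℕ → ℕ → Set Oracle) (K : ℕ → ℕ → Finset (List Bool))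
    (hK : ∀ n s, ∀ x ∈ K n s, n < x.length)
    (hKd : ∀ n n' s s', n ≠ n' → Disjoint (K n s) (K n' s'))
    (hBad : ∀ n s, Loc (K n s) (Bad n s))
    (b : Polynomial ℕ) (hErr : ∀ n s, MeasurableSet (Err n s))
    (hGood : ∀ r, ∃ b' : Polynomial ℕ, ∀ n s, s ≤ n →
      Loc {x | x.length ≤ b'.eval (2 ^ n)} (Good r n s))
    (e l : ℕ → ℝ) (he0 : ∀ s, 0 ≤ e s) (he : Summable e) (he4 : ∀ s ≥ 4, e s ≤ 1 / 16)
    (h1 : ∀ n s, 4 ≤ s → s ≤ n → prob (Bad n s) ≤ e s) (C : ℝ)
    (hC : ∀ n s, 4 ≤ s → s ≤ n → prob (Inv n s) ≤ C * prob (Bad n s))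
    (h2 : ∀ s, 4 ≤ s → ∃ c > 0, ∀ n ≥ s, c ≤ prob (Bad n s))
    (hl0 : ∀ s, 0 ≤ l s) (hl : ¬ Summable l)
    (key : ∀ r : R, ∃ n0, ∀ n ≥ n0, ∀ s, 4 ≤ s → s ≤ n → ∀ t < n, ∀ η : Set Oracle,
      Loc {x | x.length ≤ t} η →
      l s * (7 / 8 * prob η - prob (η ∩ (Bad n s ∩ Err n s)) / prob (Bad n s)) ≤
        prob (η ∩ (Good r n s)ᶜ))
    (hb : ∀ m, m ≤ b.eval m) (t : ℕ) (L : List (List Bool)) (B : Set Oracle)
    (hBV : ∀ A ∈ B, ∀ n s, A ∉ Bad n s ∩ Err n s)
    (hBQ : ∀ A ∈ B, (∀ k, ∃ i ≥ k, A ∈ Inv (Tt b t i) (lev Bad Err t L (Tt b t) i)) ∨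
      ∃ r k, ∀ i ≥ k, A ∈ Good r (Tt b t i) (lev Bad Err t L (Tt b t) i))
    (hp : 0 < prob (cyl t L))
    (hd : (1 - 1 / 200) * prob (cyl t L) ≤ prob (B ∩ cyl t L)) : False := by
  classical
  set T : ℕ → ℕ := Tt b t with hTdef
  have hT : StrictMono T := strictMono_Tt b t
  have hTge : ∀ i, t + 4 + i ≤ T i := add_le_Tt b t
  set τ := cyl t L with hτd
  set lv := lev Bad Err t L T with hlv
  have hlvT : ∀ i, lv i ≤ T i := lev_le_Tt Bad Err b t L
  set Bi : ℕ → Set Oracle := fun i => Bad (T i) (lv i) with hBi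
  set Ei : ℕ → Set Oracle := fun i => Err (T i) (lv i) with hEi
  have hBm : ∀ n s, MeasurableSet (Bad n s) := fun n s =>
    measurableSet_of_loc (K n s).finite_toSet (hBad n s)
  have hBim : ∀ i, MeasurableSet (Bi i) := fun i => hBm _ _
  have hEim : ∀ i, MeasurableSet (Ei i) := fun i => hErr _ _
  have hτm : MeasurableSet τ := measurableSet_of_loc (finite_len t) (loc_cyl t L)
  have hdj : ∀ n s, t ≤ n → Disjoint {x : List Bool | x.length ≤ t} (K n s : Set (List Bool)) := by
    intro n s hn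
    rw [Set.disjoint_left]
    intro x hx hx'
    have := hK n s x hx'
    have h5 : x.length ≤ t := hx
    omega
  -- independence
  have ind1 : ∀ i, prob (τ ∩ Bi i) = prob τ * prob (Bi i) := fun i =>
    prob_inter_of_disjoint (finite_len t) (K (T i) (lv i)).finite_toSet
      (hdj _ _ (by have := hTge i; omega)) (loc_cyl t L) (hBad _ _)
  have ind2 : ∀ i l, i ≠ l → prob (τ ∩ (Bi i ∩ Bi l)) = prob τ * (prob (Bi i) * prob (Bi l)) := by
    intro i l hil
    have hTil : T i ≠ T l := fun h => hil (hT.injective h)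
    have h5 : prob (Bi i ∩ Bi l) = prob (Bi i) * prob (Bi l) :=
      prob_inter_of_disjoint (K (T i) (lv i)).finite_toSet (K (T l) (lv l)).finite_toSet
        (by exact_mod_cast hKd _ _ _ _ hTil) (hBad _ _) (hBad _ _)
    have h6 : prob (τ ∩ (Bi i ∩ Bi l)) = prob τ * prob (Bi i ∩ Bi l) := by
      apply prob_inter_of_disjoint (K := {x : List Bool | x.length ≤ t})
        (K' := (K (T i) (lv i) : Set (List Bool)) ∪ (K (T l) (lv l) : Set (List Bool)))
        (finite_len t) ((K (T i) (lv i)).finite_toSet.union (K (T l) (lv l)).finite_toSet)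
      · rw [Set.disjoint_union_right]
        exact ⟨hdj _ _ (by have := hTge i; omega), hdj _ _ (by have := hTge l; omega)⟩
      · exact loc_cyl t L
      · intro A A' h
        exact and_congr (hBad _ _ A A' fun x hx => h x (Or.inl hx))
          (hBad _ _ A A' fun x hx => h x (Or.inr hx))
    rw [h6, h5]
  -- the budget
  have hbud : ∀ F : Finset ℕ, (∀ i ∈ F, chk Bad Err t L (T i) (lv i) = false) →
      (∑ i ∈ F, prob (Bi i)) * (1 / 4 - ∑ i ∈ F, prob (Bi i)) ≤ 1 / 200 := by
    intro F hF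
    apply budget F hτm Bi Ei hBim hEim (fun i => prob (Bi i)) (fun i => pr_nonneg _) hp
    · intro i _ l _ hil
      exact ind2 i l hil
    · intro i hi
      rw [← ind1]
      exact chk_false (hF i hi)
    · have h5 : prob ((B ∩ τ) ∪ (τ ∩ ⋃ i ∈ F, (Bi i ∩ Ei i))) ≤ prob τ := by
        apply pr_mono
        rintro A (hA | hA)
        · exact hA.2
        · exact hA.1
      have h6 : Disjoint (B ∩ τ) (τ ∩ ⋃ i ∈ F, (Bi i ∩ Ei i)) := by
        rw [Set.disjoint_left]
        rintro A ⟨hA, _⟩ ⟨_, hA'⟩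
        simp only [Set.mem_iUnion] at hA'
        obtain ⟨i, _, hi⟩ := hA'
        exact hBV A hA _ _ hi
      have h7 : MeasurableSet (τ ∩ ⋃ i ∈ F, (Bi i ∩ Ei i)) :=
        hτm.inter (Finset.measurableSet_biUnion _ fun i _ => (hBim i).inter (hEim i))
      rw [pr_disj h6 h7] at h5
      linarith
  have heps : ∀ i, prob (Bi i) ≤ 1 / 16 := fun i =>
    (h1 _ _ (lev_ge i) (hlvT i)).trans (he4 _ (lev_ge i))
  have hsmall : ∀ F : Finset ℕ, (∀ i ∈ F, chk Bad Err t L (T i) (lv i) = false) →
      ∑ i ∈ F, prob (Bi i) < 1 / 16 := by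
    intro F
    induction F using Finset.induction_on with
    | empty => intro _; norm_num
    | insert a F ha ih =>
      intro hF
      have h5 := ih fun i hi => hF i (Finset.mem_insert_of_mem hi)
      have h6 := hbud (insert a F) hF
      have h7 : ∑ i ∈ insert a F, prob (Bi i) ≤ 1 / 8 := by
        rw [Finset.sum_insert ha]
        have := heps a
        linarith
      by_contra hcon
      push Not at hcon
      nlinarith
  -- infinitely many successes
  have hinf : ∀ k, ∃ i ≥ k, chk Bad Err t L (T i) (lv i) = true := by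
    by_contra hcon
    push Not at hcon
    obtain ⟨k, hk⟩ := hcon
    have hk' : ∀ i ≥ k, chk Bad Err t L (T i) (lv i) = false := fun i hi => by
      have := hk i hi
      simpa using this
    have hconst : ∀ d, lv (k + d) = lv k := by
      intro d
      induction d with
      | zero => rfl
      | succ d ih =>
        have e : lv (k + (d + 1)) =
            lv (k + d) + (chk Bad Err t L (T (k + d)) (lv (k + d))).toNat := rfl
        rw [e, hk' (k + d) (by omega), ih]
        rfl
    obtain ⟨c, hc, hcb⟩ := h2 (lv k) (lev_ge k)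
    obtain ⟨N, hN⟩ := exists_nat_gt (1 / 16 / c)
    have h5 := hsmall ((Finset.range N).image (fun d => k + d)) (by
      intro i hi
      obtain ⟨d, _, rfl⟩ := Finset.mem_image.1 hi
      exact hk' _ (by omega))
    rw [Finset.sum_image (fun a _ b _ h => by simpa using h)] at h5
    have h6 : ∑ d ∈ Finset.range N, c ≤ ∑ d ∈ Finset.range N, prob (Bi (k + d)) := by
      apply Finset.sum_le_sum
      intro d _
      have h7 : Bi (k + d) = Bad (T (k + d)) (lv k) := by
        simp only [hBi]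
        rw [hconst d]
      rw [h7]
      exact hcb _ (by have := hlvT (k + d); rwa [hconst d] at this)
    rw [Finset.sum_const, Finset.card_range, nsmul_eq_mul] at h6
    rw [div_lt_iff₀ hc] at hN
    linarith
  -- the levels tend to infinity
  have hlvinf : ∀ N, ∃ n, N ≤ lv n := by
    intro N
    induction N with
    | zero => exact ⟨0, Nat.zero_le _⟩
    | succ N ih =>
      obtain ⟨n, hn⟩ := ih
      obtain ⟨i, hi, hs⟩ := hinf n
      have hmono : lv n ≤ lv i := by
        have : Monotone lv := monotone_nat_of_le_succ fun j => by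
          have e : lv (j + 1) = lv j + (chk Bad Err t L (T j) (lv j)).toNat := rfl
          omega
        exact this hi
      refine ⟨i + 1, ?_⟩
      have e : lv (i + 1) = lv i + (chk Bad Err t L (T i) (lv i)).toNat := rfl
      rw [e, hs]
      have : (true).toNat = 1 := rfl
      omega
  -- summability
  have hsum : ∀ n, ∑ i ∈ Finset.range n, prob (Bi i) ≤ ∑' s, e s + 1 := by
    intro n
    have h5 := sum_lev (Bad := Bad) (Err := Err) (t := t) (L := L) (T := T) e n
    have h6 := hsmall ((Finset.range n).filter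
      (fun i => ¬ chk Bad Err t L (T i) (lv i) = true)) (by
        intro i hi
        have := (Finset.mem_filter.1 hi).2
        simpa using this)
    have h7 : ∑ i ∈ Finset.range n, prob (Bi i) =
        ∑ i ∈ Finset.range n, (if chk Bad Err t L (T i) (lv i) = true then prob (Bi i) else 0) +
        ∑ i ∈ (Finset.range n).filter (fun i => ¬ chk Bad Err t L (T i) (lv i) = true),
          prob (Bi i) := by
      rw [← Finset.sum_filter, Finset.sum_filter_add_sum_filter_not]
    have h8 : ∑ i ∈ Finset.range n,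
        (if chk Bad Err t L (T i) (lv i) = true then prob (Bi i) else 0) ≤
        ∑ i ∈ Finset.range n,
        (if chk Bad Err t L (T i) (lev Bad Err t L T i) = true then
          e (lev Bad Err t L T i) else 0) := by
      refine Finset.sum_le_sum fun i _ => ?_
      split_ifs
      · exact h1 _ _ (lev_ge i) (hlvT i)
      · exact le_rfl
    have h9 : ∑ s ∈ Finset.range (lev Bad Err t L T n), e s ≤ ∑' s, e s :=
      he.sum_le_tsum _ fun s _ => he0 s
    have h10 : 0 ≤ ∑ s ∈ Finset.range 4, e s := Finset.sum_nonneg fun s _ => he0 s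
    rw [h7]
    linarith
  have hBC := borel_cantelli (fun i => Inv (T i) (lv i)) (C := |C| * (∑' s, e s + 1)) (by
    intro n
    calc ∑ i ∈ Finset.range n, prob (Inv (T i) (lv i))
        ≤ ∑ i ∈ Finset.range n, |C| * prob (Bi i) := by
          refine Finset.sum_le_sum fun i _ => ?_
          refine (hC (T i) (lv i) (lev_ge i) (hlvT i)).trans ?_
          exact mul_le_mul_of_nonneg_right (le_abs_self C) (pr_nonneg _)
      _ = |C| * ∑ i ∈ Finset.range n, prob (Bi i) := by rw [Finset.mul_sum]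
      _ ≤ _ := mul_le_mul_of_nonneg_left (hsum n) (abs_nonneg C))
  -- the good events
  set U : Finset R × ℕ → Set Oracle := fun x =>
    τ ∩ {A | ∃ r ∈ x.1, ∀ i ≥ x.2, A ∈ Good r (T i) (lv i)} with hU
  have hdir : Directed (· ⊆ ·) U := by
    intro x y
    refine ⟨(x.1 ∪ y.1, max x.2 y.2), ?_, ?_⟩
    · rintro A ⟨hA, r, hr, hr'⟩
      exact ⟨hA, r, Finset.mem_union_left _ hr, fun i hi => hr' i (le_trans (le_max_left _ _) hi)⟩
    · rintro A ⟨hA, r, hr, hr'⟩
      exact ⟨hA, r, Finset.mem_union_right _ hr, fun i hi => hr' i (le_trans (le_max_right _ _) hi)⟩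
  have hUle : ∀ x, prob (U x) ≤ 1 / 2 * prob τ := by
    rintro ⟨R', k⟩
    -- where the reductions are local
    have hloc : ∀ r : R, ∃ N, ∀ i ≥ N, Loc {x | x.length ≤ T (i + 1) - 1}
        (Good r (T i) (lv i)) := by
      intro r
      obtain ⟨b', hb'⟩ := hGood r
      obtain ⟨N, hN⟩ := poly_le b' 1
      refine ⟨N, fun i hi => loc_mono (len_subset ?_) (hb' (T i) (lv i) (hlvT i))⟩
      have e0 : ∀ x : ℕ, x ≤ 2 ^ x := fun x => Nat.lt_two_pow_self.le
      have h5 : N ≤ 2 ^ (T i) := by
        have := hTge i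
        have := e0 (T i)
        omega
      have h6 := hN _ h5
      rw [one_mul] at h6
      have h7 : T (i + 1) = 2 ^ (2 ^ (b.eval (2 ^ (T i)) + 1)) + T i + 1 := rfl
      have h8 : 2 ^ (2 ^ (T i)) ≤ 2 ^ (2 ^ (b.eval (2 ^ (T i)) + 1)) := by
        refine Nat.pow_le_pow_right (by norm_num) ?_
        have h9 := hb (2 ^ (T i))
        have h10 := e0 (b.eval (2 ^ (T i)))
        have h11 : 2 ^ (b.eval (2 ^ (T i))) ≤ 2 ^ (b.eval (2 ^ (T i)) + 1) :=
          Nat.pow_le_pow_right (by norm_num) (by omega)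
        omega
      omega
    choose N1 hN1 using hloc
    choose N2 hN2 using key
    set k' := max k (max (R'.sup N1) (R'.sup N2)) with hk'
    have hk1 : k ≤ k' := le_max_left _ _
    have hk2 : ∀ r ∈ R', N1 r ≤ k' := fun r hr =>
      (Finset.le_sup hr).trans ((le_max_left _ _).trans (le_max_right _ _))
    have hk3 : ∀ r ∈ R', N2 r ≤ k' := fun r hr =>
      (Finset.le_sup hr).trans ((le_max_right _ _).trans (le_max_right _ _))
    have hpot := pot (τ := τ) (k := k') (q := fun i => T i - 1)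
      (G := fun r i => if chk Bad Err t L (T i) (lv i) = true then Good r (T i) (lv i)
        else Set.univ) R' hp
      (fun i j hij => Nat.sub_le_sub_right (hT.monotone hij) 1)
      (loc_mono (len_subset (by have := hTge k'; omega)) (loc_cyl t L))
      (by
        intro r hr i hi
        split_ifs
        · exact hN1 r i ((hk2 r hr).trans hi)
        · exact fun A A' _ => Iff.rfl)
      (fun i => if chk Bad Err t L (T i) (lv i) = true then Bi i ∩ Ei i else ∅)
      (by
        intro i
        split_ifs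
        · exact (hBim i).inter (hEim i)
        · exact MeasurableSet.empty)
      (fun i => if chk Bad Err t L (T i) (lv i) = true then prob (Bi i) else 1)
      (fun i => if chk Bad Err t L (T i) (lv i) = true then l (lv i) else 0)
      (by
        intro i
        split_ifs
        · obtain ⟨c, hc, hcb⟩ := h2 (lv i) (lev_ge i)
          exact hc.trans_le (hcb _ (hlvT i))
        · exact one_pos)
      (by
        intro i
        split_ifs
        · exact hl0 _
        · exact le_rfl)
      (by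
        intro i _
        split_ifs with h
        · have h5 := chk_true h
          have h6 := ind1 i
          have h7 : prob (τ ∩ Bi i) = prob (cyl t L ∩ Bad (T i) (lv i)) := rfl
          have h8 : prob (τ ∩ (Bi i ∩ Ei i)) =
            prob (cyl t L ∩ (Bad (T i) (lv i) ∩ Err (T i) (lv i))) := rfl
          rw [h8]
          linarith
        · have h5 : prob (τ ∩ (∅ : Set Oracle)) = 0 := by
            rw [Set.inter_empty]
            unfold prob
            exact measureReal_empty
          rw [h5]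
          positivity)
      (by
        intro r hr i hi η hη
        split_ifs with h
        · refine hN2 r (T i) ?_ (lv i) (lev_ge i) (hlvT i) (T i - 1) ?_ η hη
          · have := hk3 r hr
            have := hTge i
            omega
          · have := hTge i
            omega
        · rw [zero_mul]
          exact pr_nonneg _)
      (by
        intro M
        have h5 := (not_summable_iff_tendsto_nat_atTop_of_nonneg hl0).1 hl
        rw [tendsto_atTop_atTop] at h5
        obtain ⟨N, hN⟩ := h5 (M + 1 + ∑ s ∈ Finset.range 4, l s)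
        obtain ⟨n, hn⟩ := hlvinf N
        refine ⟨n, ?_⟩
        have h6 := sum_lev (Bad := Bad) (Err := Err) (t := t) (L := L) (T := T) l n
        have h7 := hN (lv n) hn
        have h8 : ∑ i ∈ Finset.range n,
            (if chk Bad Err t L (T i) (lv i) = true then l (lv i) else 0) =
            ∑ s ∈ Finset.range (lv n), l s - ∑ s ∈ Finset.range 4, l s := h6
        rw [h8]
        linarith)
    refine le_trans (pr_mono ?_) hpot
    rintro A ⟨hA, r, hr, hr'⟩
    refine ⟨hA, r, hr, fun i hi => ?_⟩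
    split_ifs
    · exact hr' i (hk1.trans hi)
    · exact Set.mem_univ A
  have hUn := dir_bound U hdir (c := 1 / 2 * prob τ) (by positivity) hUle
  have hcov : B ∩ τ ⊆ {A | ∃ᶠ i in atTop, A ∈ Inv (T i) (lv i)} ∪ ⋃ x, U x := by
    rintro A ⟨hA, hAτ⟩
    rcases hBQ A hA with h5 | ⟨r, k, h5⟩
    · left
      rw [Set.mem_ofPred_eq, Filter.frequently_atTop]
      exact h5
    · right
      rw [Set.mem_iUnion]
      exact ⟨({r}, k), hAτ, r, Finset.mem_singleton_self r, h5⟩
  have h8 : prob (B ∩ τ) ≤ 1 / 2 * prob τ := by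
    calc prob (B ∩ τ) ≤ prob ({A | ∃ᶠ i in atTop, A ∈ Inv (T i) (lv i)} ∪ ⋃ x, U x) :=
          pr_mono hcov
      _ ≤ prob {A | ∃ᶠ i in atTop, A ∈ Inv (T i) (lv i)} + prob (⋃ x, U x) := pr_union_le _ _
      _ ≤ 0 + 1 / 2 * prob τ := by
          have : prob {A | ∃ᶠ i in atTop, A ∈ Inv (T i) (lv i)} = 0 := by
            unfold prob Measure.real
            rw [hBC]
            rfl
          rw [this]
          linarith
      _ = 1 / 2 * prob τ := zero_add _
  linarith

theorem core_gen {R : Type} [Countable R] (Bad Inv Err : ℕ → ℕ → Set Oracle)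
    (Good : R → ℕ → ℕ → Set Oracle) (K : ℕ → ℕ → Finset (List Bool))
    (hK : ∀ n s, ∀ x ∈ K n s, n < x.length)
    (hKd : ∀ n n' s s', n ≠ n' → Disjoint (K n s) (K n' s'))
    (hBad : ∀ n s, Loc (K n s) (Bad n s)) (hInv : ∀ n s, MeasurableSet (Inv n s))
    (b : Polynomial ℕ) (hErr : ∀ n s, Loc {x | x.length ≤ b.eval (2 ^ n)} (Err n s))
    (hBad' : ∀ n s, s ≤ n → Loc {x | x.length ≤ b.eval (2 ^ n)} (Bad n s))
    (hGood : ∀ r, ∃ b' : Polynomial ℕ, ∀ n s, s ≤ n →
      Loc {x | x.length ≤ b'.eval (2 ^ n)} (Good r n s))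
    (e l : ℕ → ℝ) (he0 : ∀ s, 0 ≤ e s) (he : Summable e) (he4 : ∀ s ≥ 4, e s ≤ 1 / 16)
    (h1 : ∀ n s, 4 ≤ s → s ≤ n → prob (Bad n s) ≤ e s) (C : ℝ)
    (hC : ∀ n s, 4 ≤ s → s ≤ n → prob (Inv n s) ≤ C * prob (Bad n s))
    (h2 : ∀ s, 4 ≤ s → ∃ c > 0, ∀ n ≥ s, c ≤ prob (Bad n s))
    (hl0 : ∀ s, 0 ≤ l s) (hl : ¬ Summable l)
    (key : ∀ r : R, ∃ n0, ∀ n ≥ n0, ∀ s, 4 ≤ s → s ≤ n → ∀ t < n, ∀ η : Set Oracle,
      Loc {x | x.length ≤ t} η →
      l s * (7 / 8 * prob η - prob (η ∩ (Bad n s ∩ Err n s)) / prob (Bad n s)) ≤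
        prob (η ∩ (Good r n s)ᶜ))
    (hb : ∀ m, m ≤ b.eval m) :
    ∀ᵐ A ∂randomOracle, (∀ n s, A ∉ Bad n s ∩ Err n s) → ∃ (t : ℕ) (L : List (List Bool)),
      (∃ k, ∀ i ≥ k, A ∉ Inv (Tt b t i) (lev Bad Err t L (Tt b t) i)) ∧
      ∀ r k, ∃ i ≥ k, A ∉ Good r (Tt b t i) (lev Bad Err t L (Tt b t) i) := by
  classical
  have hBm : ∀ n s, MeasurableSet (Bad n s) := fun n s =>
    measurableSet_of_loc (K n s).finite_toSet (hBad n s)
  have hEm : ∀ n s, MeasurableSet (Err n s) := fun n s =>
    measurableSet_of_loc (finite_len _) (hErr n s)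
  have hGm : ∀ r n s, s ≤ n → MeasurableSet (Good r n s) := by
    intro r n s hs
    obtain ⟨b', hb'⟩ := hGood r
    exact measurableSet_of_loc (finite_len _) (hb' n s hs)
  set V : Set Oracle := ⋂ n, ⋂ s, (Bad n s ∩ Err n s)ᶜ with hV
  set Q : ℕ → List (List Bool) → Set Oracle := fun t L =>
    (⋂ k, ⋃ i, ⋃ (_ : i ≥ k), Inv (Tt b t i) (lev Bad Err t L (Tt b t) i)) ∪
    (⋃ r, ⋃ k, ⋂ i, ⋂ (_ : i ≥ k), Good r (Tt b t i) (lev Bad Err t L (Tt b t) i)) with hQ
  set B0 : Set Oracle := V ∩ ⋂ t, ⋂ L, Q t L with hB0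
  have hVm : MeasurableSet V := MeasurableSet.iInter fun n => MeasurableSet.iInter fun s =>
    ((hBm n s).inter (hEm n s)).compl
  have hQm : ∀ t L, MeasurableSet (Q t L) := by
    intro t L
    apply MeasurableSet.union
    · exact MeasurableSet.iInter fun k => MeasurableSet.iUnion fun i =>
        MeasurableSet.iUnion fun _ => hInv _ _
    · exact MeasurableSet.iUnion fun r => MeasurableSet.iUnion fun k =>
        MeasurableSet.iInter fun i => MeasurableSet.iInter fun _ =>
          hGm _ _ _ (lev_le_Tt Bad Err b t L i)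
  have hB0m : MeasurableSet B0 := hVm.inter (MeasurableSet.iInter fun t =>
    MeasurableSet.iInter fun L => hQm t L)
  have hmemV : ∀ A, A ∈ V ↔ ∀ n s, A ∉ Bad n s ∩ Err n s := by
    intro A
    simp only [hV, Set.mem_iInter, Set.mem_compl_iff]
  have hmemQ : ∀ A t L, A ∈ Q t L ↔
      (∀ k, ∃ i ≥ k, A ∈ Inv (Tt b t i) (lev Bad Err t L (Tt b t) i)) ∨
      ∃ r k, ∀ i ≥ k, A ∈ Good r (Tt b t i) (lev Bad Err t L (Tt b t) i) := by
    intro A t L
    simp only [hQ, Set.mem_union, Set.mem_iInter, Set.mem_iUnion, exists_prop]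
  have hzero : prob B0 = 0 := by
    by_contra hne
    have hpos : 0 < prob B0 := lt_of_le_of_ne (pr_nonneg _) (Ne.symm hne)
    obtain ⟨t, L, hp, hd⟩ := exists_cyl hB0m hpos (δ := 1 / 200) (by norm_num)
    refine core_gen_cyl Bad Inv Err Good K hK hKd hBad b hEm hGood e l he0 he he4 h1 C hC h2 hl0 hl
      key hb t L B0 ?_ ?_ hp hd
    · intro A hA
      exact (hmemV A).1 hA.1
    · intro A hA
      have h5 := hA.2
      simp only [Set.mem_iInter] at h5
      exact (hmemQ A t L).1 (h5 t L)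
  have hz : randomOracle B0 = 0 := by
    unfold prob at hzero
    rwa [measureReal_eq_zero_iff] at hzero
  rw [ae_iff]
  refine measure_mono_null ?_ hz
  intro A hA
  rw [Set.mem_ofPred_eq] at hA
  push Not at hA
  obtain ⟨hA1, hA2⟩ := hA
  refine ⟨(hmemV A).2 hA1, ?_⟩
  simp only [Set.mem_iInter]
  intro t L
  rw [hmemQ]
  by_cases h5 : ∃ k, ∀ i ≥ k, A ∉ Inv (Tt b t i) (lev Bad Err t L (Tt b t) i)
  · right
    obtain ⟨r, k, h6⟩ := hA2 t L h5
    exact ⟨r, k, h6⟩
  · left
    push Not at h5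
    exact h5

end Pool.Agent.H583R2.NC
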