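import Pool.Agent.H628R3.RO.BaseE
import Pool.Agent.NPC.Dec

/-!
# Hidden blocks: a language in `NP ∩ coNP` relative to a random oracle

Stage `n` of level `s` consists of `BB s` blocks, each with `KK s = 2 * JJ s` slots. A slot is
*zero* if none of its candidates is a hit. A block is dangerous if no slot is zero (`AllHit`) or if
exactly two partner slots `2 j`, `2 j + 1` are zero. The instances are the pairs (block, pair of
partner slots) together with certificates that all other slots are not zero.
-/

namespace Pool.Agent.H583R2.NC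

open MeasureTheory Pool.Agent.NPC Pool.Agent.H628R3.RO

/-- length of the strings used at stage `n` (and number of bits of a candidate) -/
def wl (n : ℕ) : ℕ := 2 * n + 8

/-- size of the level -/
def rr (s : ℕ) : ℕ := s.size

/-- number of copies of the strings of length `wl n` for one slot -/
def qq (s : ℕ) : ℕ := (rr s).size

/-- scale for the rational approximation -/
def mm (s : ℕ) : ℕ := 2 * qq s + 6

/-- numerator of the approximation of the probability that a slot is zero -/
def uu (s : ℕ) : ℕ := (2 ^ mm s - 1) ^ (qq s * 2 ^ mm s)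

/-- denominator of the approximation of the probability that a slot is zero -/
def vv (s : ℕ) : ℕ := (2 ^ mm s) ^ (qq s * 2 ^ mm s)

/-- number of pairs of partner slots in a block -/
def JJ (s : ℕ) : ℕ := 4 * rr s * vv s / uu s + 1

/-- number of slots in a block -/
def KK (s : ℕ) : ℕ := 2 * JJ s

/-- number of blocks -/
def BB (s : ℕ) : ℕ :=
  vv s ^ KK s / (2 ^ (rr s + 6) * rr s ^ 2 * (vv s - uu s) ^ KK s) + 1

/-- the probability that a slot is zero -/
noncomputable def zp (n s : ℕ) : ℝ := (1 - (1 / 2 : ℝ) ^ wl n) ^ (qq s * 2 ^ wl n)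

/-- bound for the probability of `Bad` -/
noncomputable def ee (s : ℕ) : ℝ := (1 / 2) ^ (rr s + 5) / (rr s : ℝ) ^ 2

/-- rate of failure of the reductions -/
noncomputable def ll (s : ℕ) : ℝ := (1 / 2) ^ (rr s + 6) / (rr s : ℝ)

/-- the candidates of slot `i` of block `b` -/
def slot (n s b i : ℕ) : Finset Cand :=
  cands (Finset.Ico ((b * KK s + i) * qq s) ((b * KK s + i + 1) * qq s)) (wl n)

/-- all candidates of the stage -/
def blk (n s : ℕ) : Finset Cand := cands (Finset.range (BB s * KK s * qq s)) (wl n)

/-- all strings of the stage -/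
def spotsB (n s : ℕ) : Finset (List Bool) := allSpots (wl n) (blk n s)

/-- the slot is zero -/
def Zero (n s b i : ℕ) : Set Oracle := NoHit (wl n) (slot n s b i)

/-- no slot of the block is zero -/
def AllHit (n s b : ℕ) : Set Oracle := {A | ∀ i < KK s, A ∉ Zero n s b i}

/-- no slot of the block outside of pair `j` is zero -/
def Others (n s b j : ℕ) : Set Oracle :=
  {A | ∀ i < KK s, i ≠ 2 * j → i ≠ 2 * j + 1 → A ∉ Zero n s b i}

/-- exactly one slot of the block is zero -/
def One (n s b : ℕ) : Set Oracle :=
  {A | ∃ i₀ < KK s, A ∈ Zero n s b i₀ ∧ ∀ i < KK s, i ≠ i₀ → A ∉ Zero n s b i}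

/-- some block has no zero slot -/
def Bad (n s : ℕ) : Set Oracle := {A | ∃ b < BB s, A ∈ AllHit n s b}

/-- some block has exactly two zero slots, and they are partners -/
def Two (n s : ℕ) : Set Oracle := {A | ∃ b < BB s, ∃ j < JJ s, A ∈ Others n s b j ∧
  A ∈ Zero n s b (2 * j) ∧ A ∈ Zero n s b (2 * j + 1)}

/-- the promise fails at this stage -/
def Inv (n s : ℕ) : Set Oracle := Bad n s ∪ Two n s

/-- no block other than `b` has at most one zero slot -/
def Quiet (n s b : ℕ) : Set Oracle :=
  {A | ∀ b' < BB s, b' ≠ b → A ∉ AllHit n s b' ∧ A ∉ One n s b'}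

/-! ### Instances -/

/-- the data of an instance: the stage `n` (in unary), the block, the pair, and a list of
candidates -/
abbrev Data : Type := List Unit × ℕ × ℕ × List (List Unit × List Bool)

/-- the candidate given by an entry of the list -/
def cd (κ : List Unit × List Bool) : Cand := (κ.1.length, κ.2)

/-- the conditions on the data of an instance that do not depend on the oracle -/
def Syn (s : ℕ) (D : Data) : Prop :=
  D.2.1 < BB s ∧ D.2.2.1 < JJ s ∧ (∀ κ ∈ D.2.2.2, κ.2.length = wl D.1.length) ∧
  ∀ i < KK s, i ≠ 2 * D.2.2.1 → i ≠ 2 * D.2.2.1 + 1 → ∃ κ ∈ D.2.2.2,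
    (D.2.1 * KK s + i) * qq s ≤ κ.1.length ∧ κ.1.length < (D.2.1 * KK s + i + 1) * qq s

/-- the certificates are correct -/
def Cert (A : Oracle) (s : ℕ) (D : Data) : Prop :=
  Syn s D ∧ ∀ κ ∈ D.2.2.2, Hit (wl D.1.length) (cd κ) A

/-- the language: the stages and their levels are given by `f` -/
def LL (f : ℕ → Option ℕ) (A : Oracle) : Set (List Bool) :=
  {x | ∃ (D : Data) (s : ℕ), bits D = x ∧ f D.1.length = some s ∧ Cert A s D ∧
    A ∉ Zero D.1.length s D.2.1 (2 * D.2.2.1)}

open Classical in
/-- a hit in the slot -/
noncomputable def pickHit (n s b i : ℕ) (A : Oracle) : Option (List Unit × List Bool) :=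
  (((slot n s b i).filter (fun κ => Hit (wl n) κ A)).toList.head?).map
    (fun κ => (List.replicate κ.1 (), κ.2))

/-- certificates for all slots outside of pair `j` -/
noncomputable def certs (n s b j : ℕ) (A : Oracle) : List (List Unit × List Bool) :=
  ((List.range (KK s)).filter (fun i => decide (i ≠ 2 * j ∧ i ≠ 2 * j + 1))).filterMap
    (fun i => pickHit n s b i A)

/-- the data of the instance `(b, j)` at stage `n` -/
noncomputable def instD (n s b j : ℕ) (A : Oracle) : Data :=
  (List.replicate n (), b, j, certs n s b j A)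

/-- the instance `(b, j)` at stage `n` -/
noncomputable def inst (n s b j : ℕ) (A : Oracle) : List Bool := bits (instD n s b j A)

/-- the reduction `r` works at stage `n`: here `V false`, `V true` are the verifiers for a set and
for its complement -/
def GoodR (V : Bool → Alg) (p : Bool → Polynomial ℕ) (r : Alg) (n s : ℕ) : Set Oracle :=
  {A | ∀ b < BB s, ∀ j < JJ s, A ∈ Others n s b j → ∃ y, r.out A (inst n s b j A) = some y ∧
    (A ∉ Zero n s b (2 * j) → Wit (V false) (p false) y A) ∧
    (A ∉ Zero n s b (2 * j + 1) → Wit (V true) (p true) y A)}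

end Pool.Agent.H583R2.NC
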