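import Pool.Agent.H583R2.NC.FewDefs
import Pool.Agent.H583R2.NC.Main

/-! Stubs. Never import this file in a finished file. -/

namespace Pool.Agent.H583R2.NC

open MeasureTheory Pool.Agent.NPC Pool.Agent.H628R3.RO

/-! ### Task F1 (file `NC/Few.lean`, imports Mem, FewDefs) -/

theorem isFewP_LL (A : Oracle) (f : ℕ → Option ℕ) (hf : Poly (fun x : List Unit => f x.length))
    (hfn : ∀ n s, f n = some s → s ≤ n) (k : ℕ) (hk : ∀ n s, f n = some s → ∀ b < BB s,
      ∀ i < KK s, nhits n s b i A ≤ n + k) : IsFewP A (LL f A) := by sorry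

theorem isFewP_LLc (A : Oracle) (f : ℕ → Option ℕ) (hf : Poly (fun x : List Unit => f x.length))
    (hfn : ∀ n s, f n = some s → s ≤ n) (hA : ∀ n s, f n = some s → A ∉ Inv n s)
    (k : ℕ) (hk : ∀ n s, f n = some s → ∀ b < BB s, ∀ i < KK s, nhits n s b i A ≤ n + k) :
    IsFewP A (LL f A)ᶜ := by sorry

/-! ### Task F2 (file `NC/FewProb.lean`, imports Loc, NumP, FewDefs) -/

theorem ae_nhits : ∀ᵐ A ∂randomOracle, ∃ k, ∀ n s, s ≤ n → ∀ b < BB s, ∀ i < KK s,
    nhits n s b i A ≤ n + k := by sorry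

end Pool.Agent.H583R2.NC
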