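import Pool.Agent.H628R3.RO.M5

/-!
# The key inequality for one pair of slots
-/

namespace Pool.Agent.H583R2.NC

open MeasureTheory Pool.Agent.H628R3.RO Pool.Agent.H628R3.RO.M2 Pool.Agent.H628R3.RO.M5

/-- The key inequality for one pair of slots: worlds with hits in one of the two slots only are
typical, worlds with hits in both slots are bad. -/
theorem key_pair {K : Set (List Bool)} (hK : K.Finite) {Z E η : Set Oracle} (hZ : Loc K Z)
    (hE : Loc K E) (hη : Loc K η) (W : Bool → Finset Cand) (hd : Disjoint (W false) (W true))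
    {m w : ℕ} (hm : 1 ≤ m) (hw : ∀ i, (W i).card = w) (t : ℕ)
    (hW : ∀ i, ∀ κ ∈ W i, ∀ l < m, pos κ.1 l κ.2 ∈ K)
    (hη' : ∀ (B : Oracle) (h : Finset Cand), h ⊆ W false ∪ W true →
      (plant (allSpots m h) B ∈ η ↔ B ∈ η))
    (hkey : ∀ B ∈ NoHit m (W false ∪ W true), ∃ (T : Finset Cand)
      (T' : Bool → Finset Cand → Finset Cand), T.card ≤ t ∧ (∀ i h, (T' i h).card ≤ t) ∧
      ∀ h : Bool → Finset Cand, (∀ i, h i ⊆ W i) → (∀ i, (h i).Nonempty) →
        (∀ i, Disjoint (h i) T) → (∀ i, Disjoint (h (!i)) (T' i (h i))) →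
        (∀ i, plant (allSpots m (h i)) B ∈ Z) →
        plant (allSpots m (h false ∪ h true)) B ∈ E) :
    (1 - (1 / 2 : ℝ) ^ m) ^ w *
      ((1 - (1 - (1 / 2 : ℝ) ^ m) ^ w) ^ 2 * prob η -
        4 * t * (1 / 2) ^ m * (1 - (1 - (1 / 2 : ℝ) ^ m) ^ w) * prob η -
        prob (η ∩ ((NoHit m (W false))ᶜ ∩ (NoHit m (W true))ᶜ ∩ E))) ≤
      (1 - (1 - (1 / 2 : ℝ) ^ m) ^ w) * prob (η ∩ Zᶜ) := by
  classical
  set q : ℝ := (1 / 2) ^ m with hq
  have hq0 : 0 < q := by positivity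
  have hq1 : q ≤ 1 / 2 := by
    rw [hq]
    calc (1 / 2 : ℝ) ^ m ≤ (1 / 2) ^ 1 := pow_le_pow_of_le_one (by norm_num) (by norm_num) hm
      _ = 1 / 2 := by norm_num
  set N := NoHit m (W false ∪ W true) with hNdef
  set P : ℝ := (1 - q) ^ w with hP
  have hP0 : 0 < P := by rw [hP]; apply pow_pos; linarith
  have hP1 : P ≤ 1 := by rw [hP]; apply pow_le_one₀ <;> linarith
  set π : ℝ := 1 - P with hπ
  have hπ0 : 0 ≤ π := by linarith
  have hWK : ∀ κ ∈ W false ∪ W true, ∀ l < m, pos κ.1 l κ.2 ∈ K := by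
    intro κ hκ
    rw [Finset.mem_union] at hκ
    rcases hκ with hκ | hκ
    · exact hW false κ hκ
    · exact hW true κ hκ
  have hN : Loc K N := loc_noHit hWK
  have hZm := measurableSet_of_loc hK hZ
  have hEm := measurableSet_of_loc hK hE
  have hηm := measurableSet_of_loc hK hη
  have hNm : MeasurableSet N := measurableSet_noHit m _
  have hN0m : MeasurableSet (NoHit m (W false)) := measurableSet_noHit m _
  have hN1m : MeasurableSet (NoHit m (W true)) := measurableSet_noHit m _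
  -- the choice of `T` and `T'`
  have hch : ∀ B : Oracle, ∃ (T : Finset Cand) (T' : Bool → Finset Cand → Finset Cand),
      T.card ≤ t ∧ (∀ i h, (T' i h).card ≤ t) ∧ (B ∈ N →
      ∀ h : Bool → Finset Cand, (∀ i, h i ⊆ W i) → (∀ i, (h i).Nonempty) →
        (∀ i, Disjoint (h i) T) → (∀ i, Disjoint (h (!i)) (T' i (h i))) →
        (∀ i, plant (allSpots m (h i)) B ∈ Z) →
        plant (allSpots m (h false ∪ h true)) B ∈ E) := by
    intro B
    by_cases h1 : B ∈ N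
    · obtain ⟨T, T', hT, hT', hT2⟩ := hkey B h1
      exact ⟨T, T', hT, hT', fun _ => hT2⟩
    · exact ⟨∅, fun _ _ => ∅, by simp, by simp, fun h2 => absurd h2 h1⟩
  choose T T' hT1 hT1' hT2 using hch
  have hmask : ∀ B : Oracle, ∀ x ∈ K, mask K B x = B x := fun B x hx => mask_eq hx
  set Ak : Cand → Set Oracle := fun κ => {B | κ ∈ T (mask K B)} with hAk
  have hAl : ∀ κ, Loc K (Ak κ) := by
    intro κ A A' h
    simp only [hAk, Set.mem_ofPred_eq, mask_congr h]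
  have hAm : ∀ κ, MeasurableSet (Ak κ) := fun κ => measurableSet_of_loc hK (hAl κ)
  set Ak' : Bool → Finset Cand → Cand → Set Oracle :=
    fun i h κ => {B | κ ∈ T' (mask K B) i h} with hAk'
  have hAl' : ∀ i h κ, Loc K (Ak' i h κ) := by
    intro i h κ A A' hA
    simp only [hAk', Set.mem_ofPred_eq, mask_congr hA]
  have hAm' : ∀ i h κ, MeasurableSet (Ak' i h κ) :=
    fun i h κ => measurableSet_of_loc hK (hAl' i h κ)
  -- notation
  have hηN : prob (η ∩ N) = prob η * P ^ 2 := by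
    have h1 : prob (η ∩ N) = prob η * (1 - q) ^ (W false ∪ W true).card := by
      apply prob_noHit_aux hηm
      intro κ hκ A
      rw [← allSpots_singleton]
      exact hη' A {κ} (Finset.singleton_subset_iff.2 hκ)
    rw [h1, Finset.card_union_of_disjoint hd, hw, hw, pow_add, ← hP]
    ring
  set ν : ℝ := prob (η ∩ N) with hν
  have hν0 : 0 ≤ ν := prob_nonneg _
  set z : Finset Cand → ℝ := fun h => prob (plant (allSpots m h) ⁻¹' (η ∩ Zᶜ) ∩ N) with hz
  have hz0 : ∀ h, 0 ≤ z h := fun h => prob_nonneg _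
  set p : Cand → ℝ := fun κ => prob (η ∩ N ∩ Ak κ) with hp
  set p' : Bool → Finset Cand → Cand → ℝ := fun i h κ => prob (η ∩ N ∩ Ak' i h κ) with hp'
  set BE : Set Oracle := η ∩ ((NoHit m (W false))ᶜ ∩ (NoHit m (W true))ᶜ ∩ E) with hBE
  have hBEm : MeasurableSet BE := hηm.inter ((hN0m.compl.inter hN1m.compl).inter hEm)
  -- the bound for one pair of sets of hits
  have hone : ∀ h₀ ∈ (W false).powerset.erase ∅, ∀ h₁ ∈ (W true).powerset.erase ∅,
      ν - z h₀ - z h₁ - ∑ κ ∈ h₀, p κ - ∑ κ ∈ h₁, p κ - ∑ κ ∈ h₁, p' false h₀ κ -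
        ∑ κ ∈ h₀, p' true h₁ κ ≤ prob (plant (allSpots m (h₀ ∪ h₁)) ⁻¹' BE ∩ N) := by
    intro h₀ hh₀ h₁ hh₁
    rw [Finset.mem_erase, Finset.mem_powerset] at hh₀ hh₁
    obtain ⟨hne0, hsub0⟩ := hh₀
    obtain ⟨hne1, hsub1⟩ := hh₁
    have hne0' := Finset.nonempty_iff_ne_empty.2 hne0
    have hne1' := Finset.nonempty_iff_ne_empty.2 hne1
    have hs0 : h₀ ⊆ W false ∪ W true := hsub0.trans Finset.subset_union_left
    have hs1 : h₁ ⊆ W false ∪ W true := hsub1.trans Finset.subset_union_right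
    have hs01 : h₀ ∪ h₁ ⊆ W false ∪ W true := Finset.union_subset hs0 hs1
    set G1 := plant (allSpots m (h₀ ∪ h₁)) ⁻¹' BE ∩ N with hG1
    set G3 := plant (allSpots m h₀) ⁻¹' (η ∩ Zᶜ) ∩ N with hG3
    set G4 := plant (allSpots m h₁) ⁻¹' (η ∩ Zᶜ) ∩ N with hG4
    set G5 := ⋃ κ ∈ h₀, η ∩ N ∩ Ak κ with hG5
    set G6 := ⋃ κ ∈ h₁, η ∩ N ∩ Ak κ with hG6
    set G7 := ⋃ κ ∈ h₁, η ∩ N ∩ Ak' false h₀ κ with hG7
    set G8 := ⋃ κ ∈ h₀, η ∩ N ∩ Ak' true h₁ κ with hG8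
    have h1 : η ∩ N ⊆ G1 ∪ (G3 ∪ (G4 ∪ (G5 ∪ (G6 ∪ (G7 ∪ G8))))) := by
      rintro B ⟨hBη, hBN⟩
      by_cases c3 : plant (allSpots m h₀) B ∈ Z
      swap
      · exact Or.inr (Or.inl ⟨⟨(hη' B h₀ hs0).2 hBη, c3⟩, hBN⟩)
      by_cases c4 : plant (allSpots m h₁) B ∈ Z
      swap
      · exact Or.inr (Or.inr (Or.inl ⟨⟨(hη' B h₁ hs1).2 hBη, c4⟩, hBN⟩))
      by_cases c5 : Disjoint h₀ (T (mask K B))
      swap
      · rw [Finset.not_disjoint_iff] at c5
        obtain ⟨κ, hκ, hκ'⟩ := c5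
        refine Or.inr (Or.inr (Or.inr (Or.inl ?_)))
        rw [hG5]
        simp only [Set.mem_iUnion]
        exact ⟨κ, hκ, ⟨hBη, hBN⟩, hκ'⟩
      by_cases c6 : Disjoint h₁ (T (mask K B))
      swap
      · rw [Finset.not_disjoint_iff] at c6
        obtain ⟨κ, hκ, hκ'⟩ := c6
        refine Or.inr (Or.inr (Or.inr (Or.inr (Or.inl ?_))))
        rw [hG6]
        simp only [Set.mem_iUnion]
        exact ⟨κ, hκ, ⟨hBη, hBN⟩, hκ'⟩
      by_cases c7 : Disjoint h₁ (T' (mask K B) false h₀)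
      swap
      · rw [Finset.not_disjoint_iff] at c7
        obtain ⟨κ, hκ, hκ'⟩ := c7
        refine Or.inr (Or.inr (Or.inr (Or.inr (Or.inr (Or.inl ?_)))))
        rw [hG7]
        simp only [Set.mem_iUnion]
        exact ⟨κ, hκ, ⟨hBη, hBN⟩, hκ'⟩
      by_cases c8 : Disjoint h₀ (T' (mask K B) true h₁)
      swap
      · rw [Finset.not_disjoint_iff] at c8
        obtain ⟨κ, hκ, hκ'⟩ := c8
        refine Or.inr (Or.inr (Or.inr (Or.inr (Or.inr (Or.inr ?_)))))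
        rw [hG8]
        simp only [Set.mem_iUnion]
        exact ⟨κ, hκ, ⟨hBη, hBN⟩, hκ'⟩
      -- now the conclusion
      left
      have h2 : mask K B ∈ N := (hN _ _ (hmask B)).2 hBN
      have h4 := hT2 (mask K B) h2 (fun i => bif i then h₁ else h₀)
        (by rw [Bool.forall_bool]; exact ⟨hsub0, hsub1⟩)
        (by rw [Bool.forall_bool]; exact ⟨hne0', hne1'⟩)
        (by rw [Bool.forall_bool]; exact ⟨c5, c6⟩)
        (by rw [Bool.forall_bool]; exact ⟨c7, c8⟩)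
        (by
          rw [Bool.forall_bool]
          exact ⟨(loc_plant hZ (allSpots m h₀) _ _ (hmask B)).2 c3,
            (loc_plant hZ (allSpots m h₁) _ _ (hmask B)).2 c4⟩)
      have h5 : plant (allSpots m (h₀ ∪ h₁)) (mask K B) ∈ E := h4
      refine ⟨⟨(hη' B _ hs01).2 hBη, ⟨?_, ?_⟩,
        (loc_plant hE (allSpots m (h₀ ∪ h₁)) _ _ (hmask B)).1 h5⟩, hBN⟩
      · intro h6
        obtain ⟨κ, hκ⟩ := hne0'
        exact h6 κ (hsub0 hκ) (hit_plant_self (Finset.mem_union_left _ hκ) B)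
      · intro h6
        obtain ⟨κ, hκ⟩ := hne1'
        exact h6 κ (hsub1 hκ) (hit_plant_self (Finset.mem_union_right _ hκ) B)
    have u0 := prob_mono h1
    have u1 := prob_union_le G1 (G3 ∪ (G4 ∪ (G5 ∪ (G6 ∪ (G7 ∪ G8)))))
    have u3 := prob_union_le G3 (G4 ∪ (G5 ∪ (G6 ∪ (G7 ∪ G8))))
    have u4 := prob_union_le G4 (G5 ∪ (G6 ∪ (G7 ∪ G8)))
    have u5 := prob_union_le G5 (G6 ∪ (G7 ∪ G8))
    have u6 := prob_union_le G6 (G7 ∪ G8)
    have u7 := prob_union_le G7 G8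
    have v5 : prob G5 ≤ ∑ κ ∈ h₀, p κ := prob_biUnion_le h₀ (fun κ => η ∩ N ∩ Ak κ)
    have v6 : prob G6 ≤ ∑ κ ∈ h₁, p κ := prob_biUnion_le h₁ (fun κ => η ∩ N ∩ Ak κ)
    have v7 : prob G7 ≤ ∑ κ ∈ h₁, p' false h₀ κ :=
      prob_biUnion_le h₁ (fun κ => η ∩ N ∩ Ak' false h₀ κ)
    have v8 : prob G8 ≤ ∑ κ ∈ h₀, p' true h₁ κ :=
      prob_biUnion_le h₀ (fun κ => η ∩ N ∩ Ak' true h₁ κ)
    have w3 : z h₀ = prob G3 := rfl
    have w4 : z h₁ = prob G4 := rfl
    rw [w3, w4]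
    linarith
  have hcount : ∀ i, ∑ κ ∈ W i, p κ ≤ t * ν := by
    intro i
    apply sum_prob_le (hηm.inter hNm) (W i) Ak hAm t
    intro B _
    exact ⟨T (mask K B), hT1 _, fun κ _ hκ => hκ⟩
  have hcount' : ∀ i j h, ∑ κ ∈ W i, p' j h κ ≤ t * ν := by
    intro i j h
    apply sum_prob_le (hηm.inter hNm) (W i) (Ak' j h) (hAm' j h) t
    intro B _
    exact ⟨T' (mask K B) j h, hT1' _ _ _, fun κ _ hκ => hκ⟩
  have hwt0 : ∀ V h, 0 ≤ wt q V h := fun V h => wt_nonneg hq0.le (by linarith) V h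
  have hsw : ∀ i, ∑ h ∈ (W i).powerset.erase ∅, wt q (W i) h = π := by
    intro i
    rw [sum_wt_erase, hw i]
  -- sum over the pairs
  have hpart := prob_two hd m hBEm
  rw [← hq, hw false, hw true, ← hP] at hpart
  have hge := sum_ge_two (W₀ := W false) (W₁ := W true)
    (fun h₀ h₁ => wt q (W false) h₀ * wt q (W true) h₁ *
          prob (plant (allSpots m (h₀ ∪ h₁)) ⁻¹' BE ∩ NoHit m (W false ∪ W true)))
    (fun a b => mul_nonneg (mul_nonneg (hwt0 _ _) (hwt0 _ _)) (prob_nonneg _))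
  rw [← hpart, ← hNdef] at hge
  -- lower bound of the inner sum
  set a₁ : ℝ := ∑ h₁ ∈ (W true).powerset.erase ∅, wt q (W true) h₁ * z h₁ with ha₁
  set a₀ : ℝ := ∑ h₀ ∈ (W false).powerset.erase ∅, wt q (W false) h₀ * z h₀ with ha₀
  have hinner : ∀ h₀ ∈ (W false).powerset.erase ∅,
      π * (ν - z h₀ - ∑ κ ∈ h₀, p κ) - a₁ - 2 * (q * (t * ν)) -
        ∑ h₁ ∈ (W true).powerset.erase ∅, wt q (W true) h₁ * ∑ κ ∈ h₀, p' true h₁ κ ≤
      ∑ h₁ ∈ (W true).powerset.erase ∅, wt q (W true) h₁ *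
        prob (plant (allSpots m (h₀ ∪ h₁)) ⁻¹' BE ∩ N) := by
    intro h₀ hh₀
    have h1 : ∑ h₁ ∈ (W true).powerset.erase ∅, wt q (W true) h₁ *
        (ν - z h₀ - z h₁ - ∑ κ ∈ h₀, p κ - ∑ κ ∈ h₁, p κ - ∑ κ ∈ h₁, p' false h₀ κ -
        ∑ κ ∈ h₀, p' true h₁ κ) ≤ ∑ h₁ ∈ (W true).powerset.erase ∅, wt q (W true) h₁ *
        prob (plant (allSpots m (h₀ ∪ h₁)) ⁻¹' BE ∩ N) :=
      Finset.sum_le_sum fun h₁ hh₁ => mul_le_mul_of_nonneg_left (hone h₀ hh₀ h₁ hh₁) (hwt0 _ _)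
    refine le_trans ?_ h1
    have h2 : ∑ h₁ ∈ (W true).powerset.erase ∅, wt q (W true) h₁ *
        (ν - z h₀ - z h₁ - ∑ κ ∈ h₀, p κ - ∑ κ ∈ h₁, p κ - ∑ κ ∈ h₁, p' false h₀ κ -
        ∑ κ ∈ h₀, p' true h₁ κ) =
        π * (ν - z h₀ - ∑ κ ∈ h₀, p κ) - a₁ - q * ∑ κ ∈ W true, p κ -
        q * ∑ κ ∈ W true, p' false h₀ κ -
        ∑ h₁ ∈ (W true).powerset.erase ∅, wt q (W true) h₁ * ∑ κ ∈ h₀, p' true h₁ κ := by
      rw [← hsw true, ← sum_wt_sum_erase, ← sum_wt_sum_erase, Finset.sum_mul, ha₁,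
        ← Finset.sum_sub_distrib, ← Finset.sum_sub_distrib, ← Finset.sum_sub_distrib,
        ← Finset.sum_sub_distrib]
      exact Finset.sum_congr rfl fun h₁ _ => by ring
    rw [h2]
    have h3 := mul_le_mul_of_nonneg_left (hcount true) hq0.le
    have h4 := mul_le_mul_of_nonneg_left (hcount' true false h₀) hq0.le
    linarith
  have houter : π * (π * ν) - π * a₀ - π * a₁ - 4 * (π * (q * (t * ν))) ≤
      ∑ h₀ ∈ (W false).powerset.erase ∅, ∑ h₁ ∈ (W true).powerset.erase ∅,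
        wt q (W false) h₀ * wt q (W true) h₁ *
          prob (plant (allSpots m (h₀ ∪ h₁)) ⁻¹' BE ∩ N) := by
    have h1 : ∑ h₀ ∈ (W false).powerset.erase ∅, wt q (W false) h₀ *
        (π * (ν - z h₀ - ∑ κ ∈ h₀, p κ) - a₁ - 2 * (q * (t * ν)) -
        ∑ h₁ ∈ (W true).powerset.erase ∅, wt q (W true) h₁ * ∑ κ ∈ h₀, p' true h₁ κ) ≤
        ∑ h₀ ∈ (W false).powerset.erase ∅, ∑ h₁ ∈ (W true).powerset.erase ∅,
        wt q (W false) h₀ * wt q (W true) h₁ *
          prob (plant (allSpots m (h₀ ∪ h₁)) ⁻¹' BE ∩ N) := by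
      refine Finset.sum_le_sum fun h₀ hh₀ => ?_
      refine (mul_le_mul_of_nonneg_left (hinner h₀ hh₀) (hwt0 _ _)).trans (le_of_eq ?_)
      rw [Finset.mul_sum]
      exact Finset.sum_congr rfl fun h₁ _ => by ring
    refine le_trans ?_ h1
    have h2 : ∑ h₀ ∈ (W false).powerset.erase ∅, wt q (W false) h₀ *
        (π * (ν - z h₀ - ∑ κ ∈ h₀, p κ) - a₁ - 2 * (q * (t * ν)) -
        ∑ h₁ ∈ (W true).powerset.erase ∅, wt q (W true) h₁ * ∑ κ ∈ h₀, p' true h₁ κ) =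
        π * (π * ν) - π * a₀ - π * (q * ∑ κ ∈ W false, p κ) - π * a₁ -
        π * (2 * (q * (t * ν))) -
        ∑ h₁ ∈ (W true).powerset.erase ∅, wt q (W true) h₁ *
          (q * ∑ κ ∈ W false, p' true h₁ κ) := by
      have e1 : ∑ h₁ ∈ (W true).powerset.erase ∅, wt q (W true) h₁ *
          (q * ∑ κ ∈ W false, p' true h₁ κ) =
          ∑ h₀ ∈ (W false).powerset.erase ∅, wt q (W false) h₀ *
          ∑ h₁ ∈ (W true).powerset.erase ∅, wt q (W true) h₁ * ∑ κ ∈ h₀, p' true h₁ κ := by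
        have e4 : ∀ h₀ ∈ (W false).powerset.erase ∅, wt q (W false) h₀ *
            ∑ h₁ ∈ (W true).powerset.erase ∅, wt q (W true) h₁ * ∑ κ ∈ h₀, p' true h₁ κ =
            ∑ h₁ ∈ (W true).powerset.erase ∅, wt q (W true) h₁ *
              (wt q (W false) h₀ * ∑ κ ∈ h₀, p' true h₁ κ) := by
          intro h₀ _
          rw [Finset.mul_sum]
          exact Finset.sum_congr rfl fun h₁ _ => by ring
        rw [Finset.sum_congr rfl e4, Finset.sum_comm]
        refine Finset.sum_congr rfl fun h₁ _ => ?_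
        rw [← Finset.mul_sum, sum_wt_sum_erase]
      rw [e1, ← sum_wt_sum_erase q (W false) p, ha₀]
      conv_rhs => rw [show π * (π * ν) =
        (∑ h ∈ (W false).powerset.erase ∅, wt q (W false) h) * (π * ν) by rw [hsw false],
        show π * a₁ = (∑ h ∈ (W false).powerset.erase ∅, wt q (W false) h) * a₁ by rw [hsw false],
        show π * (2 * (q * (t * ν))) =
          (∑ h ∈ (W false).powerset.erase ∅, wt q (W false) h) * (2 * (q * (t * ν))) by
            rw [hsw false]]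
      rw [Finset.sum_mul, Finset.sum_mul, Finset.sum_mul, Finset.mul_sum, Finset.mul_sum,
        ← Finset.sum_sub_distrib, ← Finset.sum_sub_distrib, ← Finset.sum_sub_distrib,
        ← Finset.sum_sub_distrib, ← Finset.sum_sub_distrib]
      exact Finset.sum_congr rfl fun h₀ _ => by ring
    rw [h2]
    have h3 := mul_le_mul_of_nonneg_left (mul_le_mul_of_nonneg_left (hcount false) hq0.le) hπ0
    have h4 : ∑ h₁ ∈ (W true).powerset.erase ∅, wt q (W true) h₁ *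
          (q * ∑ κ ∈ W false, p' true h₁ κ) ≤ π * (q * (t * ν)) := by
      rw [← hsw true, Finset.sum_mul]
      exact Finset.sum_le_sum fun h₁ _ => mul_le_mul_of_nonneg_left
        (mul_le_mul_of_nonneg_left (hcount' false true h₁) hq0.le) (hwt0 _ _)
    linarith
  have hfin1 := houter.trans hge
  -- the worlds with hits in one half
  have hpartZ := prob_two hd m (hηm.inter hZm.compl)
  rw [← hq, hw false, hw true, ← hP] at hpartZ
  have hgeZ := sum_ge_one (W₀ := W false) (W₁ := W true)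
    (fun h₀ h₁ => wt q (W false) h₀ * wt q (W true) h₁ *
          prob (plant (allSpots m (h₀ ∪ h₁)) ⁻¹' (η ∩ Zᶜ) ∩ NoHit m (W false ∪ W true)))
    (fun a b => mul_nonneg (mul_nonneg (hwt0 _ _) (hwt0 _ _)) (prob_nonneg _))
  rw [← hpartZ] at hgeZ
  simp only [Finset.union_empty, Finset.empty_union, wt_empty, hw] at hgeZ
  rw [← hP, ← hNdef] at hgeZ
  have e1 : ∑ h ∈ (W false).powerset.erase ∅, wt q (W false) h * P *
      prob (plant (allSpots m h) ⁻¹' (η ∩ Zᶜ) ∩ N) = P * a₀ := by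
    rw [ha₀, Finset.mul_sum]
    exact Finset.sum_congr rfl fun h _ => by rw [hz]; ring
  have e2 : ∑ h ∈ (W true).powerset.erase ∅, P * wt q (W true) h *
      prob (plant (allSpots m h) ⁻¹' (η ∩ Zᶜ) ∩ N) = P * a₁ := by
    rw [ha₁, Finset.mul_sum]
    exact Finset.sum_congr rfl fun h _ => by rw [hz]; ring
  have e3 : prob (plant (allSpots m ∅) ⁻¹' (η ∩ Zᶜ) ∩ N) = z ∅ := rfl
  rw [e1, e2, e3] at hgeZ
  -- conclusion
  have hZ1 : a₀ + a₁ ≤ P * prob (η ∩ Zᶜ) := by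
    have h0 : 0 ≤ P * P * z ∅ := mul_nonneg (by positivity) (hz0 _)
    have : P * (a₀ + a₁) ≤ P * (P * prob (η ∩ Zᶜ)) := by linarith
    exact le_of_mul_le_mul_left this hP0
  have hZ2 : π * (a₀ + a₁) ≤ π * (P * prob (η ∩ Zᶜ)) :=
    mul_le_mul_of_nonneg_left hZ1 hπ0
  have hfin2 : P * (P * (π ^ 2 * prob η - 4 * t * q * π * prob η - prob BE)) ≤
      P * (π * prob (η ∩ Zᶜ)) := by
    have h1 : ν = prob η * P ^ 2 := hηN
    rw [h1] at hfin1
    nlinarith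
  exact le_of_mul_le_mul_left hfin2 hP0

end Pool.Agent.H583R2.NC
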