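import Pool.Agent.H583R2.NC.KP
import Pool.Agent.H583R2.NC.Loc
import Pool.Agent.H583R2.NC.Prb
import Pool.Agent.H583R2.NC.NumC

/-!
# The key inequality for a stage
-/

namespace Pool.Agent.H583R2.NC

open MeasureTheory Pool.Agent.NPC Pool.Agent.H628R3.RO
open Pool.Agent.H628R3.RO.M2

namespace KB

/-- exactly one slot of the pair is zero -/
def XX (n s b j : ℕ) : Set Oracle :=
  {A | (A ∈ Zero n s b (2 * j) ∧ A ∉ Zero n s b (2 * j + 1)) ∨
    (A ∉ Zero n s b (2 * j) ∧ A ∈ Zero n s b (2 * j + 1))}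

theorem l_mono {K K' : Set (List Bool)} {S : Set Oracle} (h : Loc K S) (hK : K ⊆ K') :
    Loc K' S := fun A A' hA => h A A' fun x hx => hA x (hK hx)

theorem l_inter {K : Set (List Bool)} {S S' : Set Oracle} (h : Loc K S) (h' : Loc K S') :
    Loc K (S ∩ S') := fun A A' hA => and_congr (h A A' hA) (h' A A' hA)

theorem l_compl {K : Set (List Bool)} {S : Set Oracle} (h : Loc K S) : Loc K Sᶜ :=
  fun A A' hA => not_congr (h A A' hA)

theorem loc_union {K : Set (List Bool)} {S S' : Set Oracle} (h : Loc K S) (h' : Loc K S') :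
    Loc K (S ∪ S') := fun A A' hA => or_congr (h A A' hA) (h' A A' hA)

theorem loc_XX {n s b j : ℕ} (hb : b < BB s) (hj : j < JJ s) :
    Loc (spotsB n s) (XX n s b j) := by
  have hK2 : KK s = 2 * JJ s := rfl
  have h0 := loc_Zero (n := n) (i := 2 * j) hb (by omega)
  have h1 := loc_Zero (n := n) (i := 2 * j + 1) hb (by omega)
  intro A A' hA
  have e0 := h0 A A' hA
  have e1 := h1 A A' hA
  simp only [XX, Set.mem_ofPred_eq, e0, e1]

theorem sum_prob_le_prob {ι : Type} (S : Finset ι) (f : ι → Set Oracle)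
    (hm : ∀ i ∈ S, MeasurableSet (f i))
    (hd : ∀ i ∈ S, ∀ j ∈ S, i ≠ j → Disjoint (f i) (f j)) {T : Set Oracle}
    (hT : ∀ i ∈ S, f i ⊆ T) : ∑ i ∈ S, prob (f i) ≤ prob T := by
  have h1 : prob (⋃ i ∈ S, f i) = ∑ i ∈ S, prob (f i) :=
    measureReal_biUnion_finset (fun i hi j hj hij => hd i hi j hj hij) hm
  rw [← h1]
  exact prob_mono (Set.iUnion₂_subset hT)

theorem pair_num {a q t P V v y : ℝ} (ha1 : a ≤ 1 / 2)
    (htq : 8 * t * q ≤ 1 / 16) (hP : 0 ≤ P) (hy : 0 ≤ y) (hV0 : 0 ≤ V)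
    (h1 : 15 / 16 * y * P ≤ V) :
    7 / 8 * ((1 - a) ^ 2 * y) * P - v ≤ (1 - a) ^ 2 * V - 4 * t * q * (1 - a) * V - v := by
  have h3 : (15 / 16) * ((1 - a) ^ 2 * V) ≤ (1 - a) ^ 2 * V - 4 * t * q * (1 - a) * V := by
    have h4 : 4 * t * q * (1 - a) ≤ 1 / 16 * (1 - a) ^ 2 := by
      have h5 : (1 - a) * (8 * t * q) ≤ (1 - a) * (1 / 16) :=
        mul_le_mul_of_nonneg_left htq (by linarith)
      have h6 : (1 - a) * (1 / 2) ≤ (1 - a) * (1 - a) :=
        mul_le_mul_of_nonneg_left (by linarith) (by linarith)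
      nlinarith
    have h7 := mul_le_mul_of_nonneg_right h4 hV0
    linarith
  have h8 : 15 / 16 * ((1 - a) ^ 2 * (15 / 16 * y * P)) ≤ 15 / 16 * ((1 - a) ^ 2 * V) := by
    have : 0 ≤ (1 - a) ^ 2 := by positivity
    have := mul_le_mul_of_nonneg_left h1 this
    linarith
  have h9 : 7 / 8 * ((1 - a) ^ 2 * y) * P ≤ 15 / 16 * ((1 - a) ^ 2 * (15 / 16 * y * P)) := by
    have h10 : 0 ≤ (1 - a) ^ 2 * y * P := by positivity
    linarith
  linarith

theorem final_num {a β P X PB L J Q : ℝ} (ha0 : 0 < a) (ha1 : a ≤ 1 / 2) (hJ : 0 ≤ J)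
    (hPB : PB ≤ β) (hPB' : 1 / 2 * β ≤ PB) (hPB0 : 0 < PB)
    (hll : L ≤ J * a / (1 - a) * (1 / 2 * β)) (hL : 0 ≤ L) (hQ : 0 ≤ Q) (hP : 0 ≤ P)
    (hsum : a * (J * (7 / 8 * β * P - X)) ≤ (1 - a) * Q) : L * (7 / 8 * P - X / PB) ≤ Q := by
  by_cases hD0 : 7 / 8 * P - X / PB ≤ 0
  · exact le_trans (mul_nonpos_of_nonneg_of_nonpos hL hD0) hQ
  · push Not at hD0
    have h1a : 0 < 1 - a := by linarith
    have hJa : 0 ≤ J * a / (1 - a) := by positivity
    have h1 : L ≤ J * a / (1 - a) * PB := hll.trans (mul_le_mul_of_nonneg_left hPB' hJa)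
    have h2 : PB * (7 / 8 * P - X / PB) = 7 / 8 * P * PB - X := by
      field_simp
    have h3 : PB * (7 / 8 * P - X / PB) ≤ 7 / 8 * β * P - X := by
      rw [h2]
      have := mul_le_mul_of_nonneg_left hPB hP
      linarith
    calc L * (7 / 8 * P - X / PB) ≤ J * a / (1 - a) * PB * (7 / 8 * P - X / PB) :=
          mul_le_mul_of_nonneg_right h1 hD0.le
      _ = J * a / (1 - a) * (PB * (7 / 8 * P - X / PB)) := by ring
      _ ≤ J * a / (1 - a) * (7 / 8 * β * P - X) := mul_le_mul_of_nonneg_left h3 hJa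
      _ ≤ Q := by
        rw [div_mul_eq_mul_div, div_le_iff₀ h1a]
        linarith

theorem sum_num {a B J y P X S Q : ℝ} (ha0 : 0 ≤ a) (ha1 : 0 ≤ 1 - a) (hJ : 0 ≤ J)
    {T : ℝ} (h1 : a * (B * (J * (7 / 8 * y * P)) - J * S) ≤ (1 - a) * T) (h2 : T ≤ Q)
    (h3 : S ≤ X) : a * (J * (7 / 8 * (B * y) * P - X)) ≤ (1 - a) * Q := by
  have h4 := mul_le_mul_of_nonneg_left h2 ha1
  have h5 := mul_le_mul_of_nonneg_left h3 hJ
  have h6 : a * (J * (7 / 8 * (B * y) * P - X)) ≤ a * (B * (J * (7 / 8 * y * P)) - J * S) := by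
    apply mul_le_mul_of_nonneg_left _ ha0
    linarith
  linarith

/-- the inequality for one pair -/
theorem pair_ineq {n s t₀ t k : ℕ} (ht₀ : t₀ < n) {η Z E : Set Oracle}
    (hη : Loc {x | x.length ≤ t₀} η) (hZ : Loc {x | x.length ≤ k} Z)
    (hE : Loc {x | x.length ≤ k} E) {b j : ℕ} (hb : b < BB s) (hj : j < JJ s)
    (hkey : ∀ B ∈ Others n s b j,
      B ∈ Zero n s b (2 * j) → B ∈ Zero n s b (2 * j + 1) → ∃ (T : Finset Cand)
      (T' : Bool → Finset Cand → Finset Cand), T.card ≤ t ∧ (∀ i h, (T' i h).card ≤ t) ∧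
      ∀ h : Bool → Finset Cand, (∀ i : Bool, h i ⊆ slot n s b (2 * j + i.toNat)) →
        (∀ i, (h i).Nonempty) → (∀ i, Disjoint (h i) T) →
        (∀ i, Disjoint (h (!i)) (T' i (h i))) →
        (∀ i, plant (allSpots (wl n) (h i)) B ∈ Z) →
        plant (allSpots (wl n) (h false ∪ h true)) B ∈ E) :
    zp n s * ((1 - zp n s) ^ 2 * prob (η ∩ (Quiet n s b ∩ Others n s b j)) -
      4 * t * (1 / 2) ^ wl n * (1 - zp n s) * prob (η ∩ (Quiet n s b ∩ Others n s b j)) -
      prob (η ∩ (Quiet n s b ∩ AllHit n s b ∩ E))) ≤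
    (1 - zp n s) * prob (η ∩ (Quiet n s b ∩ Others n s b j) ∩ (Z ∪ (XX n s b j)ᶜ)ᶜ) := by
  classical
  have hK2 : KK s = 2 * JJ s := rfl
  obtain ⟨L, hL⟩ : ∃ L, ∀ x ∈ spotsB n s, x.length ≤ L :=
    ⟨(spotsB n s).sup List.length, fun x hx => Finset.le_sup (f := List.length) hx⟩
  set K : Set (List Bool) := {x | x.length ≤ max L (max k t₀)} with hKdef
  have hK : K.Finite := List.finite_length_le Bool _
  have hsp : (spotsB n s : Set (List Bool)) ⊆ K := fun x hx => (hL x hx).trans (le_max_left _ _)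
  have hkK : {x : List Bool | x.length ≤ k} ⊆ K := by
    intro x hx
    have hx' : x.length ≤ k := hx
    have : x.length ≤ max L (max k t₀) := by omega
    exact this
  have htK : {x : List Bool | x.length ≤ t₀} ⊆ K := by
    intro x hx
    have hx' : x.length ≤ t₀ := hx
    have : x.length ≤ max L (max k t₀) := by omega
    exact this
  have lO : Loc K (Others n s b j) := l_mono (loc_Others hb) hsp
  have lQ : Loc K (Quiet n s b) := l_mono (loc_Quiet n s b) hsp
  have lX : Loc K (XX n s b j) := l_mono (loc_XX hb hj) hsp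
  have lη : Loc K η := l_mono hη htK
  have lZ : Loc K Z := l_mono hZ hkK
  have lE : Loc K E := l_mono hE hkK
  have hunion : ∀ h : Finset Cand,
      h ⊆ slot n s b (2 * j + false.toNat) ∪ slot n s b (2 * j + true.toNat) →
      h ⊆ slot n s b (2 * j) ∪ slot n s b (2 * j + 1) := fun h hh => hh
  have hsub : slot n s b (2 * j) ∪ slot n s b (2 * j + 1) ⊆ blk n s :=
    Finset.union_subset (slot_subset hb (by omega)) (slot_subset hb (by omega))
  have hd : Disjoint (slot n s b (2 * j)) (slot n s b (2 * j + 1)) :=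
    slot_disjoint' (by omega) (by omega) (Or.inr (by omega))
  have key := key_pair hK (Z := Z ∪ (XX n s b j)ᶜ) (E := E ∪ (Others n s b j)ᶜ)
    (η := η ∩ (Quiet n s b ∩ Others n s b j)) (loc_union lZ (l_compl lX))
    (loc_union lE (l_compl lO)) (l_inter lη (l_inter lQ lO))
    (fun i : Bool => slot n s b (2 * j + i.toNat)) hd (m := wl n) (w := qq s * 2 ^ wl n)
    (by unfold wl; omega) (fun i => card_slot _ _ _ _) t
    (by
      intro i κ hκ l hl
      apply hsp
      apply pos_mem_spotsB _ hl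
      cases i
      · exact slot_subset hb (by simp; omega) hκ
      · exact slot_subset hb (by simp; omega) hκ)
    (by
      intro B h hh
      have hh' := hunion h hh
      have e1 := plant_short (n := n) (s := s) ht₀.le hη (hh'.trans hsub) B
      have e2 := plant_Quiet (n := n) (b := b) hj hh' B
      have e3 := plant_Others (n := n) (b := b) hj hh' B
      simp only [Set.mem_inter_iff]
      rw [e1, e2, e3])
    (by
      intro B hB
      have hB0 : B ∈ Zero n s b (2 * j) := fun κ hκ => hB κ (Finset.mem_union_left _ hκ)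
      have hB1 : B ∈ Zero n s b (2 * j + 1) := fun κ hκ => hB κ (Finset.mem_union_right _ hκ)
      by_cases hO : B ∈ Others n s b j
      · obtain ⟨T, T', hT, hT', hTT⟩ := hkey B hO hB0 hB1
        refine ⟨T, T', hT, hT', fun h h1 h2 h3 h4 h5 => Or.inl ?_⟩
        refine hTT h h1 h2 h3 h4 fun i => ?_
        rcases h5 i with h6 | h6
        · exact h6
        · exfalso
          apply h6
          cases i
          · right
            constructor
            · intro h7
              obtain ⟨κ, hκ⟩ := h2 false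
              exact h7 κ (h1 false hκ) (hit_plant_self hκ B)
            · exact (plant_Zero (Finset.disjoint_of_subset_left (h1 false) hd) B).2 hB1
          · left
            constructor
            · exact (plant_Zero (Finset.disjoint_of_subset_left (h1 true) hd.symm) B).2 hB0
            · intro h7
              obtain ⟨κ, hκ⟩ := h2 true
              exact h7 κ (h1 true hκ) (hit_plant_self hκ B)
      · refine ⟨∅, fun _ _ => ∅, by simp, by simp, fun h h1 _ _ _ _ => Or.inr ?_⟩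
        intro h6
        apply hO
        refine (plant_Others (n := n) (b := b) hj ?_ B).1 h6
        exact Finset.union_subset_union (h1 false) (h1 true))
  have hmono : prob (η ∩ (Quiet n s b ∩ Others n s b j) ∩
      ((NoHit (wl n) (slot n s b (2 * j + false.toNat)))ᶜ ∩
        (NoHit (wl n) (slot n s b (2 * j + true.toNat)))ᶜ ∩ (E ∪ (Others n s b j)ᶜ))) ≤
      prob (η ∩ (Quiet n s b ∩ AllHit n s b ∩ E)) := by
    apply prob_mono
    rintro A ⟨⟨h1, h2, h3⟩, ⟨h4, h5⟩, h6⟩
    refine ⟨h1, ⟨h2, ?_⟩, ?_⟩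
    · intro i hi
      by_cases e0 : i = 2 * j
      · rw [e0]; exact h4
      · by_cases e1 : i = 2 * j + 1
        · rw [e1]; exact h5
        · exact h3 i hi e0 e1
    · rcases h6 with h6 | h6
      · exact h6
      · exact absurd h3 h6
  have hz0 := zp_pos n s
  refine le_trans (mul_le_mul_of_nonneg_left ?_ hz0.le) key
  have e : zp n s = (1 - (1 / 2 : ℝ) ^ wl n) ^ (qq s * 2 ^ wl n) := rfl
  rw [e]
  linarith

end KB

open KB

theorem key_blocks {n s t₀ t k : ℕ} (hs : 4 ≤ s) (hsn : s ≤ n) (ht₀ : t₀ < n) {η Z E : Set Oracle}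
    (hη : Loc {x | x.length ≤ t₀} η) (hZ : Loc {x | x.length ≤ k} Z)
    (hE : Loc {x | x.length ≤ k} E) (ht : 128 * t ≤ 2 ^ n)
    (hkey : ∀ b < BB s, ∀ j < JJ s, ∀ B ∈ Others n s b j,
      B ∈ Zero n s b (2 * j) → B ∈ Zero n s b (2 * j + 1) → ∃ (T : Finset Cand)
      (T' : Bool → Finset Cand → Finset Cand), T.card ≤ t ∧ (∀ i h, (T' i h).card ≤ t) ∧
      ∀ h : Bool → Finset Cand, (∀ i : Bool, h i ⊆ slot n s b (2 * j + i.toNat)) →
        (∀ i, (h i).Nonempty) → (∀ i, Disjoint (h i) T) →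
        (∀ i, Disjoint (h (!i)) (T' i (h i))) →
        (∀ i, plant (allSpots (wl n) (h i)) B ∈ Z) →
        plant (allSpots (wl n) (h false ∪ h true)) B ∈ E) :
    ll s * (7 / 8 * prob η - prob (η ∩ (Bad n s ∩ E)) / prob (Bad n s)) ≤
      prob (η ∩ Zᶜ) := by
  classical
  set a := zp n s with ha
  have ha0 : 0 < a := zp_pos n s
  have ha1 : a ≤ 1 / 2 := zp_le_half hs n
  have hB0 : 0 < BB s := Nat.succ_pos _
  have hJ0 : 0 < JJ s := Nat.succ_pos _
  set q : ℝ := (1 / 2) ^ wl n with hq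
  have hq0 : 0 < q := by positivity
  have htq : 8 * (t : ℝ) * q ≤ 1 / 16 := by
    have h1 : (128 : ℝ) * t ≤ 2 ^ n := by exact_mod_cast ht
    have h2 : (2 : ℝ) ^ n * q ≤ 1 := by
      have : (2 : ℝ) ^ n ≤ 2 ^ wl n := pow_le_pow_right₀ (by norm_num) (by unfold wl; omega)
      calc (2 : ℝ) ^ n * q ≤ 2 ^ wl n * q := mul_le_mul_of_nonneg_right this hq0.le
        _ = 1 := by rw [hq, ← mul_pow]; norm_num
    have h3 := mul_le_mul_of_nonneg_right h1 hq0.le
    linarith
  set β : ℝ := BB s * (1 - a) ^ KK s with hβ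
  have hβ0 : 0 < β := by
    have : (0 : ℝ) < 1 - a := by linarith
    have h2 : (0 : ℝ) < BB s := by exact_mod_cast hB0
    positivity
  have hβ1 : β ≤ 1 := (bad_hi hs hsn).trans ((ee_le hs).trans (by norm_num))
  have hPB : prob (Bad n s) ≤ β := prob_Bad_le n s
  have hPB' : 1 / 2 * β ≤ prob (Bad n s) := prob_Bad_ge n s hβ1
  have hPB0 : 0 < prob (Bad n s) := by linarith
  have hll := ll_num hs hsn
  rw [← ha, ← hβ] at hll
  set X : ℝ := prob (η ∩ (Bad n s ∩ E)) with hX
  have hX0 : 0 ≤ X := prob_nonneg _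
  have hP0 : 0 ≤ prob (η ∩ Zᶜ) := prob_nonneg _
  -- the finite set of strings
  obtain ⟨L, hL⟩ : ∃ L, ∀ x ∈ spotsB n s, x.length ≤ L :=
    ⟨(spotsB n s).sup List.length, fun x hx => Finset.le_sup (f := List.length) hx⟩
  set K : Set (List Bool) := {x | x.length ≤ max L (max k t₀)} with hKdef
  have hK : K.Finite := List.finite_length_le Bool _
  have hsp : (spotsB n s : Set (List Bool)) ⊆ K := fun x hx => (hL x hx).trans (le_max_left _ _)
  have hkK : {x : List Bool | x.length ≤ k} ⊆ K := by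
    intro x hx
    have hx' : x.length ≤ k := hx
    have : x.length ≤ max L (max k t₀) := by omega
    exact this
  have htK : {x : List Bool | x.length ≤ t₀} ⊆ K := by
    intro x hx
    have hx' : x.length ≤ t₀ := hx
    have : x.length ≤ max L (max k t₀) := by omega
    exact this
  have lη : Loc K η := l_mono hη htK
  have lZ : Loc K Z := l_mono hZ hkK
  have lE : Loc K E := l_mono hE hkK
  -- the good blocks
  set Y : ℕ × ℕ → Set Oracle := fun p =>
    η ∩ (Quiet n s p.1 ∩ Others n s p.1 p.2) ∩ (Z ∪ (XX n s p.1 p.2)ᶜ)ᶜ with hY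
  have hYsum : ∑ p ∈ Finset.range (BB s) ×ˢ Finset.range (JJ s), prob (Y p) ≤ prob (η ∩ Zᶜ) := by
    apply sum_prob_le_prob
    · rintro ⟨b, j⟩ hp
      rw [Finset.mem_product, Finset.mem_range, Finset.mem_range] at hp
      obtain ⟨hb, hj⟩ := hp
      exact measurableSet_of_loc hK (l_inter (l_inter lη (l_inter
        (l_mono (loc_Quiet n s b) hsp) (l_mono (loc_Others hb) hsp)))
        (l_compl (loc_union lZ (l_compl (l_mono (loc_XX hb hj) hsp)))))
    · rintro ⟨b, j⟩ hp ⟨b', j'⟩ hp' hne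
      rw [Finset.mem_product, Finset.mem_range, Finset.mem_range] at hp hp'
      obtain ⟨hb, hj⟩ := hp
      obtain ⟨hb', hj'⟩ := hp'
      simp only at hb hj hb' hj'
      rw [Set.disjoint_left]
      rintro A ⟨⟨_, hQ, hO⟩, hX⟩ ⟨⟨_, hQ', hO'⟩, hX'⟩
      have hXX' : A ∈ XX n s b' j' := by
        by_contra h
        exact hX' (Or.inr h)
      have hK2 : KK s = 2 * JJ s := rfl
      by_cases hbb : b' = b
      · have hjj : j' ≠ j := fun h => hne (by rw [hbb, h])
        subst hbb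
        rcases hXX' with h | h
        · exact hO (2 * j') (by omega) (by omega) (by omega) h.1
        · exact hO (2 * j' + 1) (by omega) (by omega) (by omega) h.2
      · have h1 := (hQ b' hb' hbb).2
        apply h1
        rcases hXX' with h | h
        · refine ⟨2 * j', by omega, h.1, fun i hi hne' => ?_⟩
          by_cases e1 : i = 2 * j' + 1
          · rw [e1]; exact h.2
          · exact hO' i hi hne' e1
        · refine ⟨2 * j' + 1, by omega, h.2, fun i hi hne' => ?_⟩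
          by_cases e1 : i = 2 * j'
          · rw [e1]; exact h.1
          · exact hO' i hi e1 hne'
    · rintro ⟨b, j⟩ _ A ⟨⟨h1, _⟩, h2⟩
      exact ⟨h1, fun h3 => h2 (Or.inl h3)⟩
  -- the dangerous blocks
  have hDsum : ∑ b ∈ Finset.range (BB s), prob (η ∩ (Quiet n s b ∩ AllHit n s b ∩ E)) ≤ X := by
    apply sum_prob_le_prob
    · intro b hb
      rw [Finset.mem_range] at hb
      exact measurableSet_of_loc hK (l_inter lη (l_inter (l_inter
        (l_mono (loc_Quiet n s b) hsp) (l_mono (loc_AllHit hb) hsp)) lE))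
    · intro b hb b' hb' hne
      rw [Finset.mem_range] at hb hb'
      rw [Set.disjoint_left]
      rintro A ⟨_, ⟨hQ, _⟩, _⟩ ⟨_, ⟨_, hA'⟩, _⟩
      exact (hQ b' hb' (Ne.symm hne)).1 hA'
    · intro b hb A hA
      rw [Finset.mem_range] at hb
      obtain ⟨h1, ⟨_, h2⟩, h3⟩ := hA
      exact ⟨h1, ⟨b, hb, h2⟩, h3⟩
  -- the probability of `η_bj`
  have hKK2 : KK s = 2 * JJ s := rfl
  have heta : ∀ b < BB s, ∀ j < JJ s,
      15 / 16 * (1 - a) ^ (KK s - 2) * prob η ≤ prob (η ∩ (Quiet n s b ∩ Others n s b j)) := by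
    intro b hb j hj
    rw [prob_eta ht₀.le hη hb hj]
    have h1 := prob_Quiet_ge n s b
    have h2 := quiet_num hs hsn
    have h3 : 15 / 16 ≤ prob (Quiet n s b) := by linarith
    have h4 : 0 ≤ (1 - a) ^ (KK s - 2) := by
      have : (0 : ℝ) ≤ 1 - a := by linarith
      positivity
    have h5 := mul_le_mul_of_nonneg_left h3 (mul_nonneg (prob_nonneg η) h4)
    calc 15 / 16 * (1 - a) ^ (KK s - 2) * prob η
        = prob η * (1 - a) ^ (KK s - 2) * (15 / 16) := by ring
      _ ≤ prob η * (1 - a) ^ (KK s - 2) * prob (Quiet n s b) := h5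
      _ = _ := by ring
  -- one pair
  have hone : ∀ b < BB s, ∀ j < JJ s,
      a * (7 / 8 * (1 - a) ^ KK s * prob η - prob (η ∩ (Quiet n s b ∩ AllHit n s b ∩ E))) ≤
        (1 - a) * prob (Y (b, j)) := by
    intro b hb j hj
    refine le_trans (mul_le_mul_of_nonneg_left ?_ ha0.le)
      (pair_ineq ht₀ hη hZ hE hb hj (hkey b hb j hj))
    have h2 : (1 - a) ^ KK s = (1 - a) ^ 2 * (1 - a) ^ (KK s - 2) := by
      rw [← pow_add]; congr 1; omega
    rw [← ha, ← hq, h2]
    refine pair_num ha1 htq (prob_nonneg η) ?_ (prob_nonneg _) (heta b hb j hj)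
    have : (0 : ℝ) ≤ 1 - a := by linarith
    positivity
  have hJR : (0 : ℝ) ≤ (JJ s : ℝ) := Nat.cast_nonneg _
  -- the sum over all pairs
  have hsum : a * (JJ s * (7 / 8 * β * prob η - X)) ≤ (1 - a) * prob (η ∩ Zᶜ) := by
    have h1 : ∑ p ∈ Finset.range (BB s) ×ˢ Finset.range (JJ s),
        a * (7 / 8 * (1 - a) ^ KK s * prob η -
          prob (η ∩ (Quiet n s p.1 ∩ AllHit n s p.1 ∩ E))) ≤
        ∑ p ∈ Finset.range (BB s) ×ˢ Finset.range (JJ s), (1 - a) * prob (Y p) := by
      apply Finset.sum_le_sum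
      rintro ⟨b, j⟩ hp
      rw [Finset.mem_product, Finset.mem_range, Finset.mem_range] at hp
      exact hone b hp.1 j hp.2
    rw [← Finset.mul_sum, ← Finset.mul_sum, Finset.sum_sub_distrib, Finset.sum_product,
      Finset.sum_product] at h1
    simp only [Finset.sum_const, Finset.card_range, nsmul_eq_mul] at h1
    rw [← Finset.mul_sum] at h1
    have h1a : 0 ≤ 1 - a := by linarith
    have h2 := sum_num (B := (BB s : ℝ)) (J := (JJ s : ℝ)) (y := (1 - a) ^ KK s) (P := prob η) (X := X)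
      ha0.le h1a hJR h1 hYsum hDsum
    rw [hβ]
    exact h2
  -- conclusion
  exact final_num ha0 ha1 hJR hPB hPB' hPB0 hll (ll_nonneg s) hP0 (prob_nonneg η) hsum

end Pool.Agent.H583R2.NC
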