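import Pool.Agent.H583R2.NC.NumA

/-! Task NUMB: number of pairs, number of blocks. -/

namespace Pool.Agent.H583R2.NC

attribute [local irreducible] uu vv JJ KK BB rr qq mm ap zp

/-! ### Auxiliary facts on the approximation -/

theorem nb_uu_pos (s : ℕ) : 0 < uu s := by
  unfold uu
  have h : 1 < 2 ^ mm s := Nat.one_lt_two_pow (by unfold mm; omega)
  exact pow_pos (by omega) _

theorem nb_vv_pos (s : ℕ) : 0 < vv s := by
  unfold vv
  positivity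

theorem nb_uu_lt {s : ℕ} (hs : 4 ≤ s) : uu s < vv s := by
  unfold uu vv
  have h : 1 < 2 ^ mm s := Nat.one_lt_two_pow (by unfold mm; omega)
  have hq := two_le_qq hs
  apply Nat.pow_lt_pow_left (by omega)
  have : 0 < qq s * 2 ^ mm s := by positivity
  omega

/-- `J u ≥ 4 r v` -/
theorem nb_J_lo (s : ℕ) : 4 * (rr s : ℝ) ≤ JJ s * ap s := by
  have hu := nb_uu_pos s
  have hv : (0 : ℝ) < vv s := by exact_mod_cast nb_vv_pos s
  have h : 4 * rr s * vv s < uu s * (4 * rr s * vv s / uu s + 1) :=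
    Nat.lt_mul_div_succ _ hu
  have h' : (4 * rr s * vv s : ℝ) ≤ uu s * (JJ s : ℝ) := by
    have : 4 * rr s * vv s ≤ uu s * JJ s := by unfold JJ; exact h.le
    exact_mod_cast this
  rw [ap_eq, mul_div_assoc', le_div_iff₀ hv]
  linarith

theorem nb_J_hi (s : ℕ) : (JJ s : ℝ) * ap s ≤ 4 * (rr s : ℝ) + ap s := by
  have hu := nb_uu_pos s
  have hv : (0 : ℝ) < vv s := by exact_mod_cast nb_vv_pos s
  have h : uu s * (4 * rr s * vv s / uu s) ≤ 4 * rr s * vv s := Nat.mul_div_le _ _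
  have h' : (uu s : ℝ) * (JJ s : ℝ) ≤ 4 * rr s * vv s + uu s := by
    have : uu s * JJ s ≤ 4 * rr s * vv s + uu s := by
      unfold JJ
      rw [mul_add, mul_one]
      omega
    exact_mod_cast this
  rw [ap_eq, mul_div_assoc', div_le_iff₀ hv, add_mul, div_mul_cancel₀ _ hv.ne']
  linarith

theorem nb_ap_pos (s : ℕ) : 0 < ap s := lt_of_lt_of_le (by positivity) (ap_ge s)

theorem nb_two_mul_le {q : ℕ} (hq : 1 ≤ q) : 2 * q ≤ 2 ^ q := by
  induction q, hq using Nat.le_induction with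
  | base => norm_num
  | succ k hk ih =>
    rw [pow_succ]
    omega

theorem nb_M (s : ℕ) : (2 : ℝ) ^ mm s = 64 * ((2:ℝ) ^ qq s * (2:ℝ) ^ qq s) := by
  unfold mm
  rw [pow_add, two_mul, pow_add]
  norm_num
  ring

/-- `(8 r + 2) * 16 q ≤ M` -/
theorem nb_key {s : ℕ} (hs : 4 ≤ s) : (8 * (rr s : ℝ) + 2) * (16 * qq s) ≤ (2:ℝ) ^ mm s := by
  rw [nb_M]
  have h1 : (rr s : ℝ) + 1 ≤ (2:ℝ) ^ qq s := by exact_mod_cast rr_lt s
  have h2 : 2 * (qq s : ℝ) ≤ (2:ℝ) ^ qq s := by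
    exact_mod_cast nb_two_mul_le (by have := two_le_qq hs; omega)
  have h3 : (0:ℝ) ≤ rr s := Nat.cast_nonneg _
  have h4 : (0:ℝ) ≤ qq s := Nat.cast_nonneg _
  calc (8 * (rr s : ℝ) + 2) * (16 * qq s) ≤ (8 * (2:ℝ) ^ qq s) * (8 * (2:ℝ) ^ qq s) := by
        apply mul_le_mul (by linarith) (by linarith) (by positivity) (by positivity)
    _ = 64 * ((2:ℝ) ^ qq s * (2:ℝ) ^ qq s) := by ring

theorem nb_ratio {s : ℕ} (hs : 4 ≤ s) :
    4 * (qq s : ℝ) / 2 ^ mm s * (8 * rr s + 2) ≤ 1 / 4 := by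
  have hM : (0:ℝ) < 2 ^ mm s := by positivity
  rw [div_mul_eq_mul_div, div_le_iff₀ hM]
  linarith [nb_key hs]

theorem nb_ratio' {s : ℕ} (hs : 4 ≤ s) : 4 * (qq s : ℝ) / 2 ^ mm s ≤ 1 / 4 := by
  have h := nb_ratio hs
  have h0 : (0:ℝ) ≤ 4 * (qq s : ℝ) / 2 ^ mm s := by positivity
  have h1 : (0:ℝ) ≤ rr s := Nat.cast_nonneg _
  nlinarith

theorem nb_ap_le_half {s : ℕ} (hs : 4 ≤ s) : ap s ≤ 1 / 2 :=
  (ap_le le_rfl).trans (zp_le_half hs s)

theorem J_lo {n s : ℕ} (_hs : 4 ≤ s) (hn : s ≤ n) : 4 * (rr s : ℝ) ≤ JJ s * zp n s := by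
  refine (nb_J_lo s).trans ?_
  exact mul_le_mul_of_nonneg_left (ap_le hn) (Nat.cast_nonneg _)

theorem J_hi {n s : ℕ} (hs : 4 ≤ s) (_hn : s ≤ n) : (JJ s : ℝ) * zp n s ≤ 8 * rr s + 1 := by
  have h1 := zp_le_ap n s
  have h2 := nb_J_hi s
  have h3 := nb_ratio' hs
  have h4 := nb_ap_le_half hs
  have h5 : (0:ℝ) ≤ JJ s := Nat.cast_nonneg _
  have h6 : (3:ℝ) ≤ rr s := by exact_mod_cast three_le_rr hs
  have h7 : 0 ≤ (JJ s : ℝ) * ap s := mul_nonneg h5 (nb_ap_pos s).le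
  calc (JJ s : ℝ) * zp n s ≤ JJ s * (ap s * (1 + 4 * qq s / 2 ^ mm s)) :=
        mul_le_mul_of_nonneg_left h1 h5
    _ = (JJ s * ap s) * (1 + 4 * qq s / 2 ^ mm s) := by ring
    _ ≤ (JJ s * ap s) * (5 / 4) := mul_le_mul_of_nonneg_left (by linarith) h7
    _ ≤ (4 * (rr s : ℝ) + 1 / 2) * (5 / 4) := by
        apply mul_le_mul_of_nonneg_right _ (by norm_num)
        linarith
    _ ≤ 8 * rr s + 1 := by linarith

/-! ### Blocks -/

theorem nb_sub (s : ℕ) (hs : 4 ≤ s) : ((vv s - uu s : ℕ) : ℝ) = vv s * (1 - ap s) := by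
  have hv : (0 : ℝ) < vv s := by exact_mod_cast nb_vv_pos s
  rw [Nat.cast_sub (nb_uu_lt hs).le, ap_eq, mul_sub, mul_one, mul_div_cancel₀ _ hv.ne']

theorem nb_B_lo {s : ℕ} (hs : 4 ≤ s) :
    (1 / 2 : ℝ) ^ (rr s + 6) / (rr s : ℝ) ^ 2 ≤ (BB s : ℝ) * (1 - ap s) ^ KK s := by
  have hv : (0 : ℝ) < vv s := by exact_mod_cast nb_vv_pos s
  have hr : (3:ℝ) ≤ rr s := by exact_mod_cast three_le_rr hs
  have hX : 0 < 2 ^ (rr s + 6) * rr s ^ 2 * (vv s - uu s) ^ KK s := by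
    have := nb_uu_lt hs
    have h3 := three_le_rr hs
    have : 0 < vv s - uu s := by omega
    have : 0 < rr s := by omega
    positivity
  have h : vv s ^ KK s < (2 ^ (rr s + 6) * rr s ^ 2 * (vv s - uu s) ^ KK s) * BB s := by
    unfold BB
    exact Nat.lt_mul_div_succ _ hX
  have h' : (vv s : ℝ) ^ KK s ≤
      (2 ^ (rr s + 6) * (rr s : ℝ) ^ 2 * (vv s * (1 - ap s)) ^ KK s) * BB s := by
    rw [← nb_sub s hs]
    exact_mod_cast h.le
  rw [mul_pow] at h'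
  have hvK : (0:ℝ) < (vv s : ℝ) ^ KK s := by positivity
  have h2 : 1 ≤ 2 ^ (rr s + 6) * (rr s : ℝ) ^ 2 * (1 - ap s) ^ KK s * BB s := by
    have : (vv s : ℝ) ^ KK s * 1 ≤ (vv s : ℝ) ^ KK s *
        (2 ^ (rr s + 6) * (rr s : ℝ) ^ 2 * (1 - ap s) ^ KK s * BB s) := by
      rw [mul_one]
      refine h'.trans (le_of_eq ?_)
      ring
    exact le_of_mul_le_mul_left this hvK
  rw [div_le_iff₀ (by positivity), one_div, inv_pow, inv_le_iff_one_le_mul₀ (by positivity)]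
  refine h2.trans (le_of_eq ?_)
  ring

theorem nb_B_hi {s : ℕ} (hs : 4 ≤ s) :
    (BB s : ℝ) * (1 - ap s) ^ KK s ≤
      (1 / 2 : ℝ) ^ (rr s + 6) / (rr s : ℝ) ^ 2 + (1 - ap s) ^ KK s := by
  have hv : (0 : ℝ) < vv s := by exact_mod_cast nb_vv_pos s
  have hr : (3:ℝ) ≤ rr s := by exact_mod_cast three_le_rr hs
  have ha : 0 < 1 - ap s := by linarith [nb_ap_le_half hs]
  have h : (2 ^ (rr s + 6) * rr s ^ 2 * (vv s - uu s) ^ KK s) * (BB s - 1) ≤ vv s ^ KK s := by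
    unfold BB
    exact Nat.mul_div_le _ _
  have hB : 1 ≤ BB s := by unfold BB; exact Nat.le_add_left _ _
  have h' : (2 ^ (rr s + 6) * (rr s : ℝ) ^ 2 * (vv s * (1 - ap s)) ^ KK s) * (BB s - 1) ≤
      (vv s : ℝ) ^ KK s := by
    rw [← nb_sub s hs]
    have : (((2 ^ (rr s + 6) * rr s ^ 2 * (vv s - uu s) ^ KK s) * (BB s - 1) : ℕ) : ℝ) ≤
      ((vv s ^ KK s : ℕ) : ℝ) := by exact_mod_cast h
    rw [Nat.cast_mul, Nat.cast_sub hB] at this
    push_cast at this ⊢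
    exact this
  rw [mul_pow] at h'
  have hvK : (0:ℝ) < (vv s : ℝ) ^ KK s := by positivity
  have h2 : 2 ^ (rr s + 6) * (rr s : ℝ) ^ 2 * (1 - ap s) ^ KK s * (BB s - 1) ≤ 1 := by
    have : (vv s : ℝ) ^ KK s *
        (2 ^ (rr s + 6) * (rr s : ℝ) ^ 2 * (1 - ap s) ^ KK s * (BB s - 1)) ≤
        (vv s : ℝ) ^ KK s * 1 := by
      rw [mul_one]
      refine le_trans (le_of_eq ?_) h'
      ring
    exact le_of_mul_le_mul_left this hvK
  have h3 : (BB s - 1) * (1 - ap s) ^ KK s ≤ (1 / 2 : ℝ) ^ (rr s + 6) / (rr s : ℝ) ^ 2 := by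
    rw [le_div_iff₀ (by positivity), one_div, inv_pow, ← one_div, le_div_iff₀ (by positivity)]
    refine le_trans (le_of_eq ?_) h2
    ring
  have h4 : (BB s : ℝ) * (1 - ap s) ^ KK s = (BB s - 1) * (1 - ap s) ^ KK s +
    (1 - ap s) ^ KK s := by ring
  linarith

theorem nb_al_small {s : ℕ} (hs : 4 ≤ s) :
    (1 - ap s) ^ KK s ≤ (1 / 2 : ℝ) ^ (rr s + 6) / (rr s : ℝ) ^ 2 := by
  have hr := three_le_rr hs
  have ha : 0 ≤ 1 - ap s := by linarith [nb_ap_le_half hs]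
  have h1 : (1 - ap s) ^ KK s ≤ (1 / 2 : ℝ) ^ (8 * rr s) := by
    have e1 : 1 - ap s ≤ Real.exp (-ap s) := Real.one_sub_le_exp_neg _
    have e2 : (1 - ap s) ^ KK s ≤ Real.exp (-ap s) ^ KK s := pow_le_pow_left₀ ha e1 _
    have e3 : Real.exp (-ap s) ^ KK s = Real.exp (-((KK s : ℝ) * ap s)) := by
      rw [← Real.exp_nat_mul]
      congr 1
      ring
    have e4 : ((8 * rr s : ℕ) : ℝ) ≤ (KK s : ℝ) * ap s := by
      have := nb_J_lo s
      unfold KK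
      push_cast
      linarith
    have e5 : Real.exp (-((KK s : ℝ) * ap s)) ≤ Real.exp (-((8 * rr s : ℕ) : ℝ)) :=
      Real.exp_le_exp.2 (by linarith)
    have e6 : Real.exp (-((8 * rr s : ℕ) : ℝ)) = Real.exp (-1) ^ (8 * rr s) := by
      rw [← Real.exp_nat_mul]
      congr 1
      ring
    have e7 : Real.exp (-1) ≤ 1 / 2 := by
      rw [Real.exp_neg, ← one_div]
      apply one_div_le_one_div_of_le (by norm_num)
      have := Real.add_one_le_exp (1:ℝ)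
      linarith
    have e8 : Real.exp (-1) ^ (8 * rr s) ≤ (1 / 2 : ℝ) ^ (8 * rr s) :=
      pow_le_pow_left₀ (Real.exp_pos _).le e7 _
    rw [e3] at e2
    rw [e6] at e5
    exact e2.trans (e5.trans e8)
  refine h1.trans ?_
  have hr0 : (0:ℝ) < rr s := by
    have : 0 < rr s := by omega
    exact_mod_cast this
  rw [le_div_iff₀ (by positivity)]
  have h2 : (rr s : ℝ) ≤ 2 ^ rr s := by
    exact_mod_cast (Nat.lt_two_pow_self (n := rr s)).le
  have h3 : (rr s : ℝ) ^ 2 ≤ 2 ^ (2 * rr s) := by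
    calc (rr s : ℝ) ^ 2 ≤ (2 ^ rr s) ^ 2 := pow_le_pow_left₀ hr0.le h2 2
      _ = 2 ^ (2 * rr s) := by rw [← pow_mul, mul_comm]
  calc (1 / 2 : ℝ) ^ (8 * rr s) * (rr s : ℝ) ^ 2
      ≤ (1 / 2 : ℝ) ^ (8 * rr s) * 2 ^ (2 * rr s) :=
        mul_le_mul_of_nonneg_left h3 (by positivity)
    _ = (1 / 2 : ℝ) ^ (6 * rr s) := by
        have : 8 * rr s = 6 * rr s + 2 * rr s := by ring
        rw [this, pow_add, mul_assoc, ← mul_pow]
        norm_num
    _ ≤ (1 / 2 : ℝ) ^ (rr s + 6) :=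
        pow_le_pow_of_le_one (by norm_num) (by norm_num) (by omega)

/-- `al ≥ al' / 2` -/
theorem nb_al_half {n s : ℕ} (hs : 4 ≤ s) :
    (1 - ap s) ^ KK s / 2 ≤ (1 - zp n s) ^ KK s := by
  have ha := nb_ap_le_half hs
  have hz := zp_le_half hs n
  have hz' := zp_le_ap n s
  have hpos : 0 < 1 - ap s := by linarith
  have h1 : 1 - zp n s = (1 - ap s) * (1 + -((zp n s - ap s) / (1 - ap s))) := by
    field_simp
    ring
  have hd : (zp n s - ap s) / (1 - ap s) ≤ 2 * (ap s * (4 * qq s / 2 ^ mm s)) := by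
    rw [div_le_iff₀ hpos]
    have h5 : 0 ≤ ap s * (4 * (qq s:ℝ) / 2 ^ mm s) := by
      have := nb_ap_pos s
      positivity
    have h6 : zp n s - ap s ≤ ap s * (4 * qq s / 2 ^ mm s) := by linarith
    nlinarith
  have hK : (KK s : ℝ) * ((zp n s - ap s) / (1 - ap s)) ≤ 1 / 2 := by
    have hK0 : (0:ℝ) ≤ KK s := Nat.cast_nonneg _
    have hJ := nb_J_hi s
    have hrat := nb_ratio hs
    have h0 : (0:ℝ) ≤ 4 * (qq s : ℝ) / 2 ^ mm s := by positivity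
    calc (KK s : ℝ) * ((zp n s - ap s) / (1 - ap s))
        ≤ KK s * (2 * (ap s * (4 * qq s / 2 ^ mm s))) := mul_le_mul_of_nonneg_left hd hK0
      _ = 4 * (qq s : ℝ) / 2 ^ mm s * (4 * (JJ s * ap s)) := by
          unfold KK
          push_cast
          ring
      _ ≤ 4 * (qq s : ℝ) / 2 ^ mm s * (2 * (8 * rr s + 2)) := by
          apply mul_le_mul_of_nonneg_left _ h0
          linarith
      _ ≤ 1 / 2 := by linarith
  have hb := one_add_mul_le_pow (a := -((zp n s - ap s) / (1 - ap s))) (by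
    have : (zp n s - ap s) / (1 - ap s) ≤ 1 := by
      rw [div_le_one hpos]
      linarith
    linarith) (KK s)
  rw [h1, mul_pow]
  have h7 : 0 ≤ (1 - ap s) ^ KK s := by positivity
  calc (1 - ap s) ^ KK s / 2 = (1 - ap s) ^ KK s * (1 / 2) := by ring
    _ ≤ (1 - ap s) ^ KK s * (1 + -((zp n s - ap s) / (1 - ap s))) ^ KK s := by
        apply mul_le_mul_of_nonneg_left _ h7
        refine le_trans ?_ hb
        linarith

theorem bad_hi {n s : ℕ} (hs : 4 ≤ s) (hn : s ≤ n) :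
    (BB s : ℝ) * (1 - zp n s) ^ KK s ≤ ee s := by
  have h1 : (1 - zp n s) ^ KK s ≤ (1 - ap s) ^ KK s := by
    apply pow_le_pow_left₀
    · linarith [zp_le_half hs n]
    · linarith [ap_le hn]
  have h2 := nb_B_hi hs
  have h3 := nb_al_small hs
  calc (BB s : ℝ) * (1 - zp n s) ^ KK s ≤ BB s * (1 - ap s) ^ KK s :=
        mul_le_mul_of_nonneg_left h1 (Nat.cast_nonneg _)
    _ ≤ (1 / 2 : ℝ) ^ (rr s + 6) / (rr s : ℝ) ^ 2 + (1 / 2 : ℝ) ^ (rr s + 6) / (rr s : ℝ) ^ 2 := by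
        linarith
    _ = ee s := by
        unfold ee
        rw [pow_succ (1 / 2 : ℝ) (rr s + 5)]
        ring

theorem bad_lo {n s : ℕ} (hs : 4 ≤ s) (hn : s ≤ n) :
    (1 / 2 : ℝ) ^ (rr s + 7) / (rr s : ℝ) ^ 2 ≤ (BB s : ℝ) * (1 - zp n s) ^ KK s := by
  have h1 := nb_al_half (n := n) hs
  have h2 := nb_B_lo hs
  calc (1 / 2 : ℝ) ^ (rr s + 7) / (rr s : ℝ) ^ 2
      = (1 / 2 : ℝ) ^ (rr s + 6) / (rr s : ℝ) ^ 2 / 2 := by
        rw [pow_succ (1 / 2 : ℝ) (rr s + 6)]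
        ring
    _ ≤ BB s * (1 - ap s) ^ KK s / 2 := by linarith
    _ = BB s * ((1 - ap s) ^ KK s / 2) := by ring
    _ ≤ BB s * (1 - zp n s) ^ KK s := mul_le_mul_of_nonneg_left h1 (Nat.cast_nonneg _)

end Pool.Agent.H583R2.NC
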