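import Pool.Agent.H583R2.NC.NumP
import Pool.Agent.H628R3.RO.P2

/-!
The parameters of the stages are computable in polynomial time.
-/

namespace Pool.Agent.H583R2.NC

open Pool.Agent.NPC Pool.Agent.H628R3.RO

theorem size_pow_le (x k : ℕ) : (x ^ k).size ≤ k * x.size + 1 := by
  rw [Nat.size_le]
  calc x ^ k ≤ (2 ^ x.size) ^ k := Nat.pow_le_pow_left (Nat.lt_size_self x).le k
    _ = 2 ^ (k * x.size) := by rw [← pow_mul, Nat.mul_comm]
    _ < 2 ^ (k * x.size + 1) := Nat.pow_lt_pow_right (by norm_num) (Nat.lt_succ_self _)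

/-- powers with unary exponents -/
theorem p_npow {α : Type} [TEnc α] {x y : α → ℕ} (hx : Poly x) (hy : UPoly y) :
    Poly (fun a => x a ^ y a) := by
  obtain ⟨r, hr⟩ := uPoly_le hy
  obtain ⟨r', hr'⟩ := hx.sz_le
  have key : ∀ (a : α) (k : ℕ), (fun s : ℕ => s * x a)^[k] 1 = x a ^ k := by
    intro a k
    induction k with
    | zero => rfl
    | succ k ih => rw [Function.iterate_succ_apply', ih, pow_succ]
  refine (Poly.iterLen (l := fun a => List.replicate (y a) ()) (s := fun _ => (1 : ℕ))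
    (F := fun (a : α) (s : ℕ) => s * x a) hy (NPC.Poly.const _)
    (Poly.mul (Poly.snd Poly.id) (hx.comp (Poly.fst Poly.id)))
    (Polynomial.C 4 * (r * r' + Polynomial.C 1) + Polynomial.C 1) ?_).congr fun a => ?_
  · intro a k hk
    rw [List.length_replicate] at hk
    rw [key]
    have h1 := sz_nat_le (x a ^ k)
    have h2 := size_pow_le (x a) k
    have h3 := size_le_sz (x a)
    have h4 := hr' a
    have h5 := hr a
    have h6 : k * (x a).size ≤ r.eval (sz a) * r'.eval (sz a) :=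
      Nat.mul_le_mul (hk.trans h5) (by omega)
    simp only [Polynomial.eval_add, Polynomial.eval_mul, Polynomial.eval_C]
    omega
  · rw [List.length_replicate, key]

theorem u_rr {α : Type} [TEnc α] {s : α → ℕ} (hs : Poly s) : UPoly (fun a => rr (s a)) :=
  (UPoly.length (Poly.natBits hs)).congr fun a => by
    simp only [rr, Nat.size_eq_bits_len]

theorem u_qq {α : Type} [TEnc α] {s : α → ℕ} (hs : UPoly s) : UPoly (fun a => qq (s a)) :=
  u_rr (u_rr hs.toPoly).toPoly

theorem u_mm {α : Type} [TEnc α] {s : α → ℕ} (hs : UPoly s) : UPoly (fun a => mm (s a)) :=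
  ((UPoly.const 2).mul (u_qq hs)).add (UPoly.const 6)

theorem u_pmm {α : Type} [TEnc α] {s : α → ℕ} (hs : UPoly s) :
    UPoly (fun a => 2 ^ mm (s a)) := by
  obtain ⟨P, hP⟩ := size_poly
  refine u_pow (u_mm hs) (hs.eval P) fun a => ?_
  have := hP (s a)
  omega

theorem p_vv {α : Type} [TEnc α] {s : α → ℕ} (hs : UPoly s) : Poly (fun a => vv (s a)) :=
  p_npow (u_pmm hs).toPoly ((u_qq hs).mul (u_pmm hs))

theorem p_uu {α : Type} [TEnc α] {s : α → ℕ} (hs : UPoly s) : Poly (fun a => uu (s a)) :=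
  p_npow (Poly.sub (u_pmm hs).toPoly (NPC.Poly.const 1)) ((u_qq hs).mul (u_pmm hs))

theorem u_JJ {α : Type} [TEnc α] {s : α → ℕ} (hs : UPoly s) : UPoly (fun a => JJ (s a)) := by
  obtain ⟨P, hP⟩ := size_poly
  refine UPoly.of_le ?_ (hs.eval P) fun a => ?_
  · exact Poly.add (Poly.div (Poly.mul (Poly.mul (NPC.Poly.const 4) (u_rr hs.toPoly).toPoly)
      (p_vv hs)) (p_uu hs)) (NPC.Poly.const 1)
  · have h1 := hP (s a)
    have h2 := Nat.zero_le (2 ^ mm (s a))
    omega

theorem u_KK {α : Type} [TEnc α] {s : α → ℕ} (hs : UPoly s) : UPoly (fun a => KK (s a)) :=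
  (UPoly.const 2).mul (u_JJ hs)

theorem u_BB {α : Type} [TEnc α] {s : α → ℕ} (hs : UPoly s) : UPoly (fun a => BB (s a)) := by
  obtain ⟨P, hP⟩ := size_poly
  refine UPoly.of_le ?_ (hs.eval P) fun a => ?_
  · have h1 : UPoly (fun a => rr (s a)) := u_rr hs.toPoly
    exact Poly.add (Poly.div (p_npow (p_vv hs) (u_KK hs))
      (Poly.mul (Poly.mul (p_npow (NPC.Poly.const 2) (h1.add (UPoly.const 6)))
        (p_npow h1.toPoly (UPoly.const 2)))
        (p_npow (Poly.sub (p_vv hs) (p_uu hs)) (u_KK hs)))) (NPC.Poly.const 1)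
  · have h1 := hP (s a)
    have h2 := Nat.zero_le (2 ^ mm (s a))
    omega

end Pool.Agent.H583R2.NC
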