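import Pool.Agent.H583R2.NC.Defs
import Pool.Agent.H628R3.RO.C2
import Pool.Agent.H628R3.RO.M5
import Pool.Agent.H628R3.RO.E2
import Pool.Agent.H628R3.RO.K4
import Pool.Agent.H628R3.RO.G2
import Pool.Agent.H628R3.RO.F0

/-! Stubs. Never import this file in a finished file. -/

namespace Pool.Agent.H583R2.NC

open MeasureTheory Pool.Agent.NPC Pool.Agent.H628R3.RO

/-! ### Task KP (file `KP.lean`, imports M5) -/

theorem key_pair {K : Set (List Bool)} (hK : K.Finite) {Z E η : Set Oracle} (hZ : Loc K Z)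
    (hE : Loc K E) (hη : Loc K η) (W : Bool → Finset Cand) (hd : Disjoint (W false) (W true))
    {m w : ℕ} (hm : 1 ≤ m) (hw : ∀ i, (W i).card = w) (t : ℕ)
    (hW : ∀ i, ∀ κ ∈ W i, ∀ l < m, pos κ.1 l κ.2 ∈ K)
    (hη' : ∀ (B : Oracle) (h : Finset Cand), h ⊆ W false ∪ W true →
      (plant (allSpots m h) B ∈ η ↔ B ∈ η))
    (hkey : ∀ B ∈ NoHit m (W false ∪ W true), ∃ (T : Finset Cand)
      (T' : Bool → Finset Cand → Finset Cand), T.card ≤ t ∧ (∀ i h, (T' i h).card ≤ t) ∧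
      ∀ h : Bool → Finset Cand, (∀ i, h i ⊆ W i) → (∀ i, (h i).Nonempty) →
        (∀ i, Disjoint (h i) T) → (∀ i, Disjoint (h (!i)) (T' i (h i))) →
        (∀ i, plant (allSpots m (h i)) B ∈ Z) →
        plant (allSpots m (h false ∪ h true)) B ∈ E) :
    (1 - (1 / 2 : ℝ) ^ m) ^ w *
      ((1 - (1 - (1 / 2 : ℝ) ^ m) ^ w) ^ 2 * prob η -
        4 * t * (1 / 2) ^ m * (1 - (1 - (1 / 2 : ℝ) ^ m) ^ w) * prob η -
        prob (η ∩ ((NoHit m (W false))ᶜ ∩ (NoHit m (W true))ᶜ ∩ E))) ≤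
      (1 - (1 - (1 / 2 : ℝ) ^ m) ^ w) * prob (η ∩ Zᶜ) := by sorry

/-! ### Task CORE (file `Core.lean`, imports C2) -/

theorem core_gen {R : Type} [Countable R] (Bad Inv Err : ℕ → ℕ → Set Oracle)
    (Good : R → ℕ → ℕ → Set Oracle) (K : ℕ → ℕ → Finset (List Bool))
    (hK : ∀ n s, ∀ x ∈ K n s, n < x.length)
    (hKd : ∀ n n' s s', n ≠ n' → Disjoint (K n s) (K n' s'))
    (hBad : ∀ n s, Loc (K n s) (Bad n s)) (hInv : ∀ n s, MeasurableSet (Inv n s))
    (b : Polynomial ℕ) (hErr : ∀ n s, Loc {x | x.length ≤ b.eval (2 ^ n)} (Err n s))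
    (hBad' : ∀ n s, s ≤ n → Loc {x | x.length ≤ b.eval (2 ^ n)} (Bad n s))
    (hGood : ∀ r, ∃ b' : Polynomial ℕ, ∀ n s, s ≤ n →
      Loc {x | x.length ≤ b'.eval (2 ^ n)} (Good r n s))
    (e l : ℕ → ℝ) (he0 : ∀ s, 0 ≤ e s) (he : Summable e) (he4 : ∀ s ≥ 4, e s ≤ 1 / 16)
    (h1 : ∀ n s, 4 ≤ s → s ≤ n → prob (Bad n s) ≤ e s) (C : ℝ)
    (hC : ∀ n s, 4 ≤ s → s ≤ n → prob (Inv n s) ≤ C * prob (Bad n s))
    (h2 : ∀ s, 4 ≤ s → ∃ c > 0, ∀ n ≥ s, c ≤ prob (Bad n s))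
    (hl0 : ∀ s, 0 ≤ l s) (hl : ¬ Summable l)
    (key : ∀ r : R, ∃ n0, ∀ n ≥ n0, ∀ s, 4 ≤ s → s ≤ n → ∀ t < n, ∀ η : Set Oracle,
      Loc {x | x.length ≤ t} η →
      l s * (7 / 8 * prob η - prob (η ∩ (Bad n s ∩ Err n s)) / prob (Bad n s)) ≤
        prob (η ∩ (Good r n s)ᶜ))
    (hb : ∀ m, m ≤ b.eval m) :
    ∀ᵐ A ∂randomOracle, (∀ n s, A ∉ Bad n s ∩ Err n s) → ∃ (t : ℕ) (L : List (List Bool)),
      (∃ k, ∀ i ≥ k, A ∉ Inv (Tt b t i) (lev Bad Err t L (Tt b t) i)) ∧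
      ∀ r k, ∃ i ≥ k, A ∉ Good r (Tt b t i) (lev Bad Err t L (Tt b t) i) := by sorry

/-! ### Task NUMA (file `NumA.lean`, imports Defs, D5): the probability that a slot is zero -/

theorem three_le_rr {s : ℕ} (hs : 4 ≤ s) : 3 ≤ rr s := by sorry
theorem two_le_qq {s : ℕ} (hs : 4 ≤ s) : 2 ≤ qq s := by sorry
theorem rr_lt (s : ℕ) : rr s < 2 ^ qq s := by sorry
theorem pow_qq_le {s : ℕ} (hs : 1 ≤ s) : 2 ^ qq s ≤ 2 * rr s := by sorry
theorem lt_pow_rr (s : ℕ) : s < 2 ^ rr s := by sorry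
theorem pow_rr_le {s : ℕ} (hs : 1 ≤ s) : 2 ^ rr s ≤ 2 * s := by sorry
theorem mm_le_wl {n s : ℕ} (h : s ≤ n) : mm s ≤ wl n := by sorry

/-- the rational approximation -/
noncomputable def ap (s : ℕ) : ℝ := (1 - (1 / 2 : ℝ) ^ mm s) ^ (qq s * 2 ^ mm s)

theorem ap_eq (s : ℕ) : ap s = (uu s : ℝ) / (vv s : ℝ) := by sorry
theorem ap_le {n s : ℕ} (h : s ≤ n) : ap s ≤ zp n s := by sorry
theorem zp_le_ap (n s : ℕ) : zp n s ≤ ap s * (1 + 4 * qq s / 2 ^ mm s) := by sorry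
theorem ap_ge (s : ℕ) : (1 / 4 : ℝ) ^ qq s ≤ ap s := by sorry
theorem zp_hi (n s : ℕ) : zp n s ≤ (2 / 5) ^ qq s := by sorry
theorem zp_pos (n s : ℕ) : 0 < zp n s := by sorry
theorem zp_le_half {s : ℕ} (hs : 4 ≤ s) (n : ℕ) : zp n s ≤ 1 / 2 := by sorry

/-! ### Task NUMB (file `NumB.lean`, imports NumA): number of pairs, number of blocks -/

theorem J_lo {n s : ℕ} (hs : 4 ≤ s) (hn : s ≤ n) : 4 * (rr s : ℝ) ≤ JJ s * zp n s := by sorry
theorem J_hi {n s : ℕ} (hs : 4 ≤ s) (hn : s ≤ n) : (JJ s : ℝ) * zp n s ≤ 8 * rr s + 1 := by sorry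
theorem bad_hi {n s : ℕ} (hs : 4 ≤ s) (hn : s ≤ n) :
    (BB s : ℝ) * (1 - zp n s) ^ KK s ≤ ee s := by sorry
theorem bad_lo {n s : ℕ} (hs : 4 ≤ s) (hn : s ≤ n) :
    (1 / 2 : ℝ) ^ (rr s + 7) / (rr s : ℝ) ^ 2 ≤ (BB s : ℝ) * (1 - zp n s) ^ KK s := by sorry

/-! ### Task NUMC (file `NumC.lean`, imports NumB): consequences -/

theorem quiet_num {n s : ℕ} (hs : 4 ≤ s) (hn : s ≤ n) :
    (BB s : ℝ) * ((1 - zp n s) ^ KK s + KK s * zp n s * (1 - zp n s) ^ (KK s - 1)) ≤ 1 / 16 := by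
  sorry
theorem two_num {n s : ℕ} (hs : 4 ≤ s) (hn : s ≤ n) : (JJ s : ℝ) * zp n s ^ 2 ≤ 10 := by sorry
theorem ll_num {n s : ℕ} (hs : 4 ≤ s) (hn : s ≤ n) :
    ll s ≤ JJ s * zp n s / (1 - zp n s) * (1 / 2 * (BB s * (1 - zp n s) ^ KK s)) := by sorry
theorem ee_nonneg (s : ℕ) : 0 ≤ ee s := by sorry
theorem ee_le {s : ℕ} (hs : 4 ≤ s) : ee s ≤ 1 / 16 := by sorry
theorem ll_nonneg (s : ℕ) : 0 ≤ ll s := by sorry

/-! ### Task NUMS (file `NumS.lean`, imports Defs): summability -/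

theorem summable_ee : Summable ee := by sorry
theorem not_summable_ll : ¬ Summable ll := by sorry

/-! ### Task NUMP (file `NumP.lean`, imports NumA or NumB): polynomial bounds -/

theorem size_poly : ∃ P : Polynomial ℕ, ∀ s, BB s * KK s * qq s + BB s + KK s + JJ s + qq s
    + 2 ^ mm s + qq s * 2 ^ mm s ≤ P.eval s := by sorry

/-! ### Task UP (file `Par.lean`, imports NumP): the parameters are computable -/

theorem u_rr {α : Type} [TEnc α] {s : α → ℕ} (hs : Poly s) : UPoly (fun a => rr (s a)) := by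
  sorry
theorem u_qq {α : Type} [TEnc α] {s : α → ℕ} (hs : UPoly s) : UPoly (fun a => qq (s a)) := by
  sorry
theorem u_KK {α : Type} [TEnc α] {s : α → ℕ} (hs : UPoly s) : UPoly (fun a => KK (s a)) := by
  sorry
theorem u_JJ {α : Type} [TEnc α] {s : α → ℕ} (hs : UPoly s) : UPoly (fun a => JJ (s a)) := by
  sorry
theorem u_BB {α : Type} [TEnc α] {s : α → ℕ} (hs : UPoly s) : UPoly (fun a => BB (s a)) := by
  sorry

/-! ### Task LOC (file `Loc.lean`, imports Defs, D1, D3, M2; NumP for the last): locality -/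

theorem mem_slot {n s b i : ℕ} {κ : Cand} : κ ∈ slot n s b i ↔
    (b * KK s + i) * qq s ≤ κ.1 ∧ κ.1 < (b * KK s + i + 1) * qq s ∧ κ.2.length = wl n := by sorry
theorem card_slot (n s b i : ℕ) : (slot n s b i).card = qq s * 2 ^ wl n := by sorry
theorem slot_disjoint {n s b i b' i' : ℕ} (h : b * KK s + i ≠ b' * KK s + i') :
    Disjoint (slot n s b i) (slot n s b' i') := by sorry
theorem slot_disjoint' {n s b i b' i' : ℕ} (hi : i < KK s) (hi' : i' < KK s)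
    (h : b ≠ b' ∨ i ≠ i') : Disjoint (slot n s b i) (slot n s b' i') := by sorry
theorem slot_subset {n s b i : ℕ} (hb : b < BB s) (hi : i < KK s) :
    slot n s b i ⊆ blk n s := by sorry
theorem lt_length_spotsB {n s : ℕ} : ∀ x ∈ spotsB n s, n < x.length := by sorry
theorem disjoint_spotsB (n n' s s' : ℕ) (h : n ≠ n') :
    Disjoint (spotsB n s) (spotsB n' s') := by sorry
theorem pos_mem_spotsB {n s : ℕ} {κ : Cand} (h : κ ∈ blk n s) {l : ℕ} (hl : l < wl n) :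
    pos κ.1 l κ.2 ∈ spotsB n s := by sorry
theorem loc_Zero {n s b i : ℕ} (hb : b < BB s) (hi : i < KK s) :
    Loc (spotsB n s) (Zero n s b i) := by sorry
theorem loc_AllHit {n s b : ℕ} (hb : b < BB s) : Loc (spotsB n s) (AllHit n s b) := by sorry
theorem loc_Others {n s b j : ℕ} (hb : b < BB s) : Loc (spotsB n s) (Others n s b j) := by sorry
theorem loc_One {n s b : ℕ} (hb : b < BB s) : Loc (spotsB n s) (One n s b) := by sorry
theorem loc_Quiet (n s b : ℕ) : Loc (spotsB n s) (Quiet n s b) := by sorry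
theorem loc_Bad (n s : ℕ) : Loc (spotsB n s) (Bad n s) := by sorry
theorem loc_Inv (n s : ℕ) : Loc (spotsB n s) (Inv n s) := by sorry
theorem length_spotsB : ∃ P : Polynomial ℕ, ∀ n s, s ≤ n → ∀ x ∈ spotsB n s,
    x.length ≤ P.eval n := by sorry
/-- planting hits in one slot does not change the other slots -/
theorem plant_Zero {n s b i : ℕ} {h : Finset Cand} (hd : Disjoint h (slot n s b i)) (A : Oracle) :
    plant (allSpots (wl n) h) A ∈ Zero n s b i ↔ A ∈ Zero n s b i := by sorry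
theorem plant_Others {n s b j : ℕ} {h : Finset Cand} (hj : j < JJ s)
    (hh : h ⊆ slot n s b (2 * j) ∪ slot n s b (2 * j + 1)) (A : Oracle) :
    plant (allSpots (wl n) h) A ∈ Others n s b j ↔ A ∈ Others n s b j := by sorry
theorem plant_Quiet {n s b j : ℕ} {h : Finset Cand} (hj : j < JJ s)
    (hh : h ⊆ slot n s b (2 * j) ∪ slot n s b (2 * j + 1)) (A : Oracle) :
    plant (allSpots (wl n) h) A ∈ Quiet n s b ↔ A ∈ Quiet n s b := by sorry
/-- planting hits of the stage does not change events on short strings -/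
theorem plant_short {n s t : ℕ} (ht : t ≤ n) {η : Set Oracle} (hη : Loc {x | x.length ≤ t} η)
    {h : Finset Cand} (hh : h ⊆ blk n s) (A : Oracle) :
    plant (allSpots (wl n) h) A ∈ η ↔ A ∈ η := by sorry

/-! ### Task PRB (file `Prb.lean`, imports Loc): probabilities -/

/-- independence of the slots of one block, and of what happens elsewhere -/
theorem prob_slots {K : Set (List Bool)} (hK : K.Finite) {η : Set Oracle} (hη : Loc K η)
    (n s b : ℕ) (F G : Finset ℕ) (hFG : Disjoint F G)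
    (hd : ∀ i ∈ F ∪ G, ∀ κ ∈ slot n s b i, ∀ l < wl n, pos κ.1 l κ.2 ∉ K) :
    prob (η ∩ {A | (∀ i ∈ F, A ∈ Zero n s b i) ∧ ∀ i ∈ G, A ∉ Zero n s b i}) =
      prob η * (zp n s ^ F.card * (1 - zp n s) ^ G.card) := by sorry
theorem prob_AllHit (n s b : ℕ) : prob (AllHit n s b) = (1 - zp n s) ^ KK s := by sorry
theorem prob_One_le (n s b : ℕ) :
    prob (One n s b) ≤ KK s * zp n s * (1 - zp n s) ^ (KK s - 1) := by sorry
theorem prob_Two_le (n s : ℕ) :
    prob (Two n s) ≤ BB s * JJ s * (zp n s ^ 2 * (1 - zp n s) ^ (KK s - 2)) := by sorry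
theorem prob_Bad_le (n s : ℕ) : prob (Bad n s) ≤ BB s * (1 - zp n s) ^ KK s := by sorry
theorem prob_Bad_ge (n s : ℕ) (h : (BB s : ℝ) * (1 - zp n s) ^ KK s ≤ 1) :
    1 / 2 * (BB s * (1 - zp n s) ^ KK s) ≤ prob (Bad n s) := by sorry
theorem prob_Quiet_ge (n s b : ℕ) : 1 - BB s * ((1 - zp n s) ^ KK s +
    KK s * zp n s * (1 - zp n s) ^ (KK s - 1)) ≤ prob (Quiet n s b) := by sorry
theorem prob_eta {n s t b j : ℕ} (ht : t ≤ n) {η : Set Oracle} (hη : Loc {x | x.length ≤ t} η)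
    (hb : b < BB s) (hj : j < JJ s) :
    prob (η ∩ (Quiet n s b ∩ Others n s b j)) =
      prob η * prob (Quiet n s b) * (1 - zp n s) ^ (KK s - 2) := by sorry

/-! ### Task KEYB (file `KeyB.lean`, imports KP, Loc, Prb, NumC): the key inequality -/

theorem key_blocks {n s t₀ t k : ℕ} (hs : 4 ≤ s) (hsn : s ≤ n) (ht₀ : t₀ < n) {η Z E : Set Oracle}
    (hη : Loc {x | x.length ≤ t₀} η) (hZ : Loc {x | x.length ≤ k} Z)
    (hE : Loc {x | x.length ≤ k} E) (ht : 128 * t ≤ 2 ^ n)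
    (hkey : ∀ b < BB s, ∀ j < JJ s, ∀ B ∈ Others n s b j,
      B ∈ Zero n s b (2 * j) → B ∈ Zero n s b (2 * j + 1) → ∃ (T : Finset Cand)
      (T' : Bool → Finset Cand → Finset Cand), T.card ≤ t ∧ (∀ i h, (T' i h).card ≤ t) ∧
      ∀ h : Bool → Finset Cand, (∀ i : Bool, h i ⊆ slot n s b (2 * j + i.toNat)) →
        (∀ i, (h i).Nonempty) → (∀ i, Disjoint (h i) T) →
        (∀ i, Disjoint (h (!i)) (T' i (h i))) →
        (∀ i, plant (allSpots (wl n) (h i)) B ∈ Z) →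
        plant (allSpots (wl n) (h false ∪ h true)) B ∈ E) :
    ll s * (7 / 8 * prob η - prob (η ∩ (Bad n s ∩ E)) / prob (Bad n s)) ≤
      prob (η ∩ Zᶜ) := by sorry

/-! ### Task INST (file `Inst.lean`, imports Loc, NumP): instances -/

theorem inst_length : ∃ P : Polynomial ℕ, ∀ n s b j A, s ≤ n → b < BB s → j < JJ s →
    (inst n s b j A).length ≤ P.eval n := by sorry
theorem inst_plant {n s b j : ℕ} (hj : j < JJ s) {h : Finset Cand}
    (hh : h ⊆ slot n s b (2 * j) ∪ slot n s b (2 * j + 1)) (A : Oracle) :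
    inst n s b j (plant (allSpots (wl n) h) A) = inst n s b j A := by sorry
theorem inst_congr {n s b j : ℕ} (hb : b < BB s) {A A' : Oracle}
    (h : ∀ x ∈ spotsB n s, A x = A' x) : inst n s b j A = inst n s b j A' := by sorry
theorem inst_cert {n s b j : ℕ} (hb : b < BB s) (hj : j < JJ s) {A : Oracle}
    (hA : A ∈ Others n s b j) : Cert A s (instD n s b j A) := by sorry
/-- correct certificates for pair `j` mean that all other slots are not zero -/
theorem others_of_cert {A : Oracle} {s : ℕ} {D : Data} (h : Cert A s D) :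
    A ∈ Others D.1.length s D.2.1 D.2.2.1 := by sorry

/-! ### Task KEYR (file `KeyR.lean`, imports KeyB, Inst, K4) -/

theorem loc_GoodR (V : Bool → Alg) (p : Bool → Polynomial ℕ) (r : Alg) : ∃ b : Polynomial ℕ,
    ∀ n s, s ≤ n → Loc {x | x.length ≤ b.eval (2 ^ n)} (GoodR V p r n s) := by sorry
theorem key_R (V : Bool → Alg) (p : Bool → Polynomial ℕ) (r : Alg) : ∃ n0, ∀ n ≥ n0, ∀ s,
    4 ≤ s → s ≤ n → ∀ t < n, ∀ η : Set Oracle, Loc {x | x.length ≤ t} η →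
    ll s * (7 / 8 * prob η - prob (η ∩ (Bad n s ∩ ErrN V p n)) / prob (Bad n s)) ≤
      prob (η ∩ (GoodR V p r n s)ᶜ) := by sorry

/-! ### Task MEM (file `Mem.lean`, imports Par, Inst, G2): the language is in `NP ∩ coNP` -/

theorem isNP_LL (A : Oracle) (f : ℕ → Option ℕ) (hf : Poly (fun x : List Unit => f x.length))
    (hfn : ∀ n s, f n = some s → s ≤ n) : IsNP A (LL f A) := by sorry
theorem isCoNP_LL (A : Oracle) (f : ℕ → Option ℕ) (hf : Poly (fun x : List Unit => f x.length))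
    (hfn : ∀ n s, f n = some s → s ≤ n) (hA : ∀ n s, f n = some s → A ∉ Inv n s) :
    IsCoNP A (LL f A) := by sorry

/-! ### Task CHK (file `Chk.lean`, imports Par, Loc, E2) -/

theorem check_B (V : Bool → Alg) (p : Bool → Polynomial ℕ) :
    ∃ b, Check Bad (fun n _ => ErrN V p n) b := by sorry

/-! ### Task MAIN (file `Main.lean`) -/

theorem npconp_main : ∀ᵐ A ∂randomOracle, ∀ K : Set (List Bool), IsNP A K → IsCoNP A K →
    ∃ L : Set (List Bool), IsNP A L ∧ IsCoNP A L ∧ ¬ Red A L K := by sorry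

end Pool.Agent.H583R2.NC
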